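import Pool.Agent.Work.MP_dd0d16_nt.Defs

/-!
Definitions used in the statement about norm-compatible systems in towers.
-/

set_option autoImplicit false

namespace Pool.Agent.Work.MP_dd0d16_nt.W

open IntermediateField Filter Polynomial

variable {p : ℕ} [Fact p.Prime]

/-- The field generated by `ξ n` over `U`. -/
noncomputable def Lev (U : IntermediateField ℚ_[p] (PadicAlgCl p)) (ξ : ℕ → PadicAlgCl p) (n : ℕ) :
    IntermediateField ℚ_[p] (PadicAlgCl p) :=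
  U ⊔ ℚ_[p]⟮ξ n⟯

/-- `f` is a monic polynomial over `U` without constant term that lifts `X ^ q`, `q = p ^ h`; an
automorphism `σ` fixes `f` and lifts the `q`-th power map on the integers of `U`; the `ξ n` are
iterated preimages under `f` of a uniformiser `ξ 0` of a totally ramified extension of `U`. -/
def Tower (U : IntermediateField ℚ_[p] (PadicAlgCl p)) (f : (PadicAlgCl p)[X])
    (ξ : ℕ → PadicAlgCl p) : Prop :=
  f.Monic ∧ f.coeff 0 = 0 ∧ (∃ h, 0 < h ∧ f.natDegree = p ^ h) ∧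
    (∀ i, f.coeff i ∈ U ∧ (i < f.natDegree → ‖f.coeff i‖ < 1)) ∧
    (∃ σ : PadicAlgCl p ≃ₐ[ℚ_[p]] PadicAlgCl p, (∀ i, σ (f.coeff i) = f.coeff i) ∧
      ∀ u ∈ U, σ u ∈ U ∧ (‖u‖ ≤ 1 → ‖σ u - u ^ f.natDegree‖ < 1)) ∧
    (∀ n, f.eval (ξ (n + 1)) = ξ n) ∧ ξ 0 ≠ 0 ∧ ‖ξ 0‖ < 1 ∧
    ∀ u ∈ U, ‖u‖ < 1 → ‖u‖ ≤ ‖ξ 0‖ ^ (minpoly U (ξ 0)).natDegree

/-- `z` lies in the field generated by `y` over `k`, and its norm from that field to `k` is `w`. -/
def IsNorm (k : Type) {Ω : Type} [Field k] [Field Ω] [Algebra k Ω] (y z w : Ω) : Prop :=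
  ∃ h : z ∈ k⟮y⟯, algebraMap k Ω (Algebra.norm k (⟨z, h⟩ : k⟮y⟯)) = w

/-- A norm-compatible system of nonzero algebraic numbers. -/
def NormSys (U : IntermediateField ℚ_[p] (PadicAlgCl p)) (ξ x : ℕ → PadicAlgCl p) : Prop :=
  ∀ n, x n ∈ Lev U ξ n ∧ x n ≠ 0 ∧ IsAlgebraic ℚ (x n) ∧
    IsNorm (Lev U ξ n) (ξ (n + 1)) (x (n + 1)) (x n)

/-- The rational vectors `v` such that `q ^ n * ∑ k, v k * L (x k n)` is eventually constant. -/
def Deg {d : ℕ} (q : ℕ) (L : PadicAlgCl p → PadicAlgCl p) (x : Fin d → ℕ → PadicAlgCl p) :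
    Set (Fin d → PadicAlgCl p) :=
  {v | (∀ k, ∃ r : ℚ, v k = r) ∧
    ∀ᶠ n in atTop, ∑ k, v k * (q * L (x k (n + 1)) - L (x k n)) = 0}

end Pool.Agent.Work.MP_dd0d16_nt.W
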