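import Pool.Agent.Work.MP_dd0d16_nt.D.Pt
import Pool.Agent.Work.MP_dd0d16_nt.W.Defs
import Pool.Agent.Lib.PRank.Count
import Pool.Agent.Work.MP_dd0d16_nt.T.Mat

-- merged part: Pool.Agent.Work.MP_dd0d16_nt.W.Mink
section
/-!
An orbit of small rational rank is small (Minkowski).

PLAN. `mink_core`: in the ring `R = Module.End ℤ Λ` (a finite torsion-free module) write `g = 1 + 3 ^ a • E` with `1 ≤ a` and `E ∉ 3 • R` if `g ≠ 1`
(use a basis and matrices, or `Ideal.iInf_pow_smul_eq_bot_of_isTorsionFree`-type Krull intersection). `(1 + u) ^ n = 1 + n • u + u ^ 2 * w` (induction), so for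
`n` prime to `3` the power `g ^ n` has the same shape with the same `a`; `(1 + u) ^ 3 = 1 + 3 • u + 3 • u ^ 2 + u ^ 3` has the shape with `a + 1`. Induction on `n`
(`Nat.recOnPosPrimePosCoprime`, or strong induction: `3 ∣ n` or not) shows `g ^ n ≠ 1`. A normed variant: matrices over `ℤ_[3]`.
`mink`: the orbit `O` of `z` is finite (roots of `minpoly ℚ_[p] z`), `Λ = span ℤ O` is finite free of rank `r < ρ` (a maximal independent subfamily of `O` over the
rationals has fewer than `ρ` elements; `exists_linearIndependent`, `LinearIndependent.iff_fractionRing ℤ ℚ`, `finrank_span_le_card`), `H` acts on `Λ`. Send `y = τ z` to the matrix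
modulo `3` of `τ` in a basis of `Λ`. If two matrices agree, `g = τ⁻¹ * τ'` permutes `O`, so `g ^ (card O)! = 1` on `Λ`, and `mink_core` gives `τ z = τ' z`. `B = 3 ^ (ρ * ρ)`.
-/

set_option autoImplicit false

namespace Pool.Agent.Work.MP_dd0d16_nt.W

variable {p : ℕ} [Fact p.Prime]

theorem Mink_ker {Λ : Type} [AddCommGroup Λ] [Module.Free ℤ Λ] (S : Module.End ℤ Λ)
    (h : ∀ v, S v = 0 → ∃ w, v = (3 : ℤ) • w) (v : Λ) (hv : S v = 0) : v = 0 := by
  have h1 : ∀ k : ℕ, ∃ w, S w = 0 ∧ v = (3 : ℤ) ^ k • w := fun k => by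
    induction k with
    | zero => exact ⟨v, hv, by simp⟩
    | succ k ih =>
      obtain ⟨w, h1, h2⟩ := ih
      obtain ⟨u, rfl⟩ := h w h1
      rw [map_smul] at h1
      exact ⟨u, (smul_eq_zero.1 h1).resolve_left (by norm_num), by rw [h2, smul_smul, pow_succ]⟩
  refine (Module.Free.chooseBasis ℤ Λ).ext_elem fun i => ?_
  obtain ⟨w, -, h2⟩ := h1 ((Module.Free.chooseBasis ℤ Λ).repr v i).natAbs
  rw [map_zero, Finsupp.zero_apply]
  refine Int.eq_zero_of_dvd_of_natAbs_lt_natAbs (Dvd.intro _ (by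
    conv_rhs => rw [h2, map_smul, Finsupp.smul_apply, smul_eq_mul])) ?_
  rw [Int.natAbs_pow]
  exact Nat.lt_pow_self (by norm_num)

theorem mink_core {Λ : Type} [AddCommGroup Λ] [Module.Finite ℤ Λ] [Module.Free ℤ Λ]
    {g : Module.End ℤ Λ} {n : ℕ} (hn : n ≠ 0) (hg : g ^ n = 1)
    (h3 : ∀ v, ∃ w, g v = v + (3 : ℤ) • w) : g = 1 := by
  have h1 : ∀ (i : ℕ) v, ∃ w, (g ^ i) v = v + (3 : ℤ) • w := fun i v => by
    induction i with
    | zero => exact ⟨0, by simp⟩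
    | succ i ih =>
      obtain ⟨w, hw⟩ := ih
      obtain ⟨u, hu⟩ := h3 ((g ^ i) v)
      exact ⟨w + u, by rw [pow_succ', Module.End.mul_apply, hu, hw, smul_add, add_assoc]⟩
  have h2 : ∀ (h : Module.End ℤ Λ) (m : ℕ), h ^ m = 1 →
      (∀ v, (∑ i ∈ Finset.range m, h ^ i) v = 0 → ∃ w, v = (3 : ℤ) • w) → h = 1 := fun h m e hh =>
    LinearMap.ext fun v => sub_eq_zero.1 (Mink_ker _ hh _ (by
      rw [← LinearMap.sub_apply, ← Module.End.mul_apply, geom_sum_mul, e, sub_self,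
        LinearMap.zero_apply]))
  induction n using Nat.strong_induction_on with
  | _ n ih =>
    by_cases hd : 3 ∣ n
    · obtain ⟨m, rfl⟩ := hd
      refine ih m (by omega) (by omega) (h2 _ 3 (by rw [← pow_mul, mul_comm, hg]) fun v hv => ?_)
      obtain ⟨w, hw⟩ := h1 m v
      obtain ⟨u, hu⟩ := h1 m w
      simp only [Finset.sum_range_succ, Finset.range_zero, Finset.sum_empty, zero_add, pow_zero,
        pow_one, sq, LinearMap.add_apply, Module.End.mul_apply, Module.End.one_apply, hw, map_add,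
        map_smul, hu] at hv
      refine ⟨-(w + u), sub_eq_zero.1 ((smul_eq_zero (r := (3 : ℤ))).1 ?_ |>.resolve_left
        (by norm_num))⟩
      rw [← hv]
      module
    · refine h2 g n hg fun v hv => ?_
      choose w hw using fun i => h1 i v
      simp only [LinearMap.sum_apply, hw, Finset.sum_add_distrib, Finset.sum_const,
        Finset.card_range, ← Finset.smul_sum] at hv
      obtain ⟨a, b, hab⟩ : IsCoprime (3 : ℤ) n :=
        Nat.isCoprime_iff_coprime.2 ((Nat.Prime.coprime_iff_not_dvd Nat.prime_three).2 hd)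
      refine ⟨a • v - b • ∑ i ∈ Finset.range n, w i, ?_⟩
      rw [← natCast_zsmul] at hv
      linear_combination (norm := module) b • hv - hab • v

theorem mink (ρ : ℕ) : ∃ B : ℕ, ∀ (H : Subgroup (PadicAlgCl p ≃ₐ[ℚ_[p]] PadicAlgCl p))
    (z : PadicAlgCl p), (∀ τ : Fin ρ → PadicAlgCl p ≃ₐ[ℚ_[p]] PadicAlgCl p, (∀ i, τ i ∈ H) →
      ¬ LinearIndependent ℚ fun i => τ i z) →
    ∀ s : Finset (PadicAlgCl p), (∀ y ∈ s, ∃ τ ∈ H, τ z = y) → s.card ≤ B := by
  classical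
  refine ⟨3 ^ (ρ * ρ), fun H z hz s hs => ?_⟩
  have hO : (MulAction.orbit H z).Finite := ((minpoly ℚ_[p] z).rootSet_finite (PadicAlgCl p)).subset (by
    rintro _ ⟨τ, rfl⟩
    exact Polynomial.mem_rootSet.2 ⟨minpoly.ne_zero (Algebra.IsIntegral.isIntegral z),
      minpoly.aeval_algHom ℚ_[p] τ.1.toAlgHom z⟩)
  let Λ := Submodule.span ℤ (MulAction.orbit H z)
  have := Module.Finite.span_of_finite ℤ hO
  have hA : ∀ τ : H, ∀ v ∈ Λ, τ.1 v ∈ Λ := fun τ v hv => by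
    induction hv using Submodule.span_induction with
    | mem y hy => exact Submodule.subset_span (MulAction.mapsTo_smul_orbit τ z hy)
    | zero => simp
    | add y u _ _ h1 h2 => rw [map_add]; exact add_mem h1 h2
    | smul a y _ h1 => rw [map_zsmul]; exact Submodule.smul_mem _ a h1
  let A : H →* Module.End ℤ Λ :=
    { toFun := fun τ => (τ.1 : PadicAlgCl p →+ PadicAlgCl p).toIntLinearMap.restrict (hA τ)
      map_one' := rfl
      map_mul' := fun _ _ => rfl }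
  have hA' : ∀ (τ : H) (v : Λ), (A τ v : PadicAlgCl p) = τ.1 v := fun _ _ => rfl
  let c := Module.finBasis ℤ Λ
  have hr : Module.finrank ℤ Λ ≤ ρ := by
    obtain ⟨b, b1, b2, b3⟩ := exists_linearIndependent ℚ (MulAction.orbit H z)
    have := (hO.subset b1).fintype
    have h1 := linearIndependent_le_span_aux' _ ((LinearIndependent.iff_fractionRing ℤ ℚ).1
      (c.linearIndependent.map' Λ.subtype Λ.ker_subtype)) b (by
        rintro _ ⟨i, rfl⟩
        rw [b2]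
        exact Submodule.span_subset_span ℤ ℚ _ (c i).2)
    rw [Fintype.card_fin] at h1
    refine h1.trans (not_lt.1 fun h => ?_)
    obtain ⟨e⟩ := Function.Embedding.nonempty_of_card_le ((Fintype.card_fin ρ).trans_le h.le)
    choose τ hτ using fun i => b1 (e i).2
    refine hz (fun i => τ i) (fun i => (τ i).2) ?_
    rw [show (fun i => (τ i).1 z) = Subtype.val ∘ e from funext hτ]
    exact b3.comp e e.injective
  choose τ h1 h2 using fun y : s => hs y y.2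
  have h3 := Fintype.card_le_of_injective
    (fun (y : s) i j => ((c.repr (A ⟨τ y, h1 y⟩ (c i)) j : ℤ) : ZMod 3)) fun y y' h => by
    have := hO.to_subtype
    obtain ⟨n, hn, h4⟩ := (isOfFinOrder_of_finite (MulAction.toPermHom H (MulAction.orbit H z)
      ((⟨τ y', h1 y'⟩ : H)⁻¹ * ⟨τ y, h1 y⟩))).exists_pow_eq_one
    rw [← map_pow] at h4
    have h5 := mink_core (g := A ((⟨τ y', h1 y'⟩ : H)⁻¹ * ⟨τ y, h1 y⟩)) hn.ne' (by
      rw [← map_pow]
      exact LinearMap.ext fun v => Subtype.ext (LinearMap.eqOn_span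
        (f := (((((⟨τ y', h1 y'⟩ : H)⁻¹ * (⟨τ y, h1 y⟩ : H)) ^ n : H).1 :
          PadicAlgCl p →+ PadicAlgCl p).toIntLinearMap)) (g := LinearMap.id) (fun u hu =>
          congrArg Subtype.val (Equiv.congr_fun h4 ⟨u, hu⟩)) v.2)) fun v => by
      choose w hw using fun i j => (ZMod.intCast_eq_intCast_iff_dvd_sub _ _ 3).1
        (congrFun (congrFun h.symm i) j)
      refine ⟨A (⟨τ y', h1 y'⟩ : H)⁻¹ (∑ i, c.repr v i • ∑ j, w i j • c j), ?_⟩
      have h6 : A ⟨τ y, h1 y⟩ v = A ⟨τ y', h1 y'⟩ v + (3 : ℤ) • ∑ i, c.repr v i • ∑ j, w i j • c j := by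
        conv_lhs => rw [← c.sum_repr v]
        conv_rhs => enter [1]; rw [← c.sum_repr v]
        rw [map_sum, map_sum, Finset.smul_sum, ← Finset.sum_add_distrib]
        refine Finset.sum_congr rfl fun i _ => ?_
        rw [map_smul, map_smul, smul_comm (3 : ℤ), ← smul_add]
        refine congrArg _ ?_
        rw [← c.sum_repr (A ⟨τ y, h1 y⟩ (c i)),
          ← c.sum_repr (A ⟨τ y', h1 y'⟩ (c i)), Finset.smul_sum, ← Finset.sum_add_distrib]
        exact Finset.sum_congr rfl fun j _ => by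
          rw [smul_smul, ← add_smul, eq_add_of_sub_eq' (hw i j)]
          rfl
      rw [map_mul, Module.End.mul_apply, h6, map_add, map_smul, ← Module.End.mul_apply, ← map_mul,
        inv_mul_cancel, map_one, Module.End.one_apply]
    have h6 := congrArg (fun g : Module.End ℤ Λ => (A ⟨τ y', h1 y'⟩ (g ⟨z, Submodule.subset_span
      (MulAction.mem_orbit_self z)⟩) : PadicAlgCl p)) h5
    simp only [← Module.End.mul_apply, ← map_mul, mul_inv_cancel_left, mul_one, hA', h2] at h6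
    exact Subtype.ext h6
  simp only [Fintype.card_coe, Fintype.card_fun, ZMod.card, Fintype.card_fin, ← pow_mul] at h3
  exact h3.trans (Nat.pow_le_pow_right (by norm_num) (Nat.mul_le_mul hr hr))

end Pool.Agent.Work.MP_dd0d16_nt.W
end

-- merged part: Pool.Agent.Work.MP_dd0d16_nt.W.Apx
section
-- merged part: Pool.Agent.Work.MP_dd0d16_nt.W.LDefs
section
/-!
Internal definitions of phase W (overview: team-store file h5_dd0d16_W.md).
-/

set_option autoImplicit false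

namespace Pool.Agent.Work.MP_dd0d16_nt.W

open Polynomial Finset

/-- automorphisms over the `p`-adic numbers -/
abbrev Aut (p : ℕ) [Fact p.Prime] := PadicAlgCl p ≃ₐ[ℚ_[p]] PadicAlgCl p

/-- the data of a tower -/
structure Tw (p : ℕ) [Fact p.Prime] where
  /-- the base field -/
  U : IntermediateField ℚ_[p] (PadicAlgCl p)
  /-- the lift of Frobenius -/
  f : (PadicAlgCl p)[X]
  /-- the uniformisers -/
  ξ : ℕ → PadicAlgCl p
  /-- the Frobenius automorphism -/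
  σ : Aut p
  /-- the height -/
  h : ℕ
  /-- the degree of level zero -/
  e : ℕ
  /-- a uniformiser of the base field -/
  ϖ : PadicAlgCl p
  mon : f.Monic
  c0 : f.coeff 0 = 0
  hpos : 0 < h
  deg : f.natDegree = p ^ h
  mem : ∀ i, f.coeff i ∈ U
  sm : ∀ i, i < p ^ h → ‖f.coeff i‖ < 1
  fix : f.map (σ : PadicAlgCl p →+* PadicAlgCl p) = f
  stab : ∀ u ∈ U, σ u ∈ U
  frob : ∀ u ∈ U, ‖u‖ ≤ 1 → ‖σ u - u ^ p ^ h‖ < 1
  step : ∀ n, f.eval (ξ (n + 1)) = ξ n
  edef : (minpoly U (ξ 0)).natDegree = e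
  pmem : ϖ ∈ U
  pne : ϖ ≠ 0
  plt : ‖ϖ‖ < 1
  nrm0 : ‖ξ 0‖ ^ e = ‖ϖ‖
  disc : ∀ u ∈ U, ‖u‖ < 1 → ‖u‖ ≤ ‖ϖ‖

variable {p : ℕ} [Fact p.Prime]

/-- the action of `σ ^ n` on the coefficients -/
noncomputable def tw (σ : Aut p) (n : ℕ) (G : (PadicAlgCl p)[X]) : (PadicAlgCl p)[X] :=
  G.map ((σ ^ n : Aut p) : PadicAlgCl p →+* PadicAlgCl p)

namespace Tw

variable (t : Tw p)

/-- the degree of `f` -/
def q : ℕ := p ^ t.h

/-- the levels -/
noncomputable def K (n : ℕ) : IntermediateField ℚ_[p] (PadicAlgCl p) := Lev t.U t.ξ n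

/-- the iterates of `f` -/
noncomputable def it (k : ℕ) : (PadicAlgCl p)[X] := t.f.comp^[k] X

/-- polynomials with integral coefficients in the base field -/
def IP (G : (PadicAlgCl p)[X]) : Prop := ∀ i, G.coeff i ∈ t.U ∧ ‖G.coeff i‖ ≤ 1

/-- congruence modulo `ϖ ^ r` -/
def Cl (r : ℕ) (F G : (PadicAlgCl p)[X]) : Prop := ∀ i, ‖F.coeff i - G.coeff i‖ ≤ ‖t.ϖ‖ ^ r

/-- `τ` fixes level `m` -/
def Fx (m : ℕ) (τ : Aut p) : Prop := ∀ z ∈ t.K m, τ z = z

/-- `τ` is a full family of conjugations of level `n + 1` over level `n` -/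
def Cjs (n : ℕ) (τ : Fin t.q → Aut p) : Prop :=
  (∀ i, t.Fx n (τ i)) ∧ (Function.Injective fun i => τ i (t.ξ (n + 1))) ∧
    t.f - C (t.ξ n) = ∏ i, (X - C (τ i (t.ξ (n + 1))))

/-- a chosen full family of conjugations -/
noncomputable def cj (n : ℕ) : Fin t.q → Aut p := Classical.epsilon (t.Cjs n)

/-- the trace from level `n + 1` to level `n` -/
noncomputable def tr (n : ℕ) (z : PadicAlgCl p) : PadicAlgCl p := ∑ i, t.cj n i z

/-- norm-compatible systems, through conjugates -/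
def NS (x : ℕ → PadicAlgCl p) : Prop :=
  ∀ n, x n ∈ t.K n ∧ x n ≠ 0 ∧ ∏ i, t.cj n i (x (n + 1)) = x n

/-- the new part of the logarithm -/
noncomputable def Yl (L : PadicAlgCl p → PadicAlgCl p) (x : ℕ → PadicAlgCl p) (j : ℕ) :
    PadicAlgCl p :=
  t.q * L (x (j + 1)) - L (x j)

/-- the part of `q ^ k * L (x (m + k))` above level `m` -/
noncomputable def Zl (L : PadicAlgCl p → PadicAlgCl p) (x : ℕ → PadicAlgCl p) (m k : ℕ) :
    PadicAlgCl p :=
  ∑ j ∈ range k, (t.q : PadicAlgCl p) ^ j * t.Yl L x (m + j)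

/-- `β` are the components of `y` over level `m` -/
def Dec (m k : ℕ) (y : PadicAlgCl p) (β : ℕ → PadicAlgCl p) : Prop :=
  (∀ b, β b ∈ t.K m) ∧ y = ∑ b ∈ range (t.q ^ k), β b * t.ξ (m + k) ^ b

/-- the sequence `g` is approximated by the values of one polynomial -/
def Apx (m1 a : ℕ) (g : ℕ → PadicAlgCl p) : Prop :=
  (∀ m, m1 ≤ m → ‖g m‖ ≤ 1) ∧ ∀ N r : ℕ, ∃ G, t.IP G ∧ ∀ m, m1 ≤ m → m ≤ N →
    ‖t.ξ m ^ (r * a) * g m - (tw t.σ (N - m) G).eval (t.ξ m)‖ ≤ ‖t.ϖ‖ ^ r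

/-- the new parts are integral and their components are approximable -/
def Good (L : PadicAlgCl p → PadicAlgCl p) (x : ℕ → PadicAlgCl p) (m1 a : ℕ) : Prop :=
  (∀ j, m1 ≤ j → ‖t.Yl L x j‖ ≤ 1) ∧ ∀ (k : ℕ) (β : ℕ → ℕ → PadicAlgCl p),
    (∀ m, t.Dec m (k + 1) (t.Yl L x (m + k)) (β m)) → ∀ b, b < t.q ^ (k + 1) →
      t.Apx m1 a fun m => β m b

/-- the Frobenius congruence modulo `p` after raising to the power `p ^ a` -/
def PF (a : ℕ) : Prop :=
  ∀ F, t.IP F → ∃ H, t.IP H ∧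
    F ^ (t.q * p ^ a) = ((tw t.σ 1 F).comp t.f) ^ p ^ a + C (p : PadicAlgCl p) * H

/-- no rational combination of the new parts vanishes eventually -/
def Ind {d : ℕ} (L : PadicAlgCl p → PadicAlgCl p) (x : Fin d → ℕ → PadicAlgCl p) : Prop :=
  ∀ a : Fin d → ℚ, (∀ᶠ n in Filter.atTop, ∑ k, (a k : PadicAlgCl p) * t.Yl L (x k) n = 0) → a = 0

/-- quantitative linear independence of the new parts -/
def Lin {d : ℕ} (L : PadicAlgCl p → PadicAlgCl p) (x : Fin d → ℕ → PadicAlgCl p) : Prop :=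
  ∃ (k n0 : ℕ) (c0 : ℝ), 0 < c0 ∧ ∀ m, n0 ≤ m → ∀ w : Fin d → PadicAlgCl p,
    (∀ i, w i ∈ t.K m) → ∀ i, c0 * ‖w i‖ ≤ ‖∑ l, w l * t.Yl L (x l) (m + k)‖

end Tw

end Pool.Agent.Work.MP_dd0d16_nt.W
end

-- merged part: Pool.Agent.Work.MP_dd0d16_nt.W.Gau
section
/-!
Powers, coefficients, conjugates.

PLAN. `mem_of_fix`: `InfiniteGalois.fixedField_fixingSubgroup` as in `T.unr_stab`.
`pow_close`: for `‖u‖, ‖v‖ ≤ 1` one has `‖u ^ p - v ^ p‖ ≤ max (‖u - v‖ ^ p) (p⁻¹ * ‖u - v‖) ≤ max ρ p⁻¹ * ‖u - v‖` (`add_pow_prime_eq` or `exists_add_pow_prime_eq` for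
`u = v + (u - v)` in the ring `T.Ram_B p`); iterate. `frob_sub`: `(u - v) ^ p ^ h` is within `p⁻¹` of `u ^ p ^ h - v ^ p ^ h` (`exists_add_pow_prime_pow_eq`).
`coeff_lt`: take `N > natDegree G` prime to `p` (`N = p * n + 1`) and a primitive `N`-th root `ζ`; `N * coeff i = ∑ j < N, G (ζ ^ j) * (ζ ^ j)⁻¹ ^ i` for `i < N`
(`IsPrimitiveRoot.geom_sum_eq_zero`-type orthogonality), `T.Ram_nat`; `0 < B` since `‖G 0‖ < B`.
`exists_conj`: `minpoly.exists_algEquiv_of_root'` over the field `F`, `restrictScalars`. `norm_coeff_zero`: the minimal polynomial splits, all roots have the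
norm of `y` (`exists_conj`, `T.norm_aut`), the constant coefficient is their product up to sign (`Splits.coeff_zero_eq_prod_roots_of_monic`).
-/

set_option autoImplicit false

namespace Pool.Agent.Work.MP_dd0d16_nt.W

open Polynomial Finset

variable {p : ℕ} [Fact p.Prime]

theorem mem_of_fix {F : IntermediateField ℚ_[p] (PadicAlgCl p)} {z : PadicAlgCl p}
    (h : ∀ τ : PadicAlgCl p ≃ₐ[ℚ_[p]] PadicAlgCl p, (∀ u ∈ F, τ u = u) → τ z = z) : z ∈ F := by
  rw [← InfiniteGalois.fixedField_fixingSubgroup F, IntermediateField.mem_fixedField_iff]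
  intro τ hτ
  exact h τ ((IntermediateField.mem_fixingSubgroup_iff F τ).1 hτ)

theorem Gau_add {u v : PadicAlgCl p} (hu : ‖u‖ ≤ 1) (hv : ‖v‖ ≤ 1) (h : ℕ) :
    ‖(u + v) ^ p ^ h - (u ^ p ^ h + v ^ p ^ h)‖ ≤ (p : ℝ)⁻¹ * ‖u‖ := by
  obtain ⟨r, hr⟩ :=
    exists_add_pow_prime_pow_eq (Fact.out : p.Prime) (⟨u, hu⟩ : T.Ram_B p) ⟨v, hv⟩ h
  have e := congrArg (T.Ram_B p).subtype hr
  simp only [map_add, map_pow, map_mul, map_natCast, Subring.subtype_apply] at e
  rw [e, add_sub_cancel_left, mul_assoc, norm_mul, norm_mul, norm_p_eq]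
  exact mul_le_of_le_one_right (mul_nonneg T.Ram_inv_pos.le (norm_nonneg _))
    ((T.Ram_B p).mul_mem hv r.2)

theorem Gau_step {ρ : ℝ} {u v : PadicAlgCl p} (hu : ‖u‖ ≤ 1) (hv : ‖v‖ ≤ 1) (h : ‖u - v‖ ≤ ρ) :
    ‖u ^ p - v ^ p‖ ≤ max ρ (p : ℝ)⁻¹ * ‖u - v‖ := by
  have h1 : ‖u - v‖ ≤ 1 := (T.Ram_B p).sub_mem hu hv
  have h2 := Gau_add h1 hv 1
  rw [pow_one, sub_add_cancel] at h2
  have e : u ^ p - v ^ p = (u ^ p - ((u - v) ^ p + v ^ p)) + (u - v) ^ p := by ring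
  rw [e]
  refine (IsUltrametricDist.norm_add_le_max _ _).trans (max_le ?_ ?_)
  · exact h2.trans (mul_le_mul_of_nonneg_right (le_max_right _ _) (norm_nonneg _))
  · rw [norm_pow]
    refine (pow_le_pow_of_le_one (norm_nonneg _) h1 (Fact.out : p.Prime).two_le).trans ?_
    rw [sq]
    exact mul_le_mul_of_nonneg_right (h.trans (le_max_left _ _)) (norm_nonneg _)

theorem pow_close {ρ ε : ℝ} (hρ : ρ < 1) (hε : 0 < ε) : ∃ s : ℕ, ∀ u v : PadicAlgCl p, ‖u‖ ≤ 1 →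
    ‖v‖ ≤ 1 → ‖u - v‖ ≤ ρ → ‖u ^ p ^ s - v ^ p ^ s‖ ≤ ε := by
  have q0 : 0 < max ρ (p : ℝ)⁻¹ := T.Ram_inv_pos.trans_le (le_max_right _ _)
  have q1 : max ρ (p : ℝ)⁻¹ < 1 := max_lt hρ T.Ram_inv_lt
  obtain ⟨s, hs⟩ := exists_pow_lt_of_lt_one hε q1
  refine ⟨s, fun u v hu hv h => ?_⟩
  have H : ∀ n : ℕ, ‖u ^ p ^ n - v ^ p ^ n‖ ≤ (max ρ (p : ℝ)⁻¹) ^ n * ‖u - v‖ := by
    intro n
    induction n with
    | zero => simp
    | succ n ih =>
      have a1 : ‖u ^ p ^ n - v ^ p ^ n‖ ≤ ρ :=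
        ih.trans ((mul_le_of_le_one_left (norm_nonneg _) (pow_le_one₀ q0.le q1.le)).trans h)
      have a2 := Gau_step (u := u ^ p ^ n) (v := v ^ p ^ n) ((T.Ram_B p).pow_mem hu _)
        ((T.Ram_B p).pow_mem hv _) a1
      rw [← pow_mul, ← pow_mul, ← pow_succ] at a2
      refine a2.trans ((mul_le_mul_of_nonneg_left ih q0.le).trans_eq ?_)
      rw [pow_succ', mul_assoc]
  exact (H s).trans ((mul_le_of_le_one_right (pow_nonneg q0.le _) (h.trans hρ.le)).trans hs.le)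

theorem frob_sub {u v : PadicAlgCl p} (hu : ‖u‖ ≤ 1) (hv : ‖v‖ ≤ 1) (h : ℕ) :
    ‖(u - v) ^ p ^ h - (u ^ p ^ h - v ^ p ^ h)‖ ≤ (p : ℝ)⁻¹ := by
  have h1 : ‖u - v‖ ≤ 1 := (T.Ram_B p).sub_mem hu hv
  have h2 := Gau_add h1 hv h
  rw [sub_add_cancel] at h2
  have e : (u - v) ^ p ^ h - (u ^ p ^ h - v ^ p ^ h) =
      -(u ^ p ^ h - ((u - v) ^ p ^ h + v ^ p ^ h)) := by ring
  rw [e, norm_neg]
  exact h2.trans (mul_le_of_le_one_right T.Ram_inv_pos.le h1)

theorem frob_sum {I : Type} (s : Finset I) {u : I → PadicAlgCl p} (hu : ∀ i ∈ s, ‖u i‖ ≤ 1) (h : ℕ) :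
    ‖(∑ i ∈ s, u i) ^ p ^ h - ∑ i ∈ s, u i ^ p ^ h‖ ≤ (p : ℝ)⁻¹ := by
  classical
  induction s using Finset.induction_on with
  | empty =>
    rw [sum_empty, sum_empty, zero_pow (pow_ne_zero _ (Fact.out : p.Prime).ne_zero), sub_zero,
      norm_zero]
    exact T.Ram_inv_pos.le
  | insert a s ha ih =>
    rw [sum_insert ha, sum_insert ha]
    have h1 := hu a (mem_insert_self _ _)
    have h2 : ∀ i ∈ s, ‖u i‖ ≤ 1 := fun i hi => hu i (mem_insert_of_mem hi)
    have h3 := Gau_add h1 ((T.Ram_B p).sum_mem h2) h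
    have e : (u a + ∑ i ∈ s, u i) ^ p ^ h - (u a ^ p ^ h + ∑ i ∈ s, u i ^ p ^ h) =
        ((u a + ∑ i ∈ s, u i) ^ p ^ h - (u a ^ p ^ h + (∑ i ∈ s, u i) ^ p ^ h)) +
          ((∑ i ∈ s, u i) ^ p ^ h - ∑ i ∈ s, u i ^ p ^ h) := by ring
    rw [e]
    exact (IsUltrametricDist.norm_add_le_max _ _).trans
      (max_le (h3.trans (mul_le_of_le_one_right T.Ram_inv_pos.le h1)) (ih h2))

theorem Gau_orth {K : Type} [Field K] {N : ℕ} {ζ : K} (hζ : IsPrimitiveRoot ζ N) (G : K[X])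
    (hG : G.natDegree < N) {i : ℕ} (hi : i < N) :
    ∑ j ∈ range N, G.eval (ζ ^ j) * ((ζ ^ i)⁻¹) ^ j = G.coeff i * N := by
  have h0 : ζ ^ i ≠ 0 := pow_ne_zero _ (hζ.ne_zero (by omega))
  have e : ∀ j ∈ range N, G.eval (ζ ^ j) * ((ζ ^ i)⁻¹) ^ j =
      ∑ k ∈ range N, G.coeff k * (ζ ^ k * (ζ ^ i)⁻¹) ^ j := by
    intro j _
    rw [eval_eq_sum_range' hG, sum_mul]
    refine sum_congr rfl fun k _ => ?_
    rw [mul_pow, pow_right_comm, mul_assoc]
  rw [sum_congr rfl e, sum_comm, sum_eq_single_of_mem i (mem_range.2 hi)]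
  · rw [← mul_sum, mul_inv_cancel₀ h0]; simp
  · intro k hk hki
    have h1 : ζ ^ k * (ζ ^ i)⁻¹ ≠ 1 := fun h =>
      hki (hζ.pow_inj (mem_range.1 hk) hi ((mul_inv_eq_one₀ h0).1 h))
    rw [← mul_sum, geom_sum_eq h1, mul_pow, inv_pow, pow_right_comm, pow_right_comm ζ i,
      hζ.pow_eq_one]
    simp

theorem Gau_coeff (G : (PadicAlgCl p)[X]) (i : ℕ) :
    ∃ z : PadicAlgCl p, ‖z‖ ≤ 1 ∧ ‖G.coeff i‖ ≤ ‖G.eval z‖ := by
  rcases lt_or_ge G.natDegree i with hi | hi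
  · exact ⟨0, by simp, by rw [coeff_eq_zero_of_natDegree_lt hi, norm_zero]; exact norm_nonneg _⟩
  have hp := (Fact.out : p.Prime)
  have hN : ¬ p ∣ p * G.natDegree + 1 := fun h =>
    hp.one_lt.ne' (Nat.dvd_one.1 ((Nat.dvd_add_right (dvd_mul_right _ _)).1 h))
  have hG : G.natDegree < p * G.natDegree + 1 :=
    Nat.lt_succ_of_le (Nat.le_mul_of_pos_left _ hp.pos)
  have : NeZero ((p * G.natDegree + 1 : ℕ) : PadicAlgCl p) :=
    ⟨Nat.cast_ne_zero.2 (Nat.succ_ne_zero _)⟩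
  obtain ⟨ζ, hζ⟩ := HasEnoughRootsOfUnity.exists_primitiveRoot (PadicAlgCl p) (p * G.natDegree + 1)
  have h1 : ‖ζ‖ = 1 := T.Ram_root_norm ⟨_, hN, hζ.pow_eq_one⟩
  obtain ⟨j, -, hj⟩ := IsUltrametricDist.exists_norm_finsetSum_le_of_nonempty
    (t := range (p * G.natDegree + 1)) nonempty_range_add_one
    (fun j => G.eval (ζ ^ j) * ((ζ ^ i)⁻¹) ^ j)
  rw [Gau_orth hζ G hG (hi.trans_lt hG), norm_mul, T.Ram_nat hN, mul_one, norm_mul, norm_pow,
    norm_inv, norm_pow, h1] at hj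
  exact ⟨ζ ^ j, by rw [norm_pow, h1, one_pow], by simpa using hj⟩

theorem coeff_lt {G : (PadicAlgCl p)[X]} {B : ℝ} (h : ∀ z : PadicAlgCl p, ‖z‖ ≤ 1 → ‖G.eval z‖ < B)
    (i : ℕ) : ‖G.coeff i‖ < B := by
  obtain ⟨z, h1, h2⟩ := Gau_coeff G i
  exact h2.trans_lt (h z h1)

theorem coeff_le {G : (PadicAlgCl p)[X]} {B : ℝ} (h : ∀ z : PadicAlgCl p, ‖z‖ ≤ 1 → ‖G.eval z‖ ≤ B)
    (i : ℕ) : ‖G.coeff i‖ ≤ B := by
  obtain ⟨z, h1, h2⟩ := Gau_coeff G i
  exact h2.trans (h z h1)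

theorem exists_conj (F : IntermediateField ℚ_[p] (PadicAlgCl p)) {y z : PadicAlgCl p}
    (h : aeval z (minpoly F y) = 0) :
    ∃ τ : PadicAlgCl p ≃ₐ[ℚ_[p]] PadicAlgCl p, (∀ u ∈ F, τ u = u) ∧ τ y = z := by
  obtain ⟨σ, hσ⟩ := minpoly.exists_algEquiv_of_root' (Algebra.IsAlgebraic.isAlgebraic (R := F) y) h
  exact ⟨σ.restrictScalars ℚ_[p], fun u hu => σ.commutes ⟨u, hu⟩, hσ⟩

theorem norm_coeff_zero (F : IntermediateField ℚ_[p] (PadicAlgCl p)) (y : PadicAlgCl p) :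
    ‖(((minpoly F y).coeff 0 : F) : PadicAlgCl p)‖ = ‖y‖ ^ (minpoly F y).natDegree := by
  have hm : (minpoly F y).Monic := minpoly.monic (Algebra.IsIntegral.isIntegral y)
  have hs : ((minpoly F y).map (algebraMap F (PadicAlgCl p))).Splits := IsAlgClosed.splits _
  have h1 := hs.coeff_zero_eq_prod_roots_of_monic (hm.map _)
  have h2 := hs.natDegree_eq_card_roots
  rw [hm.natDegree_map] at h2
  rw [coeff_map] at h1
  have h3 : ∀ t : Multiset (PadicAlgCl p), (∀ z ∈ t, ‖z‖ = ‖y‖) → ‖t.prod‖ = ‖y‖ ^ t.card := by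
    intro t
    induction t using Multiset.induction_on with
    | empty => simp
    | cons a t ih =>
      intro ht
      rw [Multiset.prod_cons, Multiset.card_cons, norm_mul, ht a (Multiset.mem_cons_self _ _),
        ih fun z hz => ht z (Multiset.mem_cons_of_mem hz), pow_succ']
  refine (congrArg norm h1).trans ?_
  rw [norm_mul, norm_pow, norm_neg, norm_one, one_pow, one_mul, h2]
  refine h3 _ fun z hz => ?_
  obtain ⟨τ, -, rfl⟩ := exists_conj F (y := y) (z := z) (by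
    rw [aeval_def, ← eval_map]; exact (mem_roots (hm.map _).ne_zero).1 hz)
  exact T.norm_aut τ y

end Pool.Agent.Work.MP_dd0d16_nt.W
end

-- merged part: Pool.Agent.Work.MP_dd0d16_nt.W.IPol
section
/-!
Polynomials with integral coefficients in the base field.

PLAN. The elements of `U` of norm `≤ 1` form a subring `O`; `IP G` says `G ∈ lifts O.subtype` (`Polynomial.lifts_iff_coeff_lifts`), and the lifts form a subring that is
stable under `comp`, `derivative`, `divX`, and `/ₘ`, `%ₘ` by a monic lift (`lifts_and_natDegree_eq_and_monic`, `map_divByMonic`, `map_modByMonic`). Direct coefficient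
proofs (`coeff_mul`, `IsUltrametricDist.norm_sum_le_of_forall_le`) work as well. `eval_sub`: `z - w` divides `z ^ i - w ^ i` in the ring of elements of norm `≤ 1` (`T.Ram_B p`,
`sub_dvd_pow_sub_pow`). `IP.div`: the coefficients of `F - G` divided by `u`. `split`: strong induction on `natDegree G`: `G = G %ₘ g + g * (G /ₘ g)`,
`Gb b = C ((G %ₘ g).coeff b) + X * Gb' b`. `taylor2`: `Polynomial.binomExpansion` over `T.Ram_B p`, or term by term.
-/

set_option autoImplicit false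

namespace Pool.Agent.Work.MP_dd0d16_nt.W.Tw

open Polynomial Finset Filter

variable {p : ℕ} [Fact p.Prime] {t : Tw p}

variable {F G : (PadicAlgCl p)[X]}

theorem IP.lift (hF : t.IP F) : ∃ Q : (t.U.toSubring ⊓ T.Ram_B p : Subring (PadicAlgCl p))[X],
    Q.map (Subring.subtype _) = F :=
  (mem_lifts F).1 ((lifts_iff_coeff_lifts _).2 fun i => ⟨⟨F.coeff i, hF i⟩, rfl⟩)

theorem IPol_of (Q : (t.U.toSubring ⊓ T.Ram_B p : Subring (PadicAlgCl p))[X])
    (h : Q.map (Subring.subtype _) = F) : t.IP F := fun i => by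
  rw [← h, coeff_map]
  exact (Q.coeff i).2

theorem IPol_le {B : ℝ} (h : ∀ i, ‖F.coeff i‖ ≤ B) (hB : 0 ≤ B) {z : PadicAlgCl p} (hz : ‖z‖ ≤ 1) :
    ‖F.eval z‖ ≤ B := by
  rw [eval_eq_sum_range]
  refine IsUltrametricDist.norm_sum_le_of_forall_le_of_nonneg hB fun i _ => ?_
  rw [norm_mul, norm_pow]
  exact (mul_le_of_le_one_right (norm_nonneg _) (pow_le_one₀ (norm_nonneg _) hz)).trans (h i)

theorem IP.C {a : PadicAlgCl p} (h1 : a ∈ t.U) (h2 : ‖a‖ ≤ 1) : t.IP (C a) := by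
  exact IPol_of (Polynomial.C ⟨a, h1, h2⟩) (map_C _)

theorem IP.X : t.IP X := by
  exact IPol_of Polynomial.X (map_X _)

theorem IP.zero : t.IP 0 := by
  exact IPol_of 0 (Polynomial.map_zero _)

theorem IP.one : t.IP 1 := by
  exact IPol_of 1 (Polynomial.map_one _)

theorem IP.add (hF : t.IP F) (hG : t.IP G) : t.IP (F + G) := by
  obtain ⟨F, rfl⟩ := hF.lift
  obtain ⟨G, rfl⟩ := hG.lift
  exact IPol_of _ (Polynomial.map_add _)

theorem IP.neg (hF : t.IP F) : t.IP (-F) := by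
  obtain ⟨F, rfl⟩ := hF.lift
  exact IPol_of _ (Polynomial.map_neg _)

theorem IP.sub (hF : t.IP F) (hG : t.IP G) : t.IP (F - G) := by
  exact sub_eq_add_neg F G ▸ hF.add hG.neg

theorem IP.mul (hF : t.IP F) (hG : t.IP G) : t.IP (F * G) := by
  obtain ⟨F, rfl⟩ := hF.lift
  obtain ⟨G, rfl⟩ := hG.lift
  exact IPol_of _ (Polynomial.map_mul _)

theorem IP.pow (hF : t.IP F) (n : ℕ) : t.IP (F ^ n) := by
  obtain ⟨F, rfl⟩ := hF.lift
  exact IPol_of _ (Polynomial.map_pow _ _)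

theorem IP.sum {I : Type} (s : Finset I) {F : I → (PadicAlgCl p)[X]} (hF : ∀ i ∈ s, t.IP (F i)) :
    t.IP (∑ i ∈ s, F i) := by
  exact Finset.sum_induction F t.IP (fun _ _ => IP.add) IP.zero hF

theorem IP.comp (hF : t.IP F) (hG : t.IP G) : t.IP (F.comp G) := by
  obtain ⟨F, rfl⟩ := hF.lift
  obtain ⟨G, rfl⟩ := hG.lift
  exact IPol_of _ (map_comp _ _ _)

theorem IP.der (hF : t.IP F) : t.IP (derivative F) := by
  obtain ⟨F, rfl⟩ := hF.lift
  exact IPol_of _ (derivative_map _ _).symm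

theorem IP.divX (hF : t.IP F) : t.IP F.divX := by
  exact fun i => coeff_divX (p := F) ▸ hF (i + 1)

theorem IP.divM (hF : t.IP F) (hG : t.IP G) (hm : G.Monic) : t.IP (F /ₘ G) := by
  obtain ⟨F, rfl⟩ := hF.lift
  obtain ⟨G, rfl⟩ := hG.lift
  exact IPol_of _ (map_divByMonic _ (monic_of_injective Subtype.val_injective hm))

theorem IP.modM (hF : t.IP F) (hG : t.IP G) (hm : G.Monic) : t.IP (F %ₘ G) := by
  obtain ⟨F, rfl⟩ := hF.lift
  obtain ⟨G, rfl⟩ := hG.lift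
  exact IPol_of _ (map_modByMonic _ (monic_of_injective Subtype.val_injective hm))

theorem stab_pow (t : Tw p) (n : ℕ) {u : PadicAlgCl p} (hu : u ∈ t.U) : (t.σ ^ n) u ∈ t.U := by
  induction n with
  | zero => exact hu
  | succ n ih =>
    rw [pow_succ']
    exact t.stab _ ih

theorem IP.tw (hF : t.IP F) (n : ℕ) : t.IP (tw t.σ n F) := by
  intro i
  rw [W.tw, coeff_map]
  exact ⟨t.stab_pow n (hF i).1, (T.norm_aut _ _).trans_le (hF i).2⟩

theorem IP.div {u : PadicAlgCl p} (hF : t.IP F) (hG : t.IP G) (hu : u ∈ t.U) (h0 : u ≠ 0)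
    (h : ∀ i, ‖F.coeff i - G.coeff i‖ ≤ ‖u‖) : ∃ H, t.IP H ∧ F = G + Polynomial.C u * H := by
  refine ⟨Polynomial.C u⁻¹ * (F - G), fun i => ?_, by
    rw [← mul_assoc, ← C_mul, mul_inv_cancel₀ h0, C_1, one_mul, add_sub_cancel]⟩
  rw [coeff_C_mul, coeff_sub, norm_mul, norm_inv, inv_mul_le_iff₀ (norm_pos_iff.2 h0), mul_one]
  exact ⟨mul_mem (inv_mem hu) (sub_mem (hF i).1 (hG i).1), h i⟩

theorem IP.eval_le (hF : t.IP F) {z : PadicAlgCl p} (hz : ‖z‖ ≤ 1) : ‖F.eval z‖ ≤ 1 := by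
  exact IPol_le (fun i => (hF i).2) zero_le_one hz

theorem IP.eval_sub (hF : t.IP F) {z w : PadicAlgCl p} (hz : ‖z‖ ≤ 1) (hw : ‖w‖ ≤ 1) :
    ‖F.eval z - F.eval w‖ ≤ ‖z - w‖ := by
  rw [eval_eq_sum_range, eval_eq_sum_range, ← sum_sub_distrib]
  refine IsUltrametricDist.norm_sum_le_of_forall_le_of_nonneg (norm_nonneg _) fun i _ => ?_
  obtain ⟨c, hc⟩ := sub_dvd_pow_sub_pow (⟨z, hz⟩ : T.Ram_B p) ⟨w, hw⟩ i
  rw [← mul_sub, show z ^ i - w ^ i = (z - w) * c from congrArg Subtype.val hc, norm_mul, norm_mul]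
  exact (mul_le_of_le_one_left (by positivity) (hF i).2).trans
    (mul_le_of_le_one_right (norm_nonneg _) c.2)

theorem IP.map_fix (hF : t.IP F) {τ : Aut p} (hτ : ∀ u ∈ t.U, τ u = u) (z : PadicAlgCl p) :
    τ (F.eval z) = F.eval (τ z) := by
  rw [eval_eq_sum_range, eval_eq_sum_range, map_sum]
  exact sum_congr rfl fun i _ => by rw [map_mul, map_pow, hτ _ (hF i).1]

theorem Cl.eval {r : ℕ} (h : t.Cl r F G) {z : PadicAlgCl p} (hz : ‖z‖ ≤ 1) :
    ‖F.eval z - G.eval z‖ ≤ ‖t.ϖ‖ ^ r := by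
  rw [← eval_sub]
  exact IPol_le (fun i => coeff_sub F G i ▸ h i) (by positivity) hz

theorem taylor2 (hF : ∀ i, ‖F.coeff i‖ ≤ 1) {z δ : PadicAlgCl p} (hz : ‖z‖ ≤ 1) (hδ : ‖δ‖ ≤ 1) :
    ‖F.eval (z + δ) - F.eval z - (derivative F).eval z * δ‖ ≤ ‖δ‖ ^ 2 := by
  obtain ⟨Q, rfl⟩ := (mem_lifts (f := (T.Ram_B p).subtype) F).1
    ((lifts_iff_coeff_lifts _).2 fun i => ⟨⟨F.coeff i, hF i⟩, rfl⟩)
  obtain ⟨k, hk⟩ := Q.binomExpansion ⟨z, hz⟩ ⟨δ, hδ⟩
  have h := congrArg (T.Ram_B p).subtype hk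
  simp only [map_add, map_mul, map_pow, ← eval₂_at_apply, ← eval_map, ← derivative_map,
    Subring.subtype_apply] at h
  rw [h, show ∀ a b c : PadicAlgCl p, a + b + c - a - b = c from fun a b c => by ring, norm_mul,
    norm_pow]
  exact mul_le_of_le_one_left (by positivity) k.2

theorem tw_eval (σ : Aut p) (n : ℕ) (G : (PadicAlgCl p)[X]) (z : PadicAlgCl p) :
    (tw σ n G).eval z = (σ ^ n) (G.eval ((σ ^ n).symm z)) := by
  rw [W.tw, eval_map]
  conv_lhs => rw [← (σ ^ n).apply_symm_apply z]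
  exact eval₂_at_apply ((σ ^ n : Aut p) : PadicAlgCl p →+* PadicAlgCl p) _

theorem split {g : (PadicAlgCl p)[X]} (hg : t.IP g) (hm : g.Monic) (h0 : 0 < g.natDegree)
    (hG : t.IP G) : ∃ Gb : ℕ → (PadicAlgCl p)[X], (∀ b, t.IP (Gb b)) ∧
      G = ∑ b ∈ range g.natDegree, (Gb b).comp g * Polynomial.X ^ b := by
  induction hn : G.natDegree using Nat.strong_induction_on generalizing G with
  | _ n ih =>
    have h1 := natDegree_modByMonic_lt G hm fun h => by simp [h] at h0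
    obtain ⟨Gb, h2, h3⟩ : ∃ Gb : ℕ → (PadicAlgCl p)[X], (∀ b, t.IP (Gb b)) ∧
        G /ₘ g = ∑ b ∈ range g.natDegree, (Gb b).comp g * Polynomial.X ^ b := by
      by_cases h : G /ₘ g = 0
      · exact ⟨0, fun _ => IP.zero, by simp [h]⟩
      · refine ih _ ?_ (hG.divM hg hm) rfl
        have := natDegree_le_natDegree (not_lt.1 (mt (divByMonic_eq_zero_iff hm).2 h))
        rw [natDegree_divByMonic G hm]
        omega
    refine ⟨fun b => Polynomial.C ((G %ₘ g).coeff b) + Polynomial.X * Gb b, fun b =>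
      (IP.C (hG.modM hg hm b).1 (hG.modM hg hm b).2).add (IP.X.mul (h2 b)), ?_⟩
    simp only [add_comp, C_comp, mul_comp, X_comp, add_mul, sum_add_distrib, mul_assoc, ← mul_sum,
      ← h3, C_mul_X_pow_eq_monomial]
    rw [← as_sum_range' _ _ h1, modByMonic_add_div]

end Pool.Agent.Work.MP_dd0d16_nt.W.Tw
end

-- merged part: Pool.Agent.Work.MP_dd0d16_nt.W.Tow1
section
/-!
The levels of a tower are totally ramified.

PLAN. `exists_tw`: `ϖ = (minpoly U (ξ 0)).coeff 0`, `norm_coeff_zero`, `minpoly.natDegree_pos`. `val_U`: take `r` with `‖ϖ‖ ^ (r + 1) < ‖z‖ ≤ ‖ϖ‖ ^ r`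
(`exists_mem_Ioc_zpow` for `‖ϖ‖⁻¹`), apply `disc` to `z / ϖ ^ r`. `orth_le`: `T.Ram_orth`; the norms `‖s‖ ^ (Q * ε + i)`, `i < Q`, are distinct. `f_near`: `f - X ^ q` has
coefficients of norm `≤ ‖ϖ‖`. `nrm`: induction; `f (ξ (n + 1)) = ξ (n + 1) ^ q + ∑_{0 < i < q} a i * ξ (n + 1) ^ i`; if `1 ≤ ‖ξ (n + 1)‖` the top term dominates, impossible; so the other terms
have norm `< ‖ϖ‖ ≤ ‖ξ n‖`. `root_close`: `frob_sub`, `f_near`, `‖ϖ‖ = ‖ξ 1‖ ^ (e * q) ≤ ‖ξ 1‖ ^ q`. `it_succ` is `Function.iterate_succ_apply'`. `span`: `ξ n` is a root of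
`Φ n = (minpoly U (ξ 0)).map .. |>.comp (it n)`, monic of degree `e * q ^ n` with coefficients in `U`; an element of `U ⊔ ℚ_[p]⟮ξ n⟯` is a polynomial in the algebraic element `ξ n` over `U`
(`IntermediateField.adjoin_simple_toSubalgebra_of_isAlgebraic`, `restrictScalars_adjoin_eq_sup`); reduce it with `modByMonic`. `val`: the largest term of `span`.
`poly`: by `orth_le` the coefficients have norm `< ‖ϖ‖⁻¹`, so `≤ 1` (`val_U`). `exists_phi`: the coefficients of `minpoly U (ξ 0)` have norm `≤ 1` by `orth_le`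
(`‖a i * ξ 0 ^ i‖ ≤ ‖ξ 0 ^ e‖`).
-/

set_option autoImplicit false

namespace Pool.Agent.Work.MP_dd0d16_nt.W.Tw

open Polynomial Finset Filter

variable {p : ℕ} [Fact p.Prime] {t : Tw p}

theorem _root_.Pool.Agent.Work.MP_dd0d16_nt.W.Tower.exists_tw
    {U : IntermediateField ℚ_[p] (PadicAlgCl p)} {f : (PadicAlgCl p)[X]} {ξ : ℕ → PadicAlgCl p}
    (h : Tower U f ξ) : ∃ t : Tw p, t.U = U ∧ t.f = f ∧ t.ξ = ξ := by
  obtain ⟨h1, h2, ⟨k, h3, h4⟩, h5, ⟨σ, h6, h7⟩, h8, h9, h10, h11⟩ := h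
  have e := norm_coeff_zero U (ξ 0)
  have hd := minpoly.natDegree_pos (Algebra.IsIntegral.isIntegral (R := U) (ξ 0))
  exact ⟨⟨U, f, ξ, σ, k, _, _, h1, h2, h3, h4, fun i => (h5 i).1, fun i hi => (h5 i).2 (h4 ▸ hi),
    Polynomial.ext fun i => by rw [coeff_map]; exact h6 i, fun u hu => (h7 u hu).1,
    fun u hu => h4 ▸ (h7 u hu).2, h8, rfl, ((minpoly U (ξ 0)).coeff 0).2,
    norm_pos_iff.1 (e ▸ pow_pos (norm_pos_iff.2 h9) _),
    e ▸ pow_lt_one₀ (norm_nonneg _) h10 hd.ne', e.symm, e ▸ h11⟩, rfl, rfl, rfl⟩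

theorem orth_le {s : PadicAlgCl p} (h0 : s ≠ 0) (h1 : ‖s‖ < 1) {Q : ℕ} {a : ℕ → PadicAlgCl p}
    (ha : ∀ i, a i ≠ 0 → ∃ ε : ℤ, ‖a i‖ = (‖s‖ ^ Q) ^ ε) {i : ℕ} (hi : i < Q) :
    ‖a i * s ^ i‖ ≤ ‖∑ j ∈ range Q, a j * s ^ j‖ := by
  refine T.Ram_orth (range Q) (fun j => a j * s ^ j) (fun j hj k hk h2 h3 => ?_) (mem_range.2 hi)
  have h4 := norm_pos_iff.2 h0
  obtain ⟨ε, hε⟩ := ha j (left_ne_zero_of_mul h2)
  obtain ⟨δ, hδ⟩ := ha k (left_ne_zero_of_mul (norm_ne_zero_iff.1 (h3 ▸ norm_ne_zero_iff.2 h2)))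
  rw [norm_mul, norm_mul, norm_pow, norm_pow, hε, hδ, ← zpow_natCast, ← zpow_natCast, ← zpow_natCast,
    ← zpow_mul, ← zpow_mul, ← zpow_add₀ h4.ne', ← zpow_add₀ h4.ne'] at h3
  have h5 := congrArg (· % (Q : ℤ)) (zpow_right_injective₀ h4 h1.ne h3)
  simp only [Int.mul_add_emod_self_left] at h5
  rw [Int.emod_eq_of_lt (by omega) (by exact_mod_cast mem_range.1 hj),
    Int.emod_eq_of_lt (by omega) (by exact_mod_cast mem_range.1 hk)] at h5
  exact_mod_cast h5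

variable (t)

theorem degq : t.f.natDegree = t.q := t.deg

theorem two_le : 2 ≤ t.q := by
  exact (Fact.out : p.Prime).two_le.trans (Nat.le_self_pow t.hpos.ne' p)

theorem p_le : (p : ℝ)⁻¹ ≤ ‖t.ϖ‖ := by
  rw [← norm_p_eq]
  refine t.disc _ (natCast_mem _ _) ?_
  rw [norm_p_eq]
  exact inv_lt_one_of_one_lt₀ (by exact_mod_cast (Fact.out : p.Prime).one_lt)

theorem norm_q : ‖(t.q : PadicAlgCl p)‖ ≤ (p : ℝ)⁻¹ := by
  rw [q, Nat.cast_pow, norm_pow, norm_p_eq]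
  exact pow_le_of_le_one (by positivity) (t.p_le.trans t.plt.le) t.hpos.ne'

theorem q_ne : (t.q : PadicAlgCl p) ≠ 0 := by
  exact Nat.cast_ne_zero.2 (by have := t.two_le; omega)

theorem epos : 0 < t.e := by
  exact t.edef ▸ minpoly.natDegree_pos (Algebra.IsIntegral.isIntegral _)

theorem val_U {z : PadicAlgCl p} (hz : z ∈ t.U) (h0 : z ≠ 0) : ∃ r : ℤ, ‖z‖ = ‖t.ϖ‖ ^ r := by
  have h1 := norm_pos_iff.2 t.pne
  obtain ⟨r, r1, r2⟩ := exists_mem_Ioc_zpow (norm_pos_iff.2 h0) ((one_lt_inv₀ h1).2 t.plt)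
  have h2 := zpow_pos h1 (r + 1)
  rw [inv_zpow, inv_lt_iff_one_lt_mul₀ (zpow_pos h1 _)] at r1
  rw [inv_zpow, le_inv_comm₀ (norm_pos_iff.2 h0) h2, ← one_div, le_div_iff₀ (norm_pos_iff.2 h0)] at r2
  refine ⟨-(r + 1), ?_⟩
  rw [zpow_neg]
  refine eq_inv_of_mul_eq_one_right (r2.eq_of_not_lt fun h3 => ?_)
  have h4 := t.disc _ (mul_mem (zpow_mem t.pmem (r + 1)) hz) (by rwa [norm_mul, norm_zpow])
  rw [norm_mul, norm_zpow, zpow_add_one₀ h1.ne'] at h4
  nlinarith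

theorem disc_pow {z : PadicAlgCl p} (hz : z ∈ t.U) {a : ℕ} (h : ‖z‖ < ‖t.ϖ‖ ^ a) :
    ‖z‖ ≤ ‖t.ϖ‖ ^ (a + 1) := by
  have h1 := pow_pos (norm_pos_iff.2 t.pne) a
  have h2 := t.disc _ (div_mem hz (pow_mem t.pmem a)) (by rwa [norm_div, norm_pow, div_lt_one h1])
  rwa [norm_div, norm_pow, div_le_iff₀' h1, ← pow_succ] at h2

theorem ip_f : t.IP t.f := by
  refine fun i => ⟨t.mem i, ?_⟩
  rcases lt_trichotomy i t.f.natDegree with h | rfl | h
  · exact (t.sm i (t.deg ▸ h)).le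
  · rw [t.mon.coeff_natDegree, norm_one]
  · rw [coeff_eq_zero_of_natDegree_lt h, norm_zero]
    exact zero_le_one

theorem f_near {z : PadicAlgCl p} (hz : ‖z‖ ≤ 1) : ‖t.f.eval z - z ^ t.q‖ ≤ ‖t.ϖ‖ * ‖z‖ := by
  rw [eval_eq_sum_range, sum_range_succ, t.mon.coeff_natDegree, one_mul, t.degq, add_sub_cancel_right]
  refine IsUltrametricDist.norm_sum_le_of_forall_le_of_nonneg (by positivity) fun i hi => ?_
  rcases eq_or_ne i 0 with rfl | h
  · rw [t.c0, zero_mul, norm_zero]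
    positivity
  · rw [norm_mul, norm_pow]
    exact mul_le_mul (t.disc _ (t.mem i) (t.sm i (mem_range.1 hi)))
      (pow_le_of_le_one (norm_nonneg _) hz h) (by positivity) (norm_nonneg _)

theorem root_le {y : PadicAlgCl p} (h : ‖t.f.eval y‖ ≤ 1) : ‖y‖ ≤ 1 := by
  by_contra hy
  rw [not_le] at hy
  have h1 : ‖∑ i ∈ range t.q, t.f.coeff i * y ^ i‖ ≤ ‖y‖ ^ (t.q - 1) :=
    IsUltrametricDist.norm_sum_le_of_forall_le_of_nonneg (by positivity) fun i hi => by
      rw [norm_mul, norm_pow]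
      exact (mul_le_of_le_one_left (by positivity) (t.ip_f i).2).trans
        (pow_le_pow_right₀ hy.le (by have := mem_range.1 hi; omega))
  have h2 := (IsUltrametricDist.norm_add_le_max _ _).trans
    (max_le (h.trans (one_le_pow₀ hy.le)) ((norm_neg _).trans_le h1))
  rw [eval_eq_sum_range, sum_range_succ, t.mon.coeff_natDegree, one_mul, t.degq,
    add_neg_cancel_comm, norm_pow] at h2
  exact h2.not_gt (pow_lt_pow_right₀ hy (by have := t.two_le; omega))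

theorem it_zero : t.it 0 = X := rfl

theorem it_succ (k : ℕ) : t.it (k + 1) = t.f.comp (t.it k) := by
  exact Function.iterate_succ_apply' _ _ _

theorem ip_it (k : ℕ) : t.IP (t.it k) := by
  induction k with
  | zero => exact IP.X
  | succ k ih => exact t.it_succ k ▸ t.ip_f.comp ih

theorem Tow1_it (k : ℕ) : (t.it k).Monic ∧ (t.it k).natDegree = t.q ^ k := by
  induction k with
  | zero => exact ⟨monic_X, natDegree_X⟩
  | succ k ih =>
    rw [t.it_succ, natDegree_comp, ih.2, t.degq, pow_succ']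
    exact ⟨t.mon.comp ih.1 (ih.2 ▸ (pow_pos (by have := t.two_le; omega) k).ne'), rfl⟩

theorem it_monic (k : ℕ) : (t.it k).Monic := by
  exact (t.Tow1_it k).1

theorem it_deg (k : ℕ) : (t.it k).natDegree = t.q ^ k := by
  exact (t.Tow1_it k).2

theorem it_c0 (k : ℕ) : (t.it k).coeff 0 = 0 := by
  induction k with
  | zero => exact coeff_X_zero
  | succ k ih =>
    rw [coeff_zero_eq_eval_zero] at ih ⊢
    rw [t.it_succ, eval_comp, ih, ← coeff_zero_eq_eval_zero, t.c0]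

theorem tw_f (n : ℕ) : tw t.σ n t.f = t.f := by
  ext i
  have h := congrArg (coeff · i) t.fix
  simp only [coeff_map] at h
  rw [tw, coeff_map]
  induction n with
  | zero => rfl
  | succ n ih =>
    rw [pow_succ]
    exact (congrArg (t.σ ^ n) h).trans ih

theorem tw_it (n k : ℕ) : tw t.σ n (t.it k) = t.it k := by
  induction k with
  | zero => exact map_X _
  | succ k ih =>
    have h := t.tw_f n
    rw [tw] at h ih ⊢
    rw [t.it_succ, map_comp, h, ih]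

theorem it_eval (m k : ℕ) : (t.it k).eval (t.ξ (m + k)) = t.ξ m := by
  induction k generalizing m with
  | zero => exact eval_X
  | succ k ih => rw [t.it_succ, eval_comp, show m + (k + 1) = m + 1 + k by omega, ih, t.step]

theorem U_le (n : ℕ) : t.U ≤ t.K n := le_sup_left

theorem xi_mem (n : ℕ) : t.ξ n ∈ t.K n := by
  exact (le_sup_right : _ ≤ Lev t.U t.ξ n) (IntermediateField.mem_adjoin_simple_self _ _)

variable {t} in
theorem IP.eval_mem {G : (PadicAlgCl p)[X]} (hG : t.IP G) (n : ℕ) : G.eval (t.ξ n) ∈ t.K n := by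
  rw [eval_eq_sum_range]
  exact sum_mem fun i _ => mul_mem (t.U_le n (hG i).1) (pow_mem (t.xi_mem n) i)

theorem mono {m n : ℕ} (hmn : m ≤ n) : t.K m ≤ t.K n := by
  obtain ⟨k, rfl⟩ := Nat.exists_eq_add_of_le hmn
  exact sup_le (t.U_le _) (IntermediateField.adjoin_simple_le_iff.2
    (t.it_eval m k ▸ (t.ip_it k).eval_mem _))

theorem Tow1_step {n N : ℕ} (h : ‖t.ξ n‖ ^ (t.e * t.q ^ N) = ‖t.ϖ‖) :
    ‖t.ξ (n + 1)‖ ^ t.q = ‖t.ξ n‖ := by
  have h1 : ‖t.ξ n‖ < 1 := not_le.1 fun h1 => (one_le_pow₀ h1).not_gt (h.trans_lt t.plt)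
  have h2 : ‖t.ϖ‖ ≤ ‖t.ξ n‖ := h ▸ pow_le_of_le_one (norm_nonneg _) h1.le
    (mul_pos t.epos (pow_pos (by have := t.two_le; omega) N)).ne'
  have h3 := t.root_le (y := t.ξ (n + 1)) (by rw [t.step]; exact h1.le)
  have h4 := t.f_near h3
  rw [t.step] at h4
  have h5 : ‖t.ξ (n + 1)‖ < 1 := h3.lt_of_ne fun h5 => by
    have h6 := IsUltrametricDist.norm_add_le_max (t.ξ n) (-(t.ξ n - t.ξ (n + 1) ^ t.q))
    rw [neg_sub, add_sub_cancel, norm_pow, h5, one_pow, norm_sub_rev] at h6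
    rw [h5, mul_one] at h4
    exact (max_lt h1 (h4.trans_lt t.plt)).not_ge h6
  have h6 := (h4.trans_lt (mul_lt_of_lt_one_right (norm_pos_iff.2 t.pne) h5)).trans_le h2
  rw [← norm_pow, ← sub_sub_cancel (t.ξ n) (t.ξ (n + 1) ^ t.q), sub_eq_add_neg,
    IsUltrametricDist.norm_add_eq_max_of_norm_ne_norm (by rw [norm_neg]; exact h6.ne'), norm_neg,
    max_eq_left h6.le]

theorem nrm (n : ℕ) : ‖t.ξ n‖ ^ (t.e * t.q ^ n) = ‖t.ϖ‖ := by
  induction n with
  | zero => simpa using t.nrm0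
  | succ n ih => rw [pow_succ', mul_left_comm, pow_mul, t.Tow1_step ih, ih]

theorem ne (n : ℕ) : t.ξ n ≠ 0 := by
  rintro h
  have h1 := t.nrm n
  rw [h, norm_zero, zero_pow (mul_pos t.epos (pow_pos (by have := t.two_le; omega) n)).ne'] at h1
  exact t.pne (norm_eq_zero.1 h1.symm)

theorem lt (n : ℕ) : ‖t.ξ n‖ < 1 := by
  exact not_le.1 fun h => (one_le_pow₀ h).not_gt ((t.nrm n).trans_lt t.plt)

theorem nrm_add (m k : ℕ) : ‖t.ξ (m + k)‖ ^ t.q ^ k = ‖t.ξ m‖ := by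
  induction k with
  | zero => simp
  | succ k ih => rw [pow_succ', pow_mul, ← add_assoc, t.Tow1_step (t.nrm _), ih]

theorem nrm_mono {m n : ℕ} (hmn : m ≤ n) : ‖t.ξ m‖ ≤ ‖t.ξ n‖ := by
  obtain ⟨k, rfl⟩ := Nat.exists_eq_add_of_le hmn
  rw [← t.nrm_add m k]
  exact pow_le_of_le_one (norm_nonneg _) (t.lt _).le (pow_pos (by have := t.two_le; omega) k).ne'

theorem nrm_ge {n a : ℕ} (h : a ≤ t.q ^ n) : ‖t.ϖ‖ ≤ ‖t.ξ n‖ ^ a := by
  rw [← t.nrm n]
  exact pow_le_pow_of_le_one (norm_nonneg _) (t.lt n).le (h.trans (Nat.le_mul_of_pos_left _ t.epos))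

theorem root_close {y z : PadicAlgCl p} (h1 : ‖t.f.eval y‖ ≤ 1) (h : t.f.eval y = t.f.eval z) :
    ‖y - z‖ ≤ ‖t.ξ 1‖ := by
  have hy := t.root_le h1
  have hz := t.root_le (h ▸ h1)
  have e1 := (t.f_near hy).trans (mul_le_of_le_one_right (norm_nonneg _) hy)
  have e2 := (t.f_near hz).trans (mul_le_of_le_one_right (norm_nonneg _) hz)
  have e3 := (IsUltrametricDist.norm_add_le_max _ _).trans (max_le ((frob_sub hy hz t.h).trans t.p_le)
    ((IsUltrametricDist.norm_add_le_max _ _).trans (max_le e2 ((norm_neg _).trans_le e1))))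
  rw [show (y - z) ^ p ^ t.h - (y ^ p ^ t.h - z ^ p ^ t.h) + (t.f.eval z - z ^ t.q +
    -(t.f.eval y - y ^ t.q)) = (y - z) ^ t.q by rw [h, q]; ring, norm_pow] at e3
  exact (pow_le_pow_iff_left₀ (norm_nonneg _) (norm_nonneg _) (by have := t.two_le; omega)).1
    (e3.trans (t.nrm_ge (pow_one _).ge))

theorem span {n : ℕ} {z : PadicAlgCl p} (hz : z ∈ t.K n) :
    ∃ a : ℕ → PadicAlgCl p, (∀ i, a i ∈ t.U) ∧
      z = ∑ i ∈ range (t.e * t.q ^ n), a i * t.ξ n ^ i := by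
  have hi : ∀ y : PadicAlgCl p, IsIntegral t.U y := fun y => Algebra.IsIntegral.isIntegral y
  have h1 : z ∈ (IntermediateField.adjoin t.U {t.ξ n}).toSubalgebra := by
    rw [K, Lev, ← IntermediateField.restrictScalars_adjoin_eq_sup] at hz
    exact hz
  rw [IntermediateField.adjoin_simple_toSubalgebra_of_isAlgebraic (hi _).isAlgebraic,
    Algebra.adjoin_singleton_eq_range_aeval] at h1
  obtain ⟨R, rfl⟩ := h1
  obtain ⟨Q, q1, q2, q3⟩ := lifts_and_natDegree_eq_and_monic (f := algebraMap t.U (PadicAlgCl p))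
    (p := t.it n) ((lifts_iff_coeff_lifts _).2 fun i => ⟨⟨(t.it n).coeff i, (t.ip_it n i).1⟩, rfl⟩)
    (t.it_monic n)
  have hq : 0 < t.q ^ n := pow_pos (by have := t.two_le; omega) n
  rw [t.it_deg] at q2
  have h2 := (minpoly.monic (hi (t.ξ 0))).comp q3 (by omega)
  have h3 : aeval (t.ξ n) ((minpoly t.U (t.ξ 0)).comp Q) = 0 := by
    have := t.it_eval 0 n
    rw [zero_add, ← q1, eval_map_algebraMap] at this
    rw [aeval_comp, this, minpoly.aeval]
  have h4 : ((minpoly t.U (t.ξ 0)).comp Q).natDegree = t.e * t.q ^ n := by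
    rw [natDegree_comp, q2, t.edef]
  refine ⟨fun i => (R %ₘ (minpoly t.U (t.ξ 0)).comp Q).coeff i, fun i => Subtype.prop _, ?_⟩
  exact (aeval_modByMonic_eq_self_of_root h3).symm.trans (aeval_eq_sum_range' (h4 ▸
    natDegree_modByMonic_lt _ h2 fun h => by
      rw [h, natDegree_one] at h4
      exact (mul_pos t.epos hq).ne h4) _)

theorem val {n : ℕ} {z : PadicAlgCl p} (hz : z ∈ t.K n) (h0 : z ≠ 0) :
    ∃ ε : ℤ, ‖z‖ = ‖t.ξ n‖ ^ ε := by
  obtain ⟨a, h1, rfl⟩ := t.span hz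
  obtain ⟨i, hi, h2⟩ := IsUltrametricDist.exists_norm_finsetSum_le (range (t.e * t.q ^ n))
    fun i => a i * t.ξ n ^ i
  have h3 := h2.antisymm (orth_le (t.ne n) (t.lt n) (fun j hj => (t.nrm n).symm ▸ t.val_U (h1 j) hj)
    (mem_range.1 (hi (nonempty_of_sum_ne_zero h0))))
  obtain ⟨r, hr⟩ := t.val_U (h1 i)
    (left_ne_zero_of_mul (norm_ne_zero_iff.1 (h3 ▸ norm_ne_zero_iff.2 h0)))
  refine ⟨(t.e * t.q ^ n : ℕ) * r + i, ?_⟩
  rw [h3, norm_mul, norm_pow, hr, ← t.nrm n, zpow_add₀ (norm_ne_zero_iff.2 (t.ne n)), zpow_mul,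
    zpow_natCast, zpow_natCast]

theorem poly {n : ℕ} {z : PadicAlgCl p} (hz : z ∈ t.K n) (h1 : ‖z‖ ≤ 1) :
    ∃ G, t.IP G ∧ G.natDegree < t.e * t.q ^ n ∧ G.eval (t.ξ n) = z := by
  obtain ⟨a, h2, rfl⟩ := t.span hz
  have hq := mul_pos t.epos (pow_pos (show 0 < t.q by have := t.two_le; omega) n)
  refine ⟨∑ i ∈ range (t.e * t.q ^ n), C (a i) * X ^ i, IP.sum _ fun i hi =>
    (IP.C (h2 i) ?_).mul (IP.X.pow i), ?_, by simp [eval_finsetSum]⟩
  · have h3 := (orth_le (t.ne n) (t.lt n) (fun j hj => (t.nrm n).symm ▸ t.val_U (h2 j) hj)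
      (mem_range.1 hi)).trans h1
    have h4 := pow_lt_pow_right_of_lt_one₀ (norm_pos_iff.2 (t.ne n)) (t.lt n) (mem_range.1 hi)
    rw [norm_mul, norm_pow] at h3
    rw [t.nrm] at h4
    by_contra h5
    have h6 := t.disc _ (inv_mem (h2 i)) (by rw [norm_inv]; exact inv_lt_one_of_one_lt₀ (not_le.1 h5))
    rw [norm_inv, inv_le_iff_one_le_mul₀' (by linarith)] at h6
    nlinarith
  · exact (Nat.le_sub_one_iff_lt hq).1 (natDegree_sum_le_of_forall_le _ _ fun i hi =>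
      (natDegree_C_mul_X_pow_le _ _).trans (by have := mem_range.1 hi; omega))

theorem exists_phi : ∃ Φ, t.IP Φ ∧ Φ.Monic ∧ Φ.natDegree = t.e ∧ Φ.eval (t.ξ 0) = 0 := by
  have hm := minpoly.monic (Algebra.IsIntegral.isIntegral (R := t.U) (t.ξ 0))
  have h0 : ((minpoly t.U (t.ξ 0)).map (algebraMap _ _)).eval (t.ξ 0) = 0 := by
    rw [eval_map_algebraMap, minpoly.aeval]
  have h1 : ((minpoly t.U (t.ξ 0)).map (algebraMap _ (PadicAlgCl p))).natDegree = t.e := by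
    rw [natDegree_map, t.edef]
  have h2 : ∀ i, ((minpoly t.U (t.ξ 0)).map (algebraMap _ (PadicAlgCl p))).coeff i ∈ t.U :=
    fun i => by rw [coeff_map]; exact Subtype.prop _
  have h3 := hm.map (algebraMap _ (PadicAlgCl p))
  refine ⟨_, fun i => ⟨h2 i, ?_⟩, h3, h1, h0⟩
  generalize (minpoly t.U (t.ξ 0)).map (algebraMap _ (PadicAlgCl p)) = Φ at *
  rcases lt_trichotomy i Φ.natDegree with h | rfl | h
  · have h4 := orth_le (t.ne 0) (t.lt 0) (fun j hj => t.nrm0.symm ▸ t.val_U (h2 j) hj) (h1 ▸ h)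
    rw [eval_eq_sum_range, sum_range_succ, h3.coeff_natDegree, one_mul, h1] at h0
    rw [eq_neg_of_add_eq_zero_left h0, norm_neg, norm_mul, norm_pow, norm_pow] at h4
    exact le_of_mul_le_mul_right (h4.trans (by
      rw [one_mul]; exact pow_le_pow_of_le_one (norm_nonneg _) (t.lt 0).le (h1 ▸ h.le)))
      (pow_pos (norm_pos_iff.2 (t.ne 0)) i)
  · rw [h3.coeff_natDegree, norm_one]
  · rw [coeff_eq_zero_of_natDegree_lt h, norm_zero]
    exact zero_le_one

end Pool.Agent.Work.MP_dd0d16_nt.W.Tw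
end

-- merged part: Pool.Agent.Work.MP_dd0d16_nt.W.Graf
section
/-!
The norm operator on polynomials (Coleman).

PLAN. `Gr_eval`: `resultant_map_map` for `evalRingHom z` (`map_map`, the composite of `C` and evaluation is the identity), `resultant_eq_prod_eval`; `f - C z` is monic of degree `q`
(`natDegree_sub_C`, `Monic.sub_of_left`) and splits. `Gr_map`: `resultant_map_map` for `mapRingHom τ`, `natDegree_map`. `IP.gr`: membership by `mem_of_fix` and `Gr_map`; norms by `coeff_le`,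
`root_le`, `IP.eval_le`. All congruences are proved pointwise for `‖z‖ ≤ 1` and transferred by `coeff_lt` and `disc_pow`. The `q` roots `y` of `f - C z` have norm `≤ 1` and mutual
distances `< 1` (`root_close`, `lt`); fix one root `y0`. `frob_pt`: `F y ^ q` is within `< 1` of `∑ a i ^ q * (y ^ q) ^ i` (`frob_sum`), use `t.frob`, `f_near`, `IP.eval_sub`.
`Gr_frob`: `∏ F y` is within `< 1` of `F y0 ^ q`. `Gr_cl`: `F = G + C u * H` with `u = ϖ ^ a` (`IP.div`); by induction on a multiset `s` of roots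
`‖∏ (G y + u * H y) - ∏ G y - card s * u * H y0 * G y0 ^ (card s - 1)‖ < ‖u‖`; `norm_q`. `exists_pf`: the coefficients of `F ^ q - (tw σ 1 F).comp f` have norm `≤ ‖ϖ‖`, so its values at `‖z‖ ≤ 1` too;
`pow_close` with `ρ = ‖ϖ‖`, `ε = p⁻¹`, `coeff_le`, `IP.div` with `u = p` (`norm_p_eq`).
-/

set_option autoImplicit false

namespace Pool.Agent.Work.MP_dd0d16_nt.W.Tw

open Polynomial Finset Filter

variable {p : ℕ} [Fact p.Prime] {t : Tw p}

/-- the norm operator -/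
noncomputable def Gr (t : Tw p) (F : (PadicAlgCl p)[X]) : (PadicAlgCl p)[X] :=
  resultant (t.f.map C - C X) (F.map C) t.q F.natDegree

variable {F G : (PadicAlgCl p)[X]}

theorem Graf_add {a b : PadicAlgCl p} {r : ℝ} (ha : ‖a‖ < r) (hb : ‖b‖ < r) : ‖a + b‖ < r :=
  (IsUltrametricDist.norm_add_le_max a b).trans_lt (max_lt ha hb)

theorem Graf_tri {a b c : PadicAlgCl p} {r : ℝ} (ha : ‖a - b‖ < r) (hb : ‖b - c‖ < r) :
    ‖a - c‖ < r := sub_add_sub_cancel a b c ▸ Graf_add ha hb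

theorem Graf_mul {a b : PadicAlgCl p} (ha : ‖a‖ ≤ 1) (hb : ‖b‖ < 1) : ‖a * b‖ < 1 := by
  rw [norm_mul]
  exact (mul_le_of_le_one_left (norm_nonneg _) ha).trans_lt hb

theorem Graf_pow {a : PadicAlgCl p} (ha : ‖a‖ ≤ 1) (n : ℕ) : ‖a ^ n‖ ≤ 1 := by
  rw [norm_pow]
  exact pow_le_one₀ (norm_nonneg _) ha

theorem Graf_le {g : PadicAlgCl p → PadicAlgCl p} (s : Multiset (PadicAlgCl p))
    (h : ∀ y ∈ s, ‖g y‖ ≤ 1) : ‖(s.map g).prod‖ ≤ 1 := by
  induction s using Multiset.induction_on with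
  | empty => simp
  | cons y s ih =>
    rw [Multiset.map_cons, Multiset.prod_cons, norm_mul]
    exact mul_le_one₀ (h y (Multiset.mem_cons_self _ _)) (norm_nonneg _)
      (ih fun z hz => h z (Multiset.mem_cons_of_mem hz))

theorem Graf_A {g : PadicAlgCl p → PadicAlgCl p} {g0 : PadicAlgCl p} (h0 : ‖g0‖ ≤ 1)
    (s : Multiset (PadicAlgCl p)) (h : ∀ y ∈ s, ‖g y‖ ≤ 1 ∧ ‖g y - g0‖ < 1) :
    ‖(s.map g).prod - g0 ^ s.card‖ < 1 := by
  induction s using Multiset.induction_on with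
  | empty => simp
  | cons y s ih =>
    obtain ⟨h1, h2⟩ := h y (Multiset.mem_cons_self _ _)
    rw [Multiset.map_cons, Multiset.prod_cons, Multiset.card_cons, show g y * (s.map g).prod -
      g0 ^ (s.card + 1) = g y * ((s.map g).prod - g0 ^ s.card) + g0 ^ s.card * (g y - g0) by ring]
    exact Graf_add (Graf_mul h1 (ih fun z hz => h z (Multiset.mem_cons_of_mem hz)))
      (Graf_mul (Graf_pow h0 _) h2)

theorem Graf_B {g k : PadicAlgCl p → PadicAlgCl p} {g0 k0 u : PadicAlgCl p} (h0 : ‖g0‖ ≤ 1)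
    (h1 : ‖k0‖ ≤ 1) (hu : ‖u‖ < 1) (s : Multiset (PadicAlgCl p))
    (h : ∀ y ∈ s, ‖g y‖ ≤ 1 ∧ ‖g y - g0‖ < 1 ∧ ‖k y‖ ≤ 1 ∧ ‖k y - k0‖ < 1) :
    ∃ E, ‖E‖ < 1 ∧ (s.map fun y => g y + u * k y).prod =
      (s.map g).prod + u * (s.card * (k0 * g0 ^ (s.card - 1)) + E) := by
  induction s using Multiset.induction_on with
  | empty => exact ⟨0, by simp, by simp⟩
  | cons y s ih =>
    obtain ⟨a1, a2, a3, a4⟩ := h y (Multiset.mem_cons_self _ _)
    obtain ⟨E, e1, e2⟩ := ih fun z hz => h z (Multiset.mem_cons_of_mem hz)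
    have e3 := Graf_A (g := fun y => g y + u * k y) h0 s fun z hz => by
      obtain ⟨b1, b2, b3, -⟩ := h z (Multiset.mem_cons_of_mem hz)
      have b4 := Graf_mul b3 hu
      rw [mul_comm] at b4
      exact ⟨(IsUltrametricDist.norm_add_le_max _ _).trans (max_le b1 b4.le),
        add_sub_right_comm (g z) _ _ ▸ Graf_add b2 b4⟩
    refine ⟨g y * E + s.card * (k0 * g0 ^ (s.card - 1)) * (g y - g0) +
      (k y * ((s.map fun y => g y + u * k y).prod - g0 ^ s.card) + g0 ^ s.card * (k y - k0)),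
      Graf_add (Graf_add (Graf_mul a1 e1) (Graf_mul ?_ a2))
        (Graf_add (Graf_mul a3 e3) (Graf_mul (Graf_pow h0 _) a4)), ?_⟩
    · rw [norm_mul, norm_mul]
      exact mul_le_one₀ (IsUltrametricDist.norm_natCast_le_one _ _) (by positivity)
        (mul_le_one₀ h1 (norm_nonneg _) (Graf_pow h0 _))
    · have e4 : (s.card : PadicAlgCl p) * g0 ^ (s.card - 1) * g0 = s.card * g0 ^ s.card := by
        rcases s.card with _ | n
        · simp
        · rw [Nat.add_sub_cancel, pow_succ, mul_assoc]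
      simp only [Multiset.map_cons, Multiset.prod_cons, Multiset.card_cons, Nat.add_sub_cancel,
        Nat.cast_succ]
      linear_combination g y * e2 + u * k0 * e4

theorem Graf_monic (t : Tw p) (z : PadicAlgCl p) : (t.f - C z).Monic :=
  t.mon.sub_of_left (degree_C_le.trans_lt (natDegree_pos_iff_degree_pos.1 (by
    have := t.two_le
    rw [t.degq]
    omega)))

theorem Graf_card (t : Tw p) (z : PadicAlgCl p) : (t.f - C z).roots.card = t.q := by
  rw [← (IsAlgClosed.splits _).natDegree_eq_card_roots, natDegree_sub_C, t.degq]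

theorem Graf_root {z y : PadicAlgCl p} (h : y ∈ (t.f - C z).roots) : t.f.eval y = z := by
  simpa [sub_eq_zero] using isRoot_of_mem_roots h

theorem Graf_roots (t : Tw p) {z : PadicAlgCl p} (hz : ‖z‖ ≤ 1) : ∃ y0, ‖y0‖ ≤ 1 ∧ t.f.eval y0 = z ∧
    ∀ y ∈ (t.f - C z).roots, ∀ F, t.IP F → ‖F.eval y‖ ≤ 1 ∧ ‖F.eval y - F.eval y0‖ < 1 := by
  obtain ⟨y0, h0⟩ := Multiset.card_pos_iff_exists_mem.1 (show 0 < (t.f - C z).roots.card by
    have := t.two_le
    rw [t.Graf_card]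
    omega)
  have h1 : ∀ y ∈ (t.f - C z).roots, ‖y‖ ≤ 1 := fun y hy => t.root_le (by rwa [Graf_root hy])
  exact ⟨y0, h1 _ h0, Graf_root h0, fun y hy F hF => ⟨hF.eval_le (h1 _ hy),
    ((hF.eval_sub (h1 _ hy) (h1 _ h0)).trans (t.root_close (by rwa [Graf_root hy])
      (by rw [Graf_root hy, Graf_root h0]))).trans_lt (t.lt 1)⟩⟩

theorem Gr_eval (t : Tw p) (F : (PadicAlgCl p)[X]) (z : PadicAlgCl p) :
    (t.Gr F).eval z = ((t.f - C z).roots.map F.eval).prod := by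
  have e : (evalRingHom z).comp C = RingHom.id (PadicAlgCl p) := by
    ext
    simp
  have h1 := resultant_eq_prod_eval (t.f - C z) F _ le_rfl (IsAlgClosed.splits _)
  rw [(t.Graf_monic z).leadingCoeff, one_pow, one_mul, natDegree_sub_C, t.degq] at h1
  rw [Gr, ← coe_evalRingHom, ← resultant_map_map, Polynomial.map_sub, Polynomial.map_map,
    Polynomial.map_map, e, Polynomial.map_id, Polynomial.map_id, map_C, coe_evalRingHom, eval_X, h1]

theorem Gr_map {τ : PadicAlgCl p →+* PadicAlgCl p} (hτ : t.f.map τ = t.f) (F : (PadicAlgCl p)[X]) :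
    (t.Gr F).map τ = t.Gr (F.map τ) := by
  have e : (mapRingHom τ).comp C = C.comp τ := by
    ext1
    simp
  rw [Gr, Gr, ← coe_mapRingHom, ← resultant_map_map, Polynomial.map_sub, Polynomial.map_map,
    Polynomial.map_map, e, ← Polynomial.map_map, ← Polynomial.map_map, hτ, map_C, coe_mapRingHom,
    map_X, natDegree_map]

theorem IP.gr (hF : t.IP F) : t.IP (t.Gr F) := fun i => by
  refine ⟨mem_of_fix fun τ hτ => ?_, coeff_le (fun z hz => ?_) i⟩
  · have e : ∀ G, t.IP G → G.map (τ : PadicAlgCl p →+* PadicAlgCl p) = G := fun G hG =>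
      Polynomial.ext fun j => by rw [coeff_map]; exact hτ _ (hG j).1
    have h1 := congrArg (coeff · i) (Gr_map (e _ t.ip_f) F)
    simp only [e _ hF, coeff_map] at h1
    exact h1
  · obtain ⟨y0, -, -, h⟩ := t.Graf_roots hz
    rw [Gr_eval]
    exact Graf_le _ fun y hy => (h y hy F hF).1

theorem frob_pt (hF : t.IP F) {y : PadicAlgCl p} (hy : ‖y‖ ≤ 1) :
    ‖F.eval y ^ t.q - (tw t.σ 1 F).eval (t.f.eval y)‖ < 1 := by
  have h1 := frob_sum (range (F.natDegree + 1)) (u := fun i => F.coeff i * y ^ i) (fun i _ => by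
    rw [norm_mul]
    exact mul_le_one₀ (hF i).2 (norm_nonneg _) (Graf_pow hy _)) t.h
  rw [← eval_eq_sum_range] at h1
  have h2 := t.f_near hy
  refine Graf_tri (h1.trans_lt (t.p_le.trans_lt t.plt)) (Graf_tri (b := (tw t.σ 1 F).eval (y ^ t.q))
    ?_ (((hF.tw 1).eval_sub (Graf_pow hy _) (t.ip_f.eval_le hy)).trans_lt ?_))
  · rw [tw, eval_map, eval₂_eq_sum_range, ← sum_sub_distrib]
    obtain ⟨i, -, hi⟩ := IsUltrametricDist.exists_norm_finsetSum_le (range (F.natDegree + 1))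
      fun i => (F.coeff i * y ^ i) ^ p ^ t.h -
        ((t.σ ^ 1 : Aut p) : PadicAlgCl p →+* PadicAlgCl p) (F.coeff i) * (y ^ t.q) ^ i
    refine hi.trans_lt ?_
    rw [mul_pow, ← pow_mul, mul_comm i, pow_mul, q, ← sub_mul, mul_comm, pow_one]
    exact Graf_mul (Graf_pow (Graf_pow hy _) _) 
      ((norm_sub_rev _ _).trans_lt (t.frob _ (hF i).1 (hF i).2))
  · rw [norm_sub_rev]
    exact h2.trans_lt ((mul_le_of_le_one_right (norm_nonneg _) hy).trans_lt t.plt)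

theorem Gr_frob (hF : t.IP F) : t.Cl 1 (t.Gr F) (tw t.σ 1 F) := fun i => by
  refine t.disc_pow (a := 0) (sub_mem (hF.gr i).1 (hF.tw 1 i).1) ?_
  rw [← coeff_sub, pow_zero]
  refine coeff_lt (fun z hz => ?_) i
  obtain ⟨y0, h0, h1, h⟩ := t.Graf_roots hz
  have h2 := Graf_A (hF.eval_le h0) _ fun y hy => h y hy F hF
  rw [t.Graf_card, ← Gr_eval] at h2
  rw [eval_sub]
  exact Graf_tri h2 (h1 ▸ frob_pt hF h0)

theorem Gr_cl (hF : t.IP F) (hG : t.IP G) {a : ℕ} (ha : 1 ≤ a) (h : t.Cl a F G) :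
    t.Cl (a + 1) (t.Gr F) (t.Gr G) := fun i => by
  refine t.disc_pow (sub_mem (hF.gr i).1 (hG.gr i).1) ?_
  rw [← coeff_sub]
  refine coeff_lt (fun z hz => ?_) i
  obtain ⟨H, hH, rfl⟩ := hF.div hG (pow_mem t.pmem a) (pow_ne_zero a t.pne) fun j => by
    rw [norm_pow]; exact h j
  obtain ⟨y0, h0, -, h1⟩ := t.Graf_roots hz
  obtain ⟨E, e1, e2⟩ := Graf_B (u := t.ϖ ^ a) (hG.eval_le h0) (hH.eval_le h0) (by
    rw [norm_pow]; exact pow_lt_one₀ (norm_nonneg _) t.plt (by omega)) _ fun y hy =>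
      ⟨(h1 y hy G hG).1, (h1 y hy G hG).2, h1 y hy H hH⟩
  rw [eval_sub, Gr_eval, Gr_eval, show (G + C (t.ϖ ^ a) * H).eval =
    fun y => G.eval y + t.ϖ ^ a * H.eval y from _root_.funext fun y => by
      rw [eval_add, eval_mul, eval_C], e2, add_sub_cancel_left, norm_mul, norm_pow, t.Graf_card]
  refine mul_lt_of_lt_one_right (pow_pos (norm_pos_iff.2 t.pne) a) (Graf_add ?_ e1)
  rw [mul_comm]
  refine Graf_mul ?_ (t.norm_q.trans_lt (t.p_le.trans_lt t.plt))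
  rw [norm_mul]
  exact mul_le_one₀ (hH.eval_le h0) (norm_nonneg _) (Graf_pow (hG.eval_le h0) _)

theorem exists_pf (t : Tw p) : ∃ a, t.PF a := by
  have hp : (0 : ℝ) < p := by exact_mod_cast (Fact.out : p.Prime).pos
  obtain ⟨a, ha⟩ := pow_close (p := p) t.plt (inv_pos.2 hp)
  refine ⟨a, fun F hF => ?_⟩
  have h1 := (hF.tw 1).comp t.ip_f
  refine (hF.pow _).div (h1.pow _) (natCast_mem _ _)
    (Nat.cast_ne_zero.2 (Fact.out : p.Prime).ne_zero) fun i => ?_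
  have h2 : t.Cl 1 (F ^ t.q) ((tw t.σ 1 F).comp t.f) := fun j => by
    refine t.disc_pow (a := 0) (sub_mem (hF.pow _ j).1 (h1 j).1) ?_
    rw [← coeff_sub, pow_zero]
    refine coeff_lt (fun z hz => ?_) j
    rw [eval_sub, eval_pow, eval_comp]
    exact frob_pt hF hz
  rw [norm_p_eq, ← coeff_sub]
  refine coeff_le (fun z hz => ?_) i
  rw [eval_sub, pow_mul, eval_pow, eval_pow (p := (tw t.σ 1 F).comp t.f)]
  exact ha _ _ ((hF.pow _).eval_le hz) (h1.eval_le hz) (by simpa using h2.eval hz)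

end Pool.Agent.Work.MP_dd0d16_nt.W.Tw
end

-- merged part: Pool.Agent.Work.MP_dd0d16_nt.W.Tow2
section
/-!
Components over a lower level and conjugates.

PLAN. `dec`: scale `z` by a power of `ϖ` to norm `≤ 1`, `poly`, `split` with `g = it k`, `it_eval`, `IP.eval_mem` (for `k = 0` take `β 0 = z`; `split` also works). `dec_lt`: `orth_le` with
`s = ξ (m + k)`, `Q = q ^ k` (`val`, `nrm_add`) gives `‖β b‖ * ‖s‖ ^ b ≤ ‖z‖` and `‖ξ m‖ = ‖s‖ ^ Q < ‖s‖ ^ b`. `dec_le`: both `‖β b‖` and `‖ϖ‖ ^ r` are integral powers of `‖ξ m‖`.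
`dec_le'`: `‖ϖ‖ ≤ ‖ξ m‖`. `minpoly_eq`: lift `it k - C (ξ m)` to a monic polynomial over `K m` (`lifts_and_natDegree_eq_and_monic`); it vanishes at `ξ (m + k)` and by `dec_zero` no nonzero polynomial of smaller
degree does (`minpoly.unique'`, `minpoly.min`). `conj`: `exists_conj`. `cj_spec`: `Classical.epsilon_spec`; the minimal polynomial is separable (characteristic zero,
`minpoly.irreducible`, `Irreducible.separable`), its roots are a `Nodup` multiset of cardinality `q`; enumerate them by `Fin q` (`Finset.equivFinOfCardEq`), `conj` with `k = 1`,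
`prod_multiset_X_sub_C_of_monic_of_roots_card_eq` or `Splits.eq_prod_roots_of_monic`. `reps`: choose one `τ` for each root of `it k - C (ξ m)`; `Fx.dec`.
-/

set_option autoImplicit false

namespace Pool.Agent.Work.MP_dd0d16_nt.W.Tw

open Polynomial Finset Filter

variable {p : ℕ} [Fact p.Prime] {t : Tw p}

variable {m k : ℕ} {z w : PadicAlgCl p} {β γ : ℕ → PadicAlgCl p}

theorem Dec.mem (hd : t.Dec m k z β) : z ∈ t.K (m + k) := by
  rw [hd.2]
  exact sum_mem fun b _ => mul_mem (t.mono (Nat.le_add_right m k) (hd.1 b)) (pow_mem (t.xi_mem _) _)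

theorem Dec.add (hd : t.Dec m k z β) (hd' : t.Dec m k w γ) :
    t.Dec m k (z + w) fun b => β b + γ b := by
  refine ⟨fun b => add_mem (hd.1 b) (hd'.1 b), ?_⟩
  rw [hd.2, hd'.2, ← sum_add_distrib]
  simp only [add_mul]

theorem Dec.smul (hd : t.Dec m k z β) (hw : w ∈ t.K m) :
    t.Dec m k (w * z) fun b => w * β b := by
  refine ⟨fun b => mul_mem hw (hd.1 b), ?_⟩
  rw [hd.2, mul_sum]
  simp only [mul_assoc]

theorem Dec.sub (hd : t.Dec m k z β) (hd' : t.Dec m k w γ) :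
    t.Dec m k (z - w) fun b => β b - γ b := by
  refine ⟨fun b => sub_mem (hd.1 b) (hd'.1 b), ?_⟩
  rw [hd.2, hd'.2, ← sum_sub_distrib]
  simp only [sub_mul]

theorem Dec.sum {I : Type} (s : Finset I) {a u : I → PadicAlgCl p} {δ : I → ℕ → PadicAlgCl p}
    (ha : ∀ i, a i ∈ t.K m) (hd : ∀ i, t.Dec m k (u i) (δ i)) :
    t.Dec m k (∑ i ∈ s, a i * u i) fun b => ∑ i ∈ s, a i * δ i b := by
  refine ⟨fun b => sum_mem fun i _ => mul_mem (ha i) ((hd i).1 b), ?_⟩
  simp only [sum_mul, mul_assoc]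
  rw [sum_comm]
  exact sum_congr rfl fun i _ => by rw [(hd i).2, mul_sum]

theorem dec (hz : z ∈ t.K (m + k)) : ∃ β, t.Dec m k z β := by
  obtain ⟨r, hr⟩ := exists_pow_lt_of_lt_one (show 0 < (‖z‖ + 1)⁻¹ by positivity) t.plt
  have hm := t.U_le m (pow_mem t.pmem r)
  obtain ⟨G, hG, -, h1⟩ := t.poly (mul_mem (t.mono (Nat.le_add_right m k) hm) hz) (by
    rw [norm_mul, norm_pow]
    refine (mul_le_mul_of_nonneg_right hr.le (norm_nonneg _)).trans ?_
    rw [inv_mul_le_iff₀ (by positivity)]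
    linarith)
  obtain ⟨Gb, h2, h3⟩ := split (t.ip_it k) (t.it_monic k)
    (by rw [t.it_deg]; exact pow_pos (by have := t.two_le; omega) _) hG
  have h4 : t.Dec m k (t.ϖ ^ r * z) fun b => (Gb b).eval (t.ξ m) := ⟨fun b => (h2 b).eval_mem m, by
    rw [← h1, h3, eval_finsetSum, t.it_deg]
    simp only [eval_mul, eval_comp, t.it_eval, eval_pow, eval_X]⟩
  exact ⟨_, inv_mul_cancel_left₀ (pow_ne_zero r t.pne) z ▸ h4.smul (inv_mem hm)⟩

theorem Dec.lt (hd : t.Dec m k z β) {b : ℕ} (hb : b < t.q ^ k) :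
    β b = 0 ∨ ‖β b‖ * ‖t.ξ m‖ < ‖z‖ := by
  refine (eq_or_ne (β b) 0).imp id fun h0 => ?_
  have h := orth_le (t.ne (m + k)) (t.lt _) (fun j hj => (t.nrm_add m k).symm ▸ t.val (hd.1 j) hj) hb
  rw [← hd.2, norm_mul, norm_pow] at h
  refine lt_of_lt_of_le (mul_lt_mul_of_pos_left ?_ (norm_pos_iff.2 h0)) h
  rw [← t.nrm_add m k]
  exact pow_lt_pow_right_of_lt_one₀ (norm_pos_iff.2 (t.ne _)) (t.lt _) hb

theorem Dec.zero (hd : t.Dec m k 0 β) {b : ℕ} (hb : b < t.q ^ k) : β b = 0 := by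
  exact (hd.lt hb).resolve_right (by rw [norm_zero, not_lt]; positivity)

theorem Dec.le (hd : t.Dec m k z β) {r : ℕ} (hr : ‖z‖ ≤ ‖t.ϖ‖ ^ r) {b : ℕ} (hb : b < t.q ^ k) :
    ‖β b‖ ≤ ‖t.ϖ‖ ^ r := by
  rcases eq_or_ne (β b) 0 with h0 | h0
  · rw [h0, norm_zero]
    positivity
  obtain ⟨ε, hε⟩ := t.val (hd.1 b) h0
  have h1 := ((hd.lt hb).resolve_left h0).trans_le hr
  have h2 := norm_pos_iff.2 (t.ne m)
  rw [hε, ← t.nrm m, ← pow_mul, ← zpow_natCast] at *
  rw [← zpow_add_one₀ h2.ne', zpow_lt_zpow_iff_right_of_lt_one₀ h2 (t.lt m)] at h1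
  exact zpow_le_zpow_right_of_le_one₀ h2 (t.lt m).le (by omega)

theorem Dec.le' (hd : t.Dec m k z β) {b : ℕ} (hb : b < t.q ^ k) : ‖t.ϖ‖ * ‖β b‖ ≤ ‖z‖ := by
  rcases hd.lt hb with h | h
  · rw [h, norm_zero, mul_zero]
    exact norm_nonneg _
  · refine le_trans ?_ h.le
    rw [mul_comm]
    refine mul_le_mul_of_nonneg_left ?_ (norm_nonneg _)
    simpa using t.nrm_ge (n := m) (a := 1) (Nat.one_le_pow _ _ (by have := t.two_le; omega))

theorem minpoly_eq (t : Tw p) (m k : ℕ) :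
    (minpoly (t.K m) (t.ξ (m + k))).map (algebraMap (t.K m) (PadicAlgCl p)) =
      t.it k - C (t.ξ m) := by
  have hq : 0 < (t.it k).natDegree := by
    rw [t.it_deg]
    exact pow_pos (by have := t.two_le; omega) _
  obtain ⟨Q, h1, h2, h3⟩ := lifts_and_natDegree_eq_and_monic
    (f := algebraMap (t.K m) (PadicAlgCl p)) (p := t.it k - C (t.ξ m))
    ((lifts_iff_coeff_lifts _).2 fun i => ⟨⟨(t.it k - C (t.ξ m)).coeff i, by
        rw [coeff_sub, coeff_C]
        refine sub_mem (t.U_le m (t.ip_it k i).1) ?_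
        split_ifs
        exacts [t.xi_mem m, zero_mem _]⟩, rfl⟩)
    ((t.it_monic k).sub_of_left (degree_C_le.trans_lt (natDegree_pos_iff_degree_pos.1 hq)))
  rw [natDegree_sub_C, t.it_deg] at h2
  rw [← h1, minpoly.unique' (t.K m) (t.ξ (m + k)) h3 (by
    rw [← eval_map_algebraMap, h1, eval_sub, t.it_eval, eval_C, sub_self]) fun R hR => ?_]
  refine or_iff_not_imp_right.2 fun h4 => by_contra fun h0 => ?_
  have h5 := h2 ▸ natDegree_lt_natDegree h0 hR
  rw [not_not, aeval_eq_sum_range' h5] at h4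
  exact leadingCoeff_ne_zero.2 h0 (Subtype.ext (Dec.zero (β := fun b => R.coeff b)
    ⟨fun b => (R.coeff b).2, h4.symm⟩ h5))

theorem minpoly_deg (t : Tw p) (m k : ℕ) :
    (minpoly (t.K m) (t.ξ (m + k))).natDegree = t.q ^ k := by
  rw [← natDegree_map (algebraMap (t.K m) (PadicAlgCl p)), t.minpoly_eq, natDegree_sub_C, t.it_deg]

theorem conj {y : PadicAlgCl p} (hy : (t.it k).eval y = t.ξ m) :
    ∃ τ : Aut p, t.Fx m τ ∧ τ (t.ξ (m + k)) = y := by
  exact exists_conj (t.K m) (by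
    rw [← eval_map_algebraMap, t.minpoly_eq, eval_sub, hy, eval_C, sub_self])

theorem Fx.mono {τ : Aut p} {n : ℕ} (hτ : t.Fx n τ) (h : m ≤ n) : t.Fx m τ := by
  exact fun z hz => hτ z (t.mono h hz)

theorem Fx.it {τ : Aut p} (hτ : t.Fx m τ) (k : ℕ) : (t.it k).eval (τ (t.ξ (m + k))) = t.ξ m := by
  rw [← (t.ip_it k).map_fix fun u hu => hτ u (t.U_le m hu), t.it_eval, hτ _ (t.xi_mem m)]

theorem Fx.f {τ : Aut p} (hτ : t.Fx m τ) : t.f.eval (τ (t.ξ (m + 1))) = t.ξ m := by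
  rw [← t.ip_f.map_fix fun u hu => hτ u (t.U_le m hu), t.step, hτ _ (t.xi_mem m)]

theorem Fx.dec {τ : Aut p} (hτ : t.Fx m τ) (hd : t.Dec m k z β) :
    τ z = ∑ b ∈ range (t.q ^ k), β b * τ (t.ξ (m + k)) ^ b := by
  rw [hd.2, map_sum]
  exact sum_congr rfl fun b _ => by rw [map_mul, map_pow, hτ _ (hd.1 b)]

theorem cj_spec (t : Tw p) (n : ℕ) : t.Cjs n (t.cj n) := by
  classical
  refine Classical.epsilon_spec (p := t.Cjs n) ?_
  have hi : IsIntegral (t.K n) (t.ξ (n + 1)) := Algebra.IsIntegral.isIntegral _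
  have h1 := t.minpoly_eq n 1
  rw [t.it_succ, t.it_zero, comp_X] at h1
  have h2 : (t.f - C (t.ξ n)).roots.Nodup := h1 ▸ nodup_roots (minpoly.irreducible hi).separable.map
  have h3 : (t.f - C (t.ξ n)).roots.toFinset.card = t.q := by
    rw [Multiset.toFinset_card_of_nodup h2, ← (IsAlgClosed.splits _).natDegree_eq_card_roots,
      natDegree_sub_C, t.degq]
  let e := (Finset.equivFinOfCardEq h3).symm
  choose τ h4 h5 using fun i => conj (t := t) (m := n) (k := 1) (y := e i) (by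
    simpa [t.it_succ, t.it_zero, sub_eq_zero] using
      isRoot_of_mem_roots (Multiset.mem_toFinset.1 (e i).2))
  refine ⟨τ, h4, fun i j h => e.injective (Subtype.ext (by simpa only [h5] using h)), ?_⟩
  simp only [h5]
  rw [e.prod_comp fun y => X - C (y : PadicAlgCl p), prod_coe_sort _ fun y => X - C y,
    prod_eq_multiset_prod, Multiset.toFinset_val, h2.dedup]
  exact (IsAlgClosed.splits _).eq_prod_roots_of_monic (h1 ▸ (minpoly.monic hi).map _)

theorem reps (t : Tw p) (m k : ℕ) : ∃ s : Finset (Aut p), (∀ τ ∈ s, t.Fx m τ) ∧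
    ∀ τ, t.Fx m τ → ∃ τ' ∈ s, ∀ z ∈ t.K (m + k), τ' z = τ z := by
  classical
  choose τ h1 h2 using fun (y : (t.it k - C (t.ξ m)).roots.toFinset) => conj (t := t) (m := m)
    (k := k) (y := y) (by simpa [sub_eq_zero] using isRoot_of_mem_roots (Multiset.mem_toFinset.1 y.2))
  refine ⟨univ.image τ, fun ρ hρ => ?_, fun ρ hρ => ?_⟩
  · obtain ⟨y, -, rfl⟩ := mem_image.1 hρ
    exact h1 y
  · refine ⟨τ ⟨ρ (t.ξ (m + k)), Multiset.mem_toFinset.2 ((mem_roots ?_).2 ?_)⟩,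
      mem_image_of_mem _ (mem_univ _), fun z hz => ?_⟩
    · rw [← t.minpoly_eq]
      exact Polynomial.map_ne_zero (minpoly.ne_zero (Algebra.IsIntegral.isIntegral _))
    · rw [IsRoot, eval_sub, hρ.it, eval_C, sub_self]
    · obtain ⟨β, hβ⟩ := dec hz
      rw [(h1 _).dec hβ, hρ.dec hβ, h2]

end Pool.Agent.Work.MP_dd0d16_nt.W.Tw
end

-- merged part: Pool.Agent.Work.MP_dd0d16_nt.W.Tr
section
/-!
Traces.

PLAN. `tr_mem`: decompose `z` over level `n` (`dec` with `k = 1`, `Fx.dec`); the power sums `∑ i, (cj n i ξ) ^ b` are fixed by every `τ` that fixes level `n` (`mem_of_fix`), since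
`τ` permutes the roots of `f - C (ξ n)` (the injective map `i ↦ τ (cj n i ξ)` lands in the image of `i ↦ cj n i ξ`; or map the product formula of `cj_spec` by `τ` and compare `roots`).
`tr_one`: for `‖z‖ ≤ 1`, `z = G (ξ (n + 1))` (`poly`), `tr z = q * z + ∑ (cj z - z)`, `IP.map_fix`, `IP.eval_sub`, `Fx.f`, `root_close`, `norm_q`, `p_le`, `nrm_ge`.
`tr_lt`: scale `z ≠ 0` by a power of `ξ n` so that `‖ξ n‖ < ‖z‖ ≤ 1` (`exists_mem_Ioc_zpow`); for `2 ≤ n`, `‖ξ 1‖ / ‖ξ n‖ ≤ ‖ξ 1‖ / ‖ξ 2‖ < 1` (`nrm_add`, `nrm_mono`).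
`down`: induction on `r`: `T 0 = id`, `T (r + 1) = T r ∘ tr (l + r)`. `pick`: `r = r' + 1` with `κ ^ r' ≤ ε`, `T` from `down (l + 1) r'`, `φ z = q * T z - tr l (T z)`.
-/

set_option autoImplicit false

namespace Pool.Agent.Work.MP_dd0d16_nt.W.Tw

open Polynomial Finset Filter

variable {p : ℕ} [Fact p.Prime] {t : Tw p}

variable {n : ℕ} {a z w : PadicAlgCl p}

theorem tr_add (t : Tw p) (n : ℕ) (z w : PadicAlgCl p) : t.tr n (z + w) = t.tr n z + t.tr n w := by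
  simp only [tr, map_add, sum_add_distrib]

theorem tr_smul (ha : a ∈ t.K n) (z : PadicAlgCl p) : t.tr n (a * z) = a * t.tr n z := by
  rw [tr, tr, mul_sum]
  exact sum_congr rfl fun i _ => by rw [map_mul, (t.cj_spec n).1 i a ha]

theorem tr_of_mem (ha : a ∈ t.K n) : t.tr n a = t.q * a := by
  rw [tr, sum_congr rfl fun i _ => (t.cj_spec n).1 i a ha]
  simp

theorem tr_le (t : Tw p) (n : ℕ) (z : PadicAlgCl p) : ‖t.tr n z‖ ≤ ‖z‖ :=
  IsUltrametricDist.norm_sum_le_of_forall_le_of_nonneg (norm_nonneg _) fun _ _ =>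
    (T.norm_aut _ _).le

theorem Tr_roots {I : Type} [Fintype I] (g : I → PadicAlgCl p) :
    (∏ i, (X - C (g i))).roots = univ.val.map g := by
  rw [prod_eq_multiset_prod, ← roots_multiset_prod_X_sub_C (univ.val.map g), Multiset.map_map]
  rfl

theorem tr_mem (hz : z ∈ t.K (n + 1)) : t.tr n z ∈ t.K n := by
  obtain ⟨β, hβ⟩ := dec (k := 1) hz
  obtain ⟨c1, -, c3⟩ := t.cj_spec n
  rw [tr, sum_congr rfl fun i _ => (c1 i).dec hβ, sum_comm]
  refine sum_mem fun b _ => ?_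
  rw [← mul_sum]
  refine mul_mem (hβ.1 b) (mem_of_fix fun τ hτ => ?_)
  have h1 := congrArg (Polynomial.map (τ : PadicAlgCl p →+* PadicAlgCl p)) c3
  rw [Polynomial.map_sub, map_C, show t.f.map (τ : PadicAlgCl p →+* PadicAlgCl p) = t.f from
    Polynomial.ext fun j => by rw [coeff_map]; exact hτ _ (t.U_le n (t.mem j)),
    show (τ : PadicAlgCl p →+* PadicAlgCl p) (t.ξ n) = t.ξ n from hτ _ (t.xi_mem n), c3,
    Polynomial.map_prod] at h1
  simp only [Polynomial.map_sub, map_X, map_C] at h1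
  have h2 := congrArg (fun G => (G.roots.map (· ^ b)).sum) h1
  simp only [Tr_roots, Multiset.map_map] at h2
  rw [map_sum]
  simp only [map_pow]
  exact h2.symm

theorem tr_one (hz : z ∈ t.K (n + 1)) (h1 : ‖z‖ ≤ 1) : ‖t.tr n z‖ ≤ ‖t.ξ 1‖ := by
  obtain ⟨G, hG, -, rfl⟩ := t.poly hz h1
  have c1 := (t.cj_spec n).1
  rw [show t.tr n (G.eval (t.ξ (n + 1))) = t.q * G.eval (t.ξ (n + 1)) +
    ∑ i, (t.cj n i (G.eval (t.ξ (n + 1))) - G.eval (t.ξ (n + 1))) by simp [tr]]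
  refine (IsUltrametricDist.norm_add_le_max _ _).trans (max_le ?_
    (IsUltrametricDist.norm_sum_le_of_forall_le_of_nonneg (norm_nonneg _) fun i _ => ?_))
  · rw [norm_mul]
    refine (mul_le_of_le_one_right (norm_nonneg _) h1).trans (t.norm_q.trans (t.p_le.trans ?_))
    simpa using t.nrm_ge (n := 1) (a := 1) (by have := t.two_le; rw [pow_one]; omega)
  · rw [hG.map_fix fun u hu => c1 i u (t.U_le n hu)]
    exact (hG.eval_sub ((T.norm_aut _ _).trans_le (t.lt _).le) (t.lt _).le).trans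
      (t.root_close (by rw [(c1 i).f]; exact (t.lt n).le) (by rw [(c1 i).f, t.step]))

theorem tr_lt (t : Tw p) : ∃ κ : ℝ, 0 ≤ κ ∧ κ < 1 ∧ ∀ n, 2 ≤ n → ∀ z ∈ t.K (n + 1),
    ‖t.tr n z‖ ≤ κ * ‖z‖ := by
  have h0 : ∀ n, 0 < ‖t.ξ n‖ := fun n => norm_pos_iff.2 (t.ne n)
  refine ⟨‖t.ξ 1‖ / ‖t.ξ 2‖, by positivity, (div_lt_one (h0 2)).2 ?_, fun n hn z hz => ?_⟩
  · rw [← t.nrm_add 1 1]
    exact pow_lt_self_of_lt_one₀ (h0 2) (t.lt 2) (by have := t.two_le; rw [pow_one]; omega)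
  rcases eq_or_ne z 0 with rfl | hz0
  · simp [tr]
  obtain ⟨r, r1, r2⟩ := exists_mem_Ioc_zpow (norm_pos_iff.2 hz0) ((one_lt_inv₀ (h0 n)).2 (t.lt n))
  have h1 : 0 < ‖t.ξ n‖ ^ (r + 1) := zpow_pos (h0 n) _
  have h2 := tr_one (mul_mem (t.mono (Nat.le_succ n) (zpow_mem (t.xi_mem n) (r + 1))) hz) (by
    rwa [norm_mul, norm_zpow, ← le_inv_mul_iff₀ h1, mul_one, ← inv_zpow])
  rw [tr_smul (zpow_mem (t.xi_mem n) _), norm_mul, norm_zpow] at h2
  rw [inv_zpow, inv_lt_iff_one_lt_mul₀ (zpow_pos (h0 n) _)] at r1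
  refine le_of_mul_le_mul_left (h2.trans ?_) h1
  rw [zpow_add_one₀ (h0 n).ne']
  calc ‖t.ξ 1‖ = ‖t.ξ 1‖ / ‖t.ξ 2‖ * ‖t.ξ 2‖ * 1 := by field_simp [(h0 2).ne']
    _ ≤ ‖t.ξ 1‖ / ‖t.ξ 2‖ * ‖t.ξ n‖ * (‖z‖ * ‖t.ξ n‖ ^ r) := by
      have := t.nrm_mono hn
      gcongr
    _ = _ := by ring

theorem Tr_hom (t : Tw p) (n : ℕ) : ∃ ψ : PadicAlgCl p →+ PadicAlgCl p, ∀ z, ψ z = t.tr n z :=
  ⟨AddMonoidHom.mk' (t.tr n) (t.tr_add n), fun _ => rfl⟩

theorem down {κ : ℝ} (h0 : 0 ≤ κ) (hκ : ∀ n, 2 ≤ n → ∀ z ∈ t.K (n + 1), ‖t.tr n z‖ ≤ κ * ‖z‖)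
    {l : ℕ} (hl : 2 ≤ l) (r : ℕ) : ∃ φ : PadicAlgCl p →+ PadicAlgCl p,
      (∀ a ∈ t.K l, ∀ z, φ (a * z) = a * φ z) ∧ φ 1 = t.q ^ r ∧
      (∀ z ∈ t.K (l + r), φ z ∈ t.K l ∧ ‖φ z‖ ≤ κ ^ r * ‖z‖) ∧
      ∀ j, l ≤ j → j < l + r → ∀ y ∈ t.K (j + 1), t.tr j y = 0 → φ y = 0 := by
  induction r with
  | zero => exact ⟨AddMonoidHom.id _, fun _ _ _ => rfl, by simp, fun z hz => ⟨hz, by simp⟩,
      fun j _ _ => by omega⟩
  | succ r ih =>
    obtain ⟨φ, h1, h2, h3, h4⟩ := ih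
    obtain ⟨ψ, hψ⟩ := t.Tr_hom (l + r)
    refine ⟨φ.comp ψ, fun a ha z => ?_, ?_, fun z hz => ?_, fun j j1 j2 y hy h => ?_⟩ <;>
      simp only [AddMonoidHom.comp_apply, hψ]
    · rw [tr_smul (t.mono (by omega) ha), h1 a ha]
    · rw [tr_of_mem (one_mem _), h1 _ (natCast_mem _ _), h2, pow_succ']
    · refine ⟨(h3 _ (tr_mem hz)).1, (h3 _ (tr_mem hz)).2.trans ?_⟩
      rw [pow_succ, mul_assoc]
      exact mul_le_mul_of_nonneg_left (hκ _ (by omega) z hz) (by positivity)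
    · rcases eq_or_ne j (l + r) with rfl | hj
      · rw [h, map_zero]
      · rw [tr_of_mem (t.mono (by omega) hy), h1 _ (natCast_mem _ _), h4 j j1 (by omega) y hy h,
          mul_zero]

theorem pick (t : Tw p) {ε : ℝ} (hε : 0 < ε) : ∃ r : ℕ, 0 < r ∧ ∀ l, 2 ≤ l →
    ∃ φ : PadicAlgCl p →+ PadicAlgCl p, (∀ a ∈ t.K l, ∀ z, φ (a * z) = a * φ z) ∧ φ 1 = 0 ∧
      (∀ z ∈ t.K (l + r), ‖φ z‖ ≤ ε * ‖z‖) ∧
      (∀ y ∈ t.K (l + 1), t.tr l y = 0 → φ y = t.q ^ r * y) ∧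
      ∀ j, l < j → j < l + r → ∀ y ∈ t.K (j + 1), t.tr j y = 0 → φ y = 0 := by
  obtain ⟨κ, k0, k1, hκ⟩ := t.tr_lt
  obtain ⟨r, hr⟩ := exists_pow_lt_of_lt_one hε k1
  refine ⟨r + 1, r.succ_pos, fun l hl => ?_⟩
  obtain ⟨φ, h1, h2, h3, h4⟩ := down k0 hκ (l := l + 1) (by omega) r
  obtain ⟨ψ, hψ⟩ := t.Tr_hom l
  refine ⟨(AddMonoidHom.mulLeft (t.q : PadicAlgCl p) - ψ).comp φ, fun a ha z => ?_, ?_,
    fun z hz => ?_, fun y hy h => ?_, fun j j1 j2 y hy h => ?_⟩ <;>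
    simp only [AddMonoidHom.comp_apply, AddMonoidHom.sub_apply, AddMonoidHom.coe_mulLeft, hψ]
  · rw [h1 a (t.mono (by omega) ha), tr_smul ha]
    ring
  · rw [h2, tr_of_mem (pow_mem (natCast_mem _ _) _), sub_self]
  · have h5 := ((h3 z (t.mono (by omega) hz)).2).trans
      (mul_le_mul_of_nonneg_right hr.le (norm_nonneg _))
    rw [sub_eq_add_neg]
    refine (IsUltrametricDist.norm_add_le_max _ _).trans (max_le ?_ ?_)
    · exact (norm_mul_le _ _).trans ((mul_le_of_le_one_left (norm_nonneg _)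
        (IsUltrametricDist.norm_natCast_le_one _ _)).trans h5)
    · rw [norm_neg]
      exact (t.tr_le _ _).trans h5
  · rw [← mul_one y, h1 y hy, h2, mul_comm y, tr_smul (pow_mem (natCast_mem _ _) _), h]
    ring
  · rw [h4 j j1 (by omega) y hy h, tr_of_mem (zero_mem _), sub_self]

end Pool.Agent.Work.MP_dd0d16_nt.W.Tw
end

-- merged part: Pool.Agent.Work.MP_dd0d16_nt.W.LogP
section
/-!
Estimates for the logarithm.

PLAN. The terms of the series `hL.2.2` have norm `‖w‖ ^ (i + 1) / ‖i + 1‖` and `‖(n : PadicAlgCl p)‖ = p⁻¹ ^ v` with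
`v = padicValNat p n`, `2 * v ≤ n` and `v < n` for `n ≠ 0` (`p ^ v ∣ n`, `2 ^ v ≤ n`). Bound a `HasSum` in an ultrametric space by a bound of the terms
(`IsUltrametricDist.norm_tsum_le_of_forall_le`, or `le_of_tendsto'` with `IsUltrametricDist.norm_sum_le_of_forall_le`; see `T.BLog_est` and Finite.lean; tails by
`hasSum_nat_add_iff'`). `log_trunc`: the fourth power of the term `n = i + 1 > 4 r` is at most `p⁻¹ ^ (3 n - 4 v) ≤ p⁻¹ ^ n`.
`log_mem`: `T.log_aut` and `mem_of_fix`.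
-/

set_option autoImplicit false

namespace Pool.Agent.Work.MP_dd0d16_nt.W

open Polynomial Finset

variable {p : ℕ} [Fact p.Prime] {L : PadicAlgCl p → PadicAlgCl p}

theorem LogP_pos : (0 : ℝ) < (p : ℝ)⁻¹ := inv_pos.2 (zero_lt_one.trans T.Ram_one_lt)

theorem LogP_val (i : ℕ) : ∃ v : ℕ, ‖(i : PadicAlgCl p) + 1‖ = (p : ℝ)⁻¹ ^ v ∧
    2 * v ≤ i + 1 ∧ v ≤ i := by
  have hp : p.Prime := Fact.out
  obtain ⟨e, m, h1, h2⟩ := Nat.exists_eq_pow_mul_and_not_dvd (Nat.succ_ne_zero i) p hp.ne_one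
  have h3 : 2 ^ e ≤ i + 1 := (Nat.pow_le_pow_left hp.two_le e).trans
    (Nat.le_of_dvd i.succ_pos ⟨m, h2⟩)
  refine ⟨e, ?_, (Nat.mul_le_pow (by norm_num) e).trans h3,
    Nat.lt_succ_iff.1 (Nat.lt_two_pow_self.trans_le h3)⟩
  rw [← Nat.cast_succ, h2, Nat.cast_mul, Nat.cast_pow, norm_mul, norm_pow, norm_p_eq, T.Ram_nat h1,
    mul_one]

theorem LogP_term (w : PadicAlgCl p) (i : ℕ) {C : ℝ}
    (h : ∀ v : ℕ, 2 * v ≤ i + 1 → v ≤ i → ‖w‖ ^ (i + 1) ≤ C * (p : ℝ)⁻¹ ^ v) :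
    ‖(-1) ^ i * w ^ (i + 1) / ((i : PadicAlgCl p) + 1)‖ ≤ C := by
  obtain ⟨v, h1, h2, h3⟩ := LogP_val (p := p) i
  rw [norm_div, norm_mul, norm_pow, norm_pow, norm_neg, norm_one, one_pow, one_mul, h1,
    div_le_iff₀ (pow_pos LogP_pos v)]
  exact h v h2 h3

theorem LogP_sum {f : ℕ → PadicAlgCl p} {a : PadicAlgCl p} {C : ℝ} (h : HasSum f a)
    (hb : ∀ i, ‖f i‖ ≤ C) : ‖a‖ ≤ C :=
  h.tsum_eq ▸ IsUltrametricDist.norm_tsum_le_of_forall_le hb

theorem norm_pow_div (i : ℕ) : ‖(p : PadicAlgCl p) ^ (i + 1) / ((i : PadicAlgCl p) + 1)‖ ≤ 1 := by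
  have h := LogP_term (p : PadicAlgCl p) i (C := 1) fun v _ h => by
    rw [norm_p_eq, one_mul]
    exact pow_le_pow_of_le_one LogP_pos.le T.Ram_inv_lt.le (by omega)
  rwa [mul_div_assoc, norm_mul, norm_pow, norm_neg, norm_one, one_pow, one_mul] at h

theorem log_le_one (hL : IsLog L) {w : PadicAlgCl p} (hw : ‖w‖ ^ 2 ≤ (p : ℝ)⁻¹) :
    ‖L (1 + w)‖ ≤ 1 := by
  have h1 : ‖w‖ < 1 := lt_of_pow_lt_pow_left₀ 2 zero_le_one
    (by rw [one_pow]; exact hw.trans_lt T.Ram_inv_lt)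
  refine LogP_sum (hL.2.2 w h1) fun i => LogP_term w i fun v h _ => ?_
  rw [one_mul]
  refine (pow_le_pow_of_le_one (norm_nonneg w) h1.le h).trans ?_
  rw [pow_mul]
  exact pow_le_pow_left₀ (sq_nonneg _) hw v

theorem log_le_self (hL : IsLog L) {w : PadicAlgCl p} (hw : ‖w‖ ≤ (p : ℝ)⁻¹) :
    ‖L (1 + w)‖ ≤ ‖w‖ := by
  refine LogP_sum (hL.2.2 w (hw.trans_lt T.Ram_inv_lt)) fun i => LogP_term w i fun v _ h => ?_
  rw [pow_succ']
  exact mul_le_mul_of_nonneg_left ((pow_le_pow_left₀ (norm_nonneg w) hw i).trans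
    (pow_le_pow_of_le_one LogP_pos.le T.Ram_inv_lt.le h)) (norm_nonneg w)

theorem log_close (hL : IsLog L) {a b : PadicAlgCl p} (ha : ‖a‖ = 1) (h : ‖a - b‖ ≤ (p : ℝ)⁻¹) :
    ‖L a - L b‖ ≤ ‖a - b‖ := by
  have a0 : a ≠ 0 := norm_ne_zero_iff.1 (ha ▸ one_ne_zero)
  have e : ‖(b - a) / a‖ = ‖a - b‖ := by rw [norm_div, ha, div_one, norm_sub_rev]
  have w0 : 1 + (b - a) / a ≠ 0 := fun k => by
    have k2 : ‖(b - a) / a‖ = 1 := by rw [eq_neg_of_add_eq_zero_right k, norm_neg, norm_one]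
    exact (h.trans_lt T.Ram_inv_lt).ne (e ▸ k2)
  have e2 : b = a * (1 + (b - a) / a) := by
    rw [mul_add, mul_one, mul_div_cancel₀ _ a0, add_sub_cancel]
  have e3 : L b = L a + L (1 + (b - a) / a) := by rw [← hL.1 _ _ a0 w0, ← e2]
  rw [e3, sub_add_cancel_left, norm_neg, ← e]
  exact log_le_self hL (e ▸ h)

theorem log_trunc (hL : IsLog L) {w : PadicAlgCl p} (hw : ‖w‖ ^ 4 ≤ (p : ℝ)⁻¹ ^ 3) (r : ℕ) :
    ‖L (1 + w) - ∑ i ∈ range (4 * r), (-1) ^ i * w ^ (i + 1) / ((i : PadicAlgCl p) + 1)‖ ≤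
      (p : ℝ)⁻¹ ^ r := by
  have q0 := (LogP_pos (p := p)).le
  have q1 := (T.Ram_inv_lt (p := p)).le
  have h1 : ‖w‖ < 1 := lt_of_pow_lt_pow_left₀ 4 zero_le_one
    (by rw [one_pow]; exact hw.trans_lt (pow_lt_one₀ q0 T.Ram_inv_lt three_ne_zero))
  refine LogP_sum ((hasSum_nat_add_iff' (4 * r)).2 (hL.2.2 w h1)) fun i =>
    LogP_term w _ fun v h _ => ?_
  refine le_of_pow_le_pow_left₀ four_ne_zero (by positivity) ?_
  rw [← pow_mul, mul_comm _ 4, pow_mul, ← pow_add, ← pow_mul (p : ℝ)⁻¹]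
  refine (pow_le_pow_left₀ (by positivity) hw _).trans ?_
  rw [← pow_mul]
  exact pow_le_pow_of_le_one q0 q1 (by omega)

theorem log_mul (hL : IsLog L) {a b : PadicAlgCl p} (ha : a ≠ 0) (hb : b ≠ 0) :
    L (a * b) = L a + L b := hL.1 a b ha hb

theorem LogP_inv (hL : IsLog L) {a : PadicAlgCl p} (ha : a ≠ 0) : L a⁻¹ = -L a := by
  have h := hL.1 a a⁻¹ ha (inv_ne_zero ha)
  rw [mul_inv_cancel₀ ha, T.log_one hL] at h
  exact eq_neg_of_add_eq_zero_right h.symm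

theorem log_zpow (hL : IsLog L) {a : PadicAlgCl p} (ha : a ≠ 0) (n : ℤ) : L (a ^ n) = n * L a := by
  obtain ⟨m, rfl | rfl⟩ := n.eq_nat_or_neg
  · rw [zpow_natCast, T.log_pow hL ha, Int.cast_natCast]
  · rw [zpow_neg, zpow_natCast, LogP_inv hL (pow_ne_zero _ ha), T.log_pow hL ha, Int.cast_neg,
      Int.cast_natCast, neg_mul]

theorem log_div (hL : IsLog L) {a b : PadicAlgCl p} (ha : a ≠ 0) (hb : b ≠ 0) :
    L (a / b) = L a - L b := by
  rw [div_eq_mul_inv, hL.1 _ _ ha (inv_ne_zero hb), LogP_inv hL hb, sub_eq_add_neg]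

theorem log_neg (hL : IsLog L) {a : PadicAlgCl p} (ha : a ≠ 0) : L (-a) = L a := by
  have h := T.log_pow hL (neg_ne_zero.2 ha) 2
  rw [neg_sq, T.log_pow hL ha] at h
  exact (mul_left_cancel₀ (Nat.cast_ne_zero.2 two_ne_zero) h).symm

theorem log_mem (hL : IsLog L) {F : IntermediateField ℚ_[p] (PadicAlgCl p)} {z : PadicAlgCl p}
    (hz : z ∈ F) (h0 : z ≠ 0) : L z ∈ F :=
  mem_of_fix fun τ h => by rw [← T.log_aut hL τ h0, h z hz]

end Pool.Agent.Work.MP_dd0d16_nt.W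
end

-- merged part: Pool.Agent.Work.MP_dd0d16_nt.W.NSys
section
/-!
Norm-compatible systems.

PLAN. `NormSys.ns`: `Algebra.norm_eq_prod_embeddings` for `(K n)⟮ξ (n+1)⟯` into the algebraically closed field; the `cj n i` restrict to `q` distinct embeddings over `K n`
(`cj_spec`) and there are `q` embeddings (`AlgHom.card`, `adjoin.finrank`, `minpoly_deg` with `k = 1`); `Fintype.prod_bijective`. `NS.tau`: evaluate the product formula of
`cj_spec` at `0`. `NS.nrm`: `T.norm_aut`. `NS.unit`: `ε` from `val` at level `0`; `‖x n‖ ^ q ^ n = ‖x 0‖`, `nrm_add`. `NS.yl_tr`: `T.log_aut`, `T.log_prod`, `tr_smul`, `tr_of_mem`.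
-/

set_option autoImplicit false

namespace Pool.Agent.Work.MP_dd0d16_nt.W.Tw

open Polynomial Finset Filter

variable {p : ℕ} [Fact p.Prime] {t : Tw p}

variable {L : PadicAlgCl p → PadicAlgCl p} {x y : ℕ → PadicAlgCl p}

theorem _root_.Pool.Agent.Work.MP_dd0d16_nt.W.NormSys.ns (hx : NormSys t.U t.ξ x) : t.NS x := by
  refine fun n => ⟨(hx n).1, (hx n).2.1, ?_⟩
  obtain ⟨h, h1⟩ := (hx n).2.2.2
  obtain ⟨c1, c2, -⟩ := t.cj_spec n
  have hi : IsIntegral (t.K n) (t.ξ (n + 1)) := Algebra.IsIntegral.isIntegral _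
  have := IntermediateField.adjoin.finiteDimensional hi
  let e : Fin t.q → (IntermediateField.adjoin (t.K n) {t.ξ (n + 1)} →ₐ[t.K n] PadicAlgCl p) :=
    fun i => ⟨(t.cj n i : PadicAlgCl p →+* PadicAlgCl p).comp (algebraMap _ _), fun r => c1 i r r.2⟩
  have he : Function.Bijective e := (Fintype.bijective_iff_injective_and_card e).2
    ⟨fun i j hij => c2 (AlgHom.congr_fun hij ⟨_, IntermediateField.mem_adjoin_simple_self _ _⟩), by
      rw [AlgHom.card, IntermediateField.adjoin.finrank hi, t.minpoly_deg, pow_one, Fintype.card_fin]⟩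
  exact (Fintype.prod_bijective e he _ _ fun _ => rfl).trans
    ((Algebra.norm_eq_prod_embeddings (t.K n) (PadicAlgCl p)
      (⟨_, h⟩ : IntermediateField.adjoin (t.K n) {t.ξ (n + 1)})).symm.trans h1)

theorem NS.mul (hx : t.NS x) (hy : t.NS y) : t.NS fun n => x n * y n := by
  refine fun n => ⟨mul_mem (hx n).1 (hy n).1, mul_ne_zero (hx n).2.1 (hy n).2.1, ?_⟩
  simp only [map_mul, prod_mul_distrib, (hx n).2.2, (hy n).2.2]

theorem NS.zpow (hx : t.NS x) (a : ℤ) : t.NS fun n => x n ^ a := by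
  refine fun n => ⟨zpow_mem (hx n).1 a, zpow_ne_zero a (hx n).2.1, ?_⟩
  simp only [map_zpow₀, prod_zpow, (hx n).2.2]

theorem NS.pow (hx : t.NS x) (a : ℕ) : t.NS fun n => x n ^ a := by
  simpa only [zpow_natCast] using hx.zpow a

theorem NS.tau (t : Tw p) : t.NS fun n => -t.ξ n := by
  refine fun n => ⟨neg_mem (t.xi_mem n), neg_ne_zero.2 (t.ne n), ?_⟩
  have h := congrArg (eval 0) (t.cj_spec n).2.2
  rw [eval_sub, ← coeff_zero_eq_eval_zero, t.c0, eval_C, zero_sub, eval_prod] at h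
  simpa only [map_neg, eval_sub, eval_X, eval_C, zero_sub] using h.symm

theorem NS.nrm (hx : t.NS x) (n : ℕ) : ‖x (n + 1)‖ ^ t.q = ‖x n‖ := by
  rw [← (hx n).2.2, norm_prod]
  simp [T.norm_aut]

theorem NS.unit (hx : t.NS x) : ∃ (ε : ℤ) (u : ℕ → PadicAlgCl p), t.NS u ∧
    (∀ n, ‖u n‖ = 1) ∧ ∀ n, x n = (-t.ξ n) ^ ε * u n := by
  obtain ⟨ε, hε⟩ := t.val (hx 0).1 (hx 0).2.1
  have h := hx.mul ((NS.tau t).zpow (-ε))
  refine ⟨ε, _, h, fun n => ?_, fun n => ?_⟩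
  · induction n with
    | zero =>
      rw [norm_mul, norm_zpow, norm_neg, hε, zpow_neg,
        mul_inv_cancel₀ (zpow_ne_zero _ (norm_ne_zero_iff.2 (t.ne 0)))]
    | succ n ih =>
      exact (pow_eq_one_iff_of_nonneg (norm_nonneg _) (by have := t.two_le; omega)).1
        ((h.nrm n).trans ih)
  · rw [zpow_neg, mul_comm, inv_mul_cancel_right₀ (zpow_ne_zero _ (neg_ne_zero.2 (t.ne n)))]

theorem NS.log_mem (hL : IsLog L) (hx : t.NS x) (n : ℕ) : L (x n) ∈ t.K n := by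
  exact W.log_mem hL (hx n).1 (hx n).2.1

theorem NS.yl_mem (hL : IsLog L) (hx : t.NS x) (j : ℕ) : t.Yl L x j ∈ t.K (j + 1) := by
  exact sub_mem (mul_mem (natCast_mem _ _) (hx.log_mem hL _))
    (t.mono (Nat.le_succ j) (hx.log_mem hL _))

theorem NS.yl_eq (hL : IsLog L) (hx : t.NS x) (j : ℕ) :
    t.Yl L x j = L (x (j + 1) ^ t.q / x j) := by
  rw [log_div hL (pow_ne_zero _ (hx _).2.1) (hx _).2.1, T.log_pow hL (hx _).2.1, Yl]

theorem NS.yl_pow (hL : IsLog L) (hx : t.NS x) (a j : ℕ) :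
    t.Yl L (fun n => x n ^ a) j = a * t.Yl L x j := by
  rw [Yl, Yl, T.log_pow hL (hx _).2.1, T.log_pow hL (hx _).2.1]
  ring

theorem NS.yl_tr (hL : IsLog L) (hx : t.NS x) (j : ℕ) : t.tr j (t.Yl L x j) = 0 := by
  have h : t.tr j (L (x (j + 1))) = L (x j) := by
    rw [← (hx j).2.2, T.log_prod hL _ _ fun i => (_root_.map_ne_zero _).2 (hx _).2.1]
    exact sum_congr rfl fun i _ => (T.log_aut hL _ (hx _).2.1).symm
  rw [Yl, sub_eq_add_neg, t.tr_add, tr_smul (natCast_mem _ _), h,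
    tr_of_mem (neg_mem (hx.log_mem hL j))]
  ring

theorem NS.zl_mem (hL : IsLog L) (hx : t.NS x) (m k : ℕ) : t.Zl L x m k ∈ t.K (m + k) := by
  exact sum_mem fun j hj => mul_mem (pow_mem (natCast_mem _ _) _)
    (t.mono (by have := mem_range.1 hj; omega) (hx.yl_mem hL _))

theorem zl_eq (t : Tw p) (L : PadicAlgCl p → PadicAlgCl p) (x : ℕ → PadicAlgCl p) (m k : ℕ) :
    (t.q : PadicAlgCl p) ^ k * L (x (m + k)) = L (x m) + t.Zl L x m k := by
  induction k with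
  | zero => simp [Zl]
  | succ k ih =>
    rw [Zl, sum_range_succ, ← Zl, ← add_assoc (L _), ← ih, Yl, ← add_assoc]
    ring

theorem zl_add (t : Tw p) (L : PadicAlgCl p → PadicAlgCl p) (x : ℕ → PadicAlgCl p) (m s k : ℕ) :
    t.Zl L x m (s + k) = t.Zl L x m s + (t.q : PadicAlgCl p) ^ s * t.Zl L x (m + s) k := by
  rw [Zl, Zl, Zl, sum_range_add, mul_sum]
  exact congrArg _ (sum_congr rfl fun j _ => by rw [pow_add, mul_assoc, add_assoc])

end Pool.Agent.Work.MP_dd0d16_nt.W.Tw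
end

-- merged part: Pool.Agent.Work.MP_dd0d16_nt.W.Der
section
/-!
Derivatives along the tower are small.

PLAN. `f_der`: the coefficients `(i + 1) * a (i + 1)` of the derivative have norm `≤ ‖ϖ‖` (`t.sm`, `t.disc`, `norm_q`, `p_le`). `it_der`: `derivative_comp`, induction.
`der_zero`: `Φ n = Φ.comp (it n)` with `Φ` from `exists_phi` is monic of degree `e * q ^ n` and vanishes at `ξ n`; the remainder `H %ₘ Φ n` vanishes at `ξ n`, so it is zero (`orth_le`, `val_U`, `nrm`);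
`H = Φ n * (H /ₘ Φ n)`, differentiate. `move`: let `η0 = ‖G' (ξ (n + 1))‖`. By `orth_le` for the derivative (degree `< Q = e * q ^ (n + 1)`), `‖ϖ‖ * ‖i * g i‖ ≤ η0`. Take `s` from
`pow_close` (`ρ = ‖ξ 1‖`, `root_close`, `Fx.f`), `η = ε * ‖ϖ‖ * p⁻¹ ^ s`. If `p ^ s ∣ i` then `‖y ^ i - ξ ^ i‖ ≤ ‖y ^ p ^ s - ξ ^ p ^ s‖ ≤ ε`; otherwise `p⁻¹ ^ s ≤ ‖(i : PadicAlgCl p)‖`, so `‖g i‖ ≤ ε`.
-/

set_option autoImplicit false

namespace Pool.Agent.Work.MP_dd0d16_nt.W.Tw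

open Polynomial Finset Filter

variable {p : ℕ} [Fact p.Prime] {t : Tw p}

theorem Der_orth {G : (PadicAlgCl p)[X]} (hG : t.IP G) {n : ℕ} (hd : G.natDegree < t.e * t.q ^ n)
    (i : ℕ) : ‖t.ϖ‖ * ‖G.coeff i‖ ≤ ‖G.eval (t.ξ n)‖ := by
  by_cases hi : i < t.e * t.q ^ n
  · have h := orth_le (t.ne n) (t.lt n) (a := G.coeff)
      (fun j hj => (t.nrm n).symm ▸ t.val_U (hG j).1 hj) hi
    rw [← eval_eq_sum_range' hd, norm_mul, norm_pow, mul_comm] at h
    refine le_trans (mul_le_mul_of_nonneg_right ?_ (norm_nonneg _)) h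
    rw [← t.nrm n]
    exact pow_le_pow_of_le_one (norm_nonneg _) (t.lt n).le hi.le
  · rw [coeff_eq_zero_of_natDegree_lt (by omega), norm_zero, mul_zero]
    exact norm_nonneg _

theorem f_der (t : Tw p) {z : PadicAlgCl p} (hz : ‖z‖ ≤ 1) :
    ‖(derivative t.f).eval z‖ ≤ ‖t.ϖ‖ := by
  have h : t.Cl 1 (derivative t.f) 0 := fun i => by
    rw [coeff_zero, sub_zero, pow_one, coeff_derivative, ← Nat.cast_succ, norm_mul]
    rcases lt_trichotomy (i + 1) t.q with h | h | h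
    · exact (mul_le_of_le_one_right (norm_nonneg _) (IsUltrametricDist.norm_natCast_le_one _ _)).trans
        (t.disc _ (t.mem _) (t.sm _ h))
    · rw [Nat.succ_eq_add_one, h]
      exact (mul_le_of_le_one_left (norm_nonneg _) (t.ip_f _).2).trans (t.norm_q.trans t.p_le)
    · rw [coeff_eq_zero_of_natDegree_lt (t.degq ▸ h), norm_zero, zero_mul]
      exact norm_nonneg _
  simpa using h.eval hz

theorem it_der (t : Tw p) (k : ℕ) {z : PadicAlgCl p} (hz : ‖z‖ ≤ 1) :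
    ‖(derivative (t.it k)).eval z‖ ≤ ‖t.ϖ‖ ^ k := by
  induction k with
  | zero => simp [t.it_zero]
  | succ k ih =>
    rw [t.it_succ, derivative_comp, eval_mul, eval_comp, norm_mul, pow_succ]
    exact mul_le_mul ih (t.f_der ((t.ip_it k).eval_le hz)) (norm_nonneg _) (by positivity)

theorem der_zero {H : (PadicAlgCl p)[X]} (hH : t.IP H) {n : ℕ} (h0 : H.eval (t.ξ n) = 0) :
    ‖(derivative H).eval (t.ξ n)‖ ≤ ‖t.ϖ‖ ^ n := by
  obtain ⟨Φ, h1, h2, h3, h4⟩ := t.exists_phi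
  have hq : 0 < t.q ^ n := pow_pos (by have := t.two_le; omega) n
  have h5 : (Φ.comp (t.it n)).Monic := h2.comp (t.it_monic n) (by rw [t.it_deg]; omega)
  have h6 := h1.comp (t.ip_it n)
  have h7 : (Φ.comp (t.it n)).eval (t.ξ n) = 0 := by
    have := t.it_eval 0 n
    rw [zero_add] at this
    rw [eval_comp, this, h4]
  have h8 := modByMonic_add_div H (Φ.comp (t.it n))
  have h9 : H %ₘ Φ.comp (t.it n) = 0 := Polynomial.ext fun i => by
    have e1 := congrArg (eval (t.ξ n)) h8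
    rw [eval_add, eval_mul, h7, zero_mul, add_zero, h0] at e1
    have e2 := Der_orth (hH.modM h6 h5) (n := n) (by
      rw [← h3, ← t.it_deg, ← natDegree_comp]
      exact natDegree_modByMonic_lt _ h5 fun h => by
        have := congrArg natDegree h
        rw [natDegree_comp, h3, t.it_deg, natDegree_one] at this
        exact (mul_pos t.epos hq).ne' this) i
    rw [e1, norm_zero] at e2
    exact norm_le_zero_iff.1 (le_of_mul_le_mul_left (by rwa [mul_zero]) (norm_pos_iff.2 t.pne))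
  rw [h9, zero_add] at h8
  rw [← h8, derivative_mul, eval_add, eval_mul, eval_mul, h7, zero_mul, add_zero, derivative_comp,
    eval_mul, norm_mul, norm_mul]
  exact (mul_le_of_le_one_right (by positivity) ((hH.divM h6 h5).eval_le (t.lt n).le)).trans
    ((mul_le_of_le_one_right (norm_nonneg _) ((h1.der.comp (t.ip_it n)).eval_le (t.lt n).le)).trans
      (t.it_der n (t.lt n).le))

theorem move (t : Tw p) {ε : ℝ} (hε : 0 < ε) : ∃ η : ℝ, 0 < η ∧ ∀ (n : ℕ) (G : (PadicAlgCl p)[X]),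
    t.IP G → G.natDegree < t.e * t.q ^ (n + 1) → ‖(derivative G).eval (t.ξ (n + 1))‖ ≤ η →
    ∀ τ, t.Fx n τ → ‖τ (G.eval (t.ξ (n + 1))) - G.eval (t.ξ (n + 1))‖ ≤ ε := by
  obtain ⟨s, hs⟩ := pow_close (p := p) (t.lt 1) hε
  have hϖ : 0 < ‖t.ϖ‖ := norm_pos_iff.2 t.pne
  have hp : 0 < ‖((p ^ s : ℕ) : PadicAlgCl p)‖ :=
    norm_pos_iff.2 (Nat.cast_ne_zero.2 (pow_ne_zero _ (Fact.out : p.Prime).ne_zero))
  refine ⟨‖t.ϖ‖ * (ε * ‖((p ^ s : ℕ) : PadicAlgCl p)‖), by positivity, fun n G hG hd h τ hτ => ?_⟩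
  have h1 := (t.lt (n + 1)).le
  have h2 : ‖τ (t.ξ (n + 1))‖ ≤ 1 := (T.norm_aut _ _).trans_le h1
  have h3 := hs _ _ h2 h1 (t.root_close (by rw [hτ.f]; exact (t.lt n).le) (by rw [hτ.f, t.step]))
  rw [hG.map_fix fun u hu => hτ u (t.U_le n hu), eval_eq_sum_range, eval_eq_sum_range,
    ← sum_sub_distrib]
  refine IsUltrametricDist.norm_sum_le_of_forall_le_of_nonneg hε.le fun i _ => ?_
  rw [← mul_sub, norm_mul]
  by_cases hi : p ^ s ∣ i
  · obtain ⟨c, rfl⟩ := hi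
    refine (mul_le_of_le_one_left (norm_nonneg _) (hG _).2).trans (le_trans ?_ h3)
    simpa [pow_mul] using ((IP.X (t := t)).pow c).eval_sub (z := τ (t.ξ (n + 1)) ^ p ^ s)
      (w := t.ξ (n + 1) ^ p ^ s) (by rw [norm_pow]; exact pow_le_one₀ (norm_nonneg _) h2)
      (by rw [norm_pow]; exact pow_le_one₀ (norm_nonneg _) h1)
  · obtain ⟨j, rfl⟩ := Nat.exists_eq_succ_of_ne_zero (n := i) (by rintro rfl; exact hi (dvd_zero _))
    have h4 := le_of_mul_le_mul_left ((Der_orth hG.der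
      (natDegree_derivative_le G |>.trans_lt (by omega)) j).trans h) hϖ
    rw [coeff_derivative, ← Nat.cast_succ, norm_mul] at h4
    have h5 : ‖((p ^ s : ℕ) : PadicAlgCl p)‖ ≤ ‖((j.succ : ℕ) : PadicAlgCl p)‖ := by
      obtain ⟨v, c, hc, e⟩ := Nat.exists_eq_pow_mul_and_not_dvd (Nat.succ_ne_zero j) p
        (Fact.out : p.Prime).ne_one
      have hv : v ≤ s := by
        by_contra hv
        exact hi (e ▸ (pow_dvd_pow p (by omega)).mul_right c)
      rw [e, Nat.cast_mul, norm_mul, T.Ram_nat hc, mul_one, Nat.cast_pow, Nat.cast_pow, norm_pow,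
        norm_pow]
      exact pow_le_pow_of_le_one (norm_nonneg _) (IsUltrametricDist.norm_natCast_le_one _ _) hv
    refine (mul_le_of_le_one_right (norm_nonneg _) ?_).trans (le_of_mul_le_mul_right
      ((mul_le_mul_of_nonneg_left h5 (norm_nonneg _)).trans h4) hp)
    rw [sub_eq_add_neg]
    refine (IsUltrametricDist.norm_add_le_max _ _).trans (max_le ?_ ?_)
    · rw [norm_pow]; exact pow_le_one₀ (norm_nonneg _) h2
    · rw [norm_neg, norm_pow]; exact pow_le_one₀ (norm_nonneg _) h1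

end Pool.Agent.Work.MP_dd0d16_nt.W.Tw
end

-- merged part: Pool.Agent.Work.MP_dd0d16_nt.W.Gen
section
/-!
A uniformiser of the field generated by an element.

PLAN. `E = K m ⊔ ℚ_[p]⟮z⟯` (or `(K m)⟮z⟯` over the field `K m`), `D = natDegree (minpoly (K m) z)`, `D' = natDegree (minpoly E (ξ (m + k)))`, `w = (minpoly E (ξ (m + k))).coeff 0`,
`‖w‖ = ‖ξ (m + k)‖ ^ D'` (`norm_coeff_zero`). `D * D' = q ^ k` by the tower law over `K m` (`adjoin.finrank`, `Module.finrank_mul_finrank`, `adjoin_adjoin_left`,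
`z ∈ (K m)⟮ξ (m + k)⟯` by `dec`, `minpoly_deg`), so `‖w‖ ^ D = ‖ξ m‖` (`nrm_add`). By `orth_le` (`val`) the powers `w ^ i`, `i < D`, are linearly independent over `K m`, so they are a basis
of `(K m)⟮z⟯` (`basisOfLinearIndependentOfCardEqFinrank`, `LinearIndependent.span_eq_top_of_card_eq_finrank`); expand `z` and `w ^ D`. `E ≤ K (m + k)`.
-/

set_option autoImplicit false

namespace Pool.Agent.Work.MP_dd0d16_nt.W.Tw

open Polynomial Finset Filter

variable {p : ℕ} [Fact p.Prime] {t : Tw p}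

open IntermediateField in
theorem Gen_tower {F Ω : Type} [Field F] [Field Ω] [Algebra F Ω] {z y : Ω} (hz : IsIntegral F z)
    (hy : IsIntegral F y) (h : z ∈ F⟮y⟯) :
    (minpoly F z).natDegree * (minpoly F⟮z⟯ y).natDegree = (minpoly F y).natDegree := by
  have e : F⟮z⟯⟮y⟯.restrictScalars F = F⟮y⟯ := by
    rw [adjoin_simple_adjoin_simple]
    refine le_antisymm (adjoin_le_iff.2 ?_) (adjoin.mono _ _ _ (by simp))
    rintro _ (rfl | rfl)
    exacts [h, mem_adjoin_simple_self _ _]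
  rw [← adjoin.finrank hz, ← adjoin.finrank hy, ← adjoin.finrank hy.tower_top,
    Module.finrank_mul_finrank, ← e]
  rfl

open IntermediateField in
theorem gen {m k : ℕ} {z : PadicAlgCl p} (hz : z ∈ t.K (m + k)) :
    ∃ (w : PadicAlgCl p) (a c : ℕ → PadicAlgCl p), w ∈ t.K (m + k) ∧
      ‖w‖ ^ (minpoly (t.K m) z).natDegree = ‖t.ξ m‖ ∧ (∀ i, a i ∈ t.K m) ∧ (∀ i, c i ∈ t.K m) ∧
      z = ∑ i ∈ range (minpoly (t.K m) z).natDegree, a i * w ^ i ∧
      w ^ (minpoly (t.K m) z).natDegree = ∑ i ∈ range (minpoly (t.K m) z).natDegree, c i * w ^ i := by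
  have hi : ∀ y : PadicAlgCl p, IsIntegral (t.K m) y := fun y => Algebra.IsIntegral.isIntegral y
  have h1 : z ∈ (t.K m)⟮t.ξ (m + k)⟯ := by
    obtain ⟨β, h1, h2⟩ := dec hz
    rw [h2]
    exact sum_mem fun b _ => mul_mem (IntermediateField.algebraMap_mem _ (⟨β b, h1 b⟩ : t.K m))
      (pow_mem (mem_adjoin_simple_self _ _) _)
  have h2 := Gen_tower (hi z) (hi _) h1
  have h3 : ∀ y ∈ (t.K m)⟮z⟯, y ∈ t.K (m + k) := fun y hy => by
    have : y ∈ ((t.K m)⟮z⟯).restrictScalars ℚ_[p] := hy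
    rw [restrictScalars_adjoin_eq_sup] at this
    exact sup_le (t.mono (Nat.le_add_right m k)) (adjoin_simple_le_iff.2 hz) this
  have h4 : ‖(((minpoly (t.K m)⟮z⟯ (t.ξ (m + k))).coeff 0 : (t.K m)⟮z⟯) : PadicAlgCl p)‖ =
      ‖t.ξ (m + k)‖ ^ (minpoly (t.K m)⟮z⟯ (t.ξ (m + k))).natDegree :=
    norm_coeff_zero (((t.K m)⟮z⟯).restrictScalars ℚ_[p]) _
  have h5 := adjoin.finrank (hi z)
  have hD := minpoly.natDegree_pos (hi z)
  have := adjoin.finiteDimensional (hi z)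
  generalize (minpoly (t.K m)⟮z⟯ (t.ξ (m + k))).coeff 0 = w at h4
  generalize (minpoly (t.K m) z).natDegree = D at h2 h5 hD ⊢
  have h6 : ‖(w : PadicAlgCl p)‖ ^ D = ‖t.ξ m‖ := by
    rw [h4, ← pow_mul, mul_comm, h2, t.minpoly_deg, t.nrm_add]
  have hw0 : (w : PadicAlgCl p) ≠ 0 := fun h => by
    rw [h, norm_zero, zero_pow hD.ne'] at h6
    exact t.ne m (norm_eq_zero.1 h6.symm)
  have hw1 : ‖(w : PadicAlgCl p)‖ < 1 :=
    (pow_lt_one_iff_of_nonneg (norm_nonneg _) hD.ne').1 (h6 ▸ t.lt m)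
  have key : ∀ c : Fin D → t.K m, ∃ a : ℕ → PadicAlgCl p, (∀ i, a i ∈ t.K m) ∧
      (∀ i : Fin D, a i = c i) ∧ ((∑ i, c i • w ^ (i : ℕ) : (t.K m)⟮z⟯) : PadicAlgCl p) =
        ∑ i ∈ range D, a i * (w : PadicAlgCl p) ^ i := fun c => by
    refine ⟨fun i => if h : i < D then c ⟨i, h⟩ else 0, fun i => ?_, fun i => by simp, ?_⟩
    · dsimp only
      split_ifs
      exacts [(c _).2, zero_mem _]
    · rw [sum_range, AddSubmonoidClass.coe_finsetSum]
      exact sum_congr rfl fun i _ => by simp [Algebra.smul_def]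
  have h7 : LinearIndependent (t.K m) fun i : Fin D => w ^ (i : ℕ) :=
    Fintype.linearIndependent_iff.2 fun c hc i => by
      obtain ⟨a, a1, a2, a3⟩ := key c
      have h8 := orth_le hw0 hw1 (fun j hj => h6 ▸ t.val (a1 j) hj) i.2
      rw [← a3, hc, ZeroMemClass.coe_zero, norm_zero, norm_le_zero_iff, a2] at h8
      exact Subtype.ext ((mul_eq_zero.1 h8).resolve_right (pow_ne_zero _ hw0))
  have h8 := h7.span_eq_top_of_card_eq_finrank' (by rw [Fintype.card_fin, h5])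
  have h9 : ∀ v : (t.K m)⟮z⟯, ∃ a : ℕ → PadicAlgCl p, (∀ i, a i ∈ t.K m) ∧
      (v : PadicAlgCl p) = ∑ i ∈ range D, a i * (w : PadicAlgCl p) ^ i := fun v => by
    obtain ⟨c, hc⟩ := (Submodule.mem_span_range_iff_exists_fun _).1
      (h8 ▸ Submodule.mem_top : v ∈ _)
    obtain ⟨a, a1, -, a3⟩ := key c
    exact ⟨a, a1, hc ▸ a3⟩
  obtain ⟨a, a1, a2⟩ := h9 ⟨z, mem_adjoin_simple_self _ _⟩
  obtain ⟨c, c1, c2⟩ := h9 (w ^ D)
  exact ⟨w, a, c, h3 _ w.2, h6, a1, c1, a2, c2⟩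

end Pool.Agent.Work.MP_dd0d16_nt.W.Tw
end

-- merged part: Pool.Agent.Work.MP_dd0d16_nt.W.Rank
section
/-!
The conjugates of a new element have large rank.

PLAN. `small`: `w, a, c` from `gen` (with `k + 1`), `0 < D ≤ B`; `‖c i‖ ≤ 1` by `orth_le` (`‖c i * w ^ i‖ ≤ ‖ξ m‖ ≤ ‖w‖ ^ i`). `P = X ^ D - ∑ C (c i) * X ^ i`; `P' w = ∑ i < D, b i * w ^ i` with `b (D - 1) = D`, so by `orth_le`
`‖P' w‖ ≥ ‖D‖ * ‖ξ m‖ ≥ B⁻¹ * ‖ϖ‖ =: 2 ε` (`norm_int_ge`, `nrm_ge`). With `n = m + k + 1`, `w = G (ξ n)`, `c i = Ci (ξ m)` (`poly`), `H = G ^ D - ∑ (Ci.comp (it (k + 1))) * G ^ i` vanishes at `ξ n`;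
`der_zero`, `it_der` give `‖P' w‖ * ‖G' (ξ n)‖ ≤ ‖ϖ‖ ^ (k + 1)`; choose `k` with `‖ϖ‖ ^ (k + 1) ≤ 2 ε η`, `η` from `move`. If `τ` fixes level `m + k` then `δ = τ w - w` has `‖δ‖ ≤ ε`, `P (w + δ) = 0 = P w`,
`taylor2` gives `‖P' w‖ * ‖δ‖ ≤ ‖δ‖ ^ 2`, so `δ = 0` and `τ z = z`; `mem_of_fix`. `rank_new`: otherwise `mink` with `H = (K m).fixingSubgroup` and `s` the roots of the minimal polynomial
(`exists_conj`; `card_rootSet_eq_natDegree`, separable in characteristic zero) bounds the degree.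
-/

set_option autoImplicit false

namespace Pool.Agent.Work.MP_dd0d16_nt.W.Tw

open Polynomial Finset Filter

variable {p : ℕ} [Fact p.Prime] {t : Tw p}

theorem small (t : Tw p) (B : ℕ) : ∃ k : ℕ, ∀ m, ∀ z ∈ t.K (m + (k + 1)),
    (minpoly (t.K m) z).natDegree ≤ B → z ∈ t.K (m + k) := by
  have hϖ : 0 < ‖t.ϖ‖ := norm_pos_iff.2 t.pne
  have hε : 0 < ‖t.ϖ‖ / (B + 1) := by positivity
  obtain ⟨η, hη, hmove⟩ := t.move (half_pos hε)
  obtain ⟨k, hk⟩ := exists_pow_lt_of_lt_one (mul_pos hε hη) t.plt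
  refine ⟨k, fun m z hz hB => ?_⟩
  obtain ⟨w, a, c, hw, hn, ha, hc, hz', hwD⟩ := gen hz
  have hD : 0 < (minpoly (t.K m) z).natDegree :=
    minpoly.natDegree_pos (Algebra.IsIntegral.isIntegral z)
  generalize (minpoly (t.K m) z).natDegree = D at hB hn hz' hwD hD
  have hw0 : w ≠ 0 := by
    rintro rfl
    rw [norm_zero, zero_pow hD.ne'] at hn
    exact t.ne m (norm_eq_zero.1 hn.symm)
  have hw1 : ‖w‖ < 1 := (pow_lt_one_iff_of_nonneg (norm_nonneg _) hD.ne').1 (hn ▸ t.lt m)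
  have hwp : 0 < ‖w‖ := norm_pos_iff.2 hw0
  have horth : ∀ b : ℕ → PadicAlgCl p, (∀ i, b i ∈ t.K m) → ∀ i, i < D →
      ‖b i * w ^ i‖ ≤ ‖∑ j ∈ range D, b j * w ^ j‖ := fun b hb i hi =>
    orth_le hw0 hw1 (fun j hj => hn ▸ t.val (hb j) hj) hi
  have hc1 : ∀ i, i < D → ‖c i‖ ≤ 1 := fun i hi => by
    have h1 := horth c hc i hi
    rw [← hwD, norm_mul, norm_pow, norm_pow] at h1
    exact le_of_mul_le_mul_right (h1.trans (by
      rw [one_mul]; exact pow_le_pow_of_le_one hwp.le hw1.le hi.le)) (pow_pos hwp i)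
  obtain ⟨G, hG, hGd, hGw⟩ := t.poly hw hw1.le
  choose Q hQ hQc using fun i => show ∃ Q, t.IP Q ∧ (i < D → Q.eval (t.ξ m) = c i) from by
    by_cases hi : i < D
    · obtain ⟨Q, h1, -, h2⟩ := t.poly (hc i) (hc1 i hi)
      exact ⟨Q, h1, fun _ => h2⟩
    · exact ⟨0, IP.zero, fun h => absurd h hi⟩
  let P : (PadicAlgCl p)[X] := X ^ D - ∑ i ∈ range D, C (c i) * X ^ i
  have hPc : ∀ i, P.coeff i = (if i = D then 1 else 0) - if i < D then c i else 0 := fun i => by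
    simp [P, coeff_X_pow]
  have hP1 : ∀ i, ‖P.coeff i‖ ≤ 1 := fun i => by
    rw [hPc]
    split_ifs with h1 h2 h2
    · omega
    · simp
    · simpa using hc1 i h2
    · simp
  have hPe : ∀ y, P.eval y = y ^ D - ∑ i ∈ range D, c i * y ^ i := fun y => by
    simp [P, eval_finsetSum]
  have hlow : ‖t.ϖ‖ / (B + 1) ≤ ‖(derivative P).eval w‖ := by
    have h1 : (derivative P).natDegree < D := by
      refine (Nat.le_sub_one_iff_lt hD).1 (natDegree_le_iff_coeff_eq_zero.2 fun i hi => ?_)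
      rw [coeff_derivative, hPc, if_neg (by omega), if_neg (by omega), sub_zero, zero_mul]
    have h2 := horth (derivative P).coeff (fun i => by
      rw [coeff_derivative, hPc]
      refine mul_mem (sub_mem ?_ ?_) (add_mem (natCast_mem _ _) (one_mem _))
      · split_ifs
        exacts [one_mem _, zero_mem _]
      · split_ifs
        exacts [hc _, zero_mem _]) (D - 1) (by omega)
    rw [← eval_eq_sum_range' h1, coeff_derivative, hPc, if_pos (by omega), if_neg (by omega),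
      sub_zero, one_mul, ← Nat.cast_succ, show (D - 1).succ = D by omega, norm_mul, norm_pow] at h2
    have h3 := norm_int_ge (p := p) (D : ℤ) (by omega)
    rw [Int.cast_natCast, Int.cast_natCast, Nat.abs_cast] at h3
    have h4 : ‖t.ϖ‖ ≤ ‖w‖ ^ (D - 1) := ((t.nrm_ge (n := m) (a := 1)
      (Nat.one_le_pow _ _ (by have := t.two_le; omega))).trans (by rw [pow_one, ← hn])).trans
      (pow_le_pow_of_le_one hwp.le hw1.le (by omega))
    have h5 : (D : ℝ) ≤ B + 1 := by exact_mod_cast hB.trans (Nat.le_succ B)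
    refine le_trans ?_ h2
    rw [div_le_iff₀ (by positivity)]
    calc ‖t.ϖ‖ ≤ (D * ‖(D : PadicAlgCl p)‖) * ‖w‖ ^ (D - 1) := by nlinarith
      _ ≤ ((B + 1) * ‖(D : PadicAlgCl p)‖) * ‖w‖ ^ (D - 1) := by gcongr
      _ = _ := by ring
  have hξ := (t.lt (m + (k + 1))).le
  have hup : ‖(derivative P).eval w * (derivative G).eval (t.ξ (m + (k + 1)))‖ ≤ ‖t.ϖ‖ ^ k := by
    have h1 := der_zero (H := G ^ D - ∑ i ∈ range D, (Q i).comp (t.it (k + 1)) * G ^ i)
      ((hG.pow _).sub (IP.sum _ fun i _ => ((hQ i).comp (t.ip_it _)).mul (hG.pow _)))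
      (n := m + (k + 1)) (by
        rw [eval_sub, eval_pow, eval_finsetSum, hGw, hwD, sub_eq_zero]
        exact sum_congr rfl fun i hi => by
          rw [eval_mul, eval_comp, t.it_eval, hQc i (mem_range.1 hi), eval_pow, hGw])
    have h2 : (derivative P).eval w * (derivative G).eval (t.ξ (m + (k + 1))) =
        (derivative (G ^ D - ∑ i ∈ range D, (Q i).comp (t.it (k + 1)) * G ^ i)).eval
          (t.ξ (m + (k + 1))) + ∑ i ∈ range D, (derivative (t.it (k + 1))).eval (t.ξ (m + (k + 1))) *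
            ((derivative (Q i)).eval (t.ξ m) * w ^ i) := by
      simp only [P, derivative_sub, derivative_sum, derivative_mul, derivative_pow, derivative_comp,
        derivative_C, derivative_X, eval_sub, eval_finsetSum, eval_add, eval_mul, eval_pow, eval_C,
        eval_X, eval_comp, hGw, t.it_eval, zero_mul, zero_add, mul_one, sub_mul,
        sum_mul, sum_add_distrib]
      rw [sum_congr rfl fun i hi => show c i * (i * w ^ (i - 1)) *
        (derivative G).eval (t.ξ (m + (k + 1))) = (Q i).eval (t.ξ m) *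
          (i * w ^ (i - 1) * (derivative G).eval (t.ξ (m + (k + 1)))) by
        rw [hQc i (mem_range.1 hi)]; ring]
      simp only [mul_assoc]
      ring
    rw [h2]
    refine (IsUltrametricDist.norm_add_le_max _ _).trans (max_le
      (h1.trans (pow_le_pow_of_le_one hϖ.le t.plt.le (by omega)))
      (IsUltrametricDist.norm_sum_le_of_forall_le_of_nonneg (by positivity) fun i _ => ?_))
    rw [norm_mul, norm_mul, norm_pow]
    refine (mul_le_of_le_one_right (norm_nonneg _) (mul_le_one₀ ((hQ i).der.eval_le (t.lt m).le)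
      (by positivity) (pow_le_one₀ hwp.le hw1.le))).trans ((t.it_der _ hξ).trans
      (pow_le_pow_of_le_one hϖ.le t.plt.le (by omega)))
  have hG' : ‖(derivative G).eval (t.ξ (m + (k + 1)))‖ ≤ η := by
    rw [norm_mul] at hup
    by_contra h
    have := mul_le_mul hlow (not_le.1 h).le hη.le (norm_nonneg _)
    linarith
  refine mem_of_fix fun τ hτ => ?_
  have h1 := hmove (m + k) G hG hGd hG' τ hτ
  rw [show t.ξ (m + k + 1) = t.ξ (m + (k + 1)) from rfl, hGw] at h1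
  have hτm : t.Fx m τ := Fx.mono hτ (Nat.le_add_right _ _)
  have h2 := taylor2 hP1 hw1.le (δ := τ w - w) (by
    rw [sub_eq_add_neg]
    refine (IsUltrametricDist.norm_add_le_max _ _).trans (max_le ?_ ?_)
    · rw [T.norm_aut]; exact hw1.le
    · rw [norm_neg]; exact hw1.le)
  have h3 : P.eval (τ w) = 0 := by
    have := congrArg τ hwD
    rw [map_pow, map_sum] at this
    rw [hPe, this, sub_eq_zero]
    exact sum_congr rfl fun i _ => by rw [map_mul, map_pow, hτm _ (hc i)]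
  rw [add_sub_cancel, h3, hPe w, ← hwD, sub_self, sub_zero, zero_sub, norm_neg, norm_mul, sq] at h2
  have h4 : τ w = w := by
    by_contra h
    have := le_of_mul_le_mul_right h2 (norm_pos_iff.2 (sub_ne_zero.2 h))
    linarith
  rw [hz', map_sum]
  exact sum_congr rfl fun i _ => by rw [map_mul, map_pow, hτm _ (ha i), h4]

theorem rank_new (t : Tw p) (ρ : ℕ) : ∃ k : ℕ, ∀ m, ∀ z ∈ t.K (m + (k + 1)), z ∉ t.K (m + k) →
    ∃ τ : Fin ρ → Aut p, (∀ i, t.Fx m (τ i)) ∧ LinearIndependent ℚ fun i => τ i z := by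
  classical
  obtain ⟨B, hB⟩ := mink (p := p) ρ
  obtain ⟨k, hk⟩ := t.small B
  refine ⟨k, fun m z hz hn => ?_⟩
  by_contra hc
  simp only [not_exists, not_and] at hc
  refine hn (hk m z hz ?_)
  have hi : IsIntegral (t.K m) z := Algebra.IsIntegral.isIntegral z
  have h1 := hB (t.K m).fixingSubgroup z
    (fun τ h => hc τ fun i => ((t.K m).mem_fixingSubgroup_iff _).1 (h i))
    ((minpoly (t.K m) z).rootSet (PadicAlgCl p)).toFinset fun y hy => by
      obtain ⟨τ, h1, h2⟩ := exists_conj (t.K m) (aeval_eq_zero_of_mem_rootSet (Set.mem_toFinset.1 hy))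
      exact ⟨τ, ((t.K m).mem_fixingSubgroup_iff _).2 h1, h2⟩
  rwa [Set.toFinset_card, card_rootSet_eq_natDegree (minpoly.irreducible hi).separable
    (IsAlgClosed.splits _)] at h1

end Pool.Agent.Work.MP_dd0d16_nt.W.Tw
end

-- merged part: Pool.Agent.Work.MP_dd0d16_nt.W.Newt
section
/-!
Rigidity: a polynomial that is small at many totally ramified points is small at lower points.

PLAN. `newt_div`: if `‖s‖ ^ Q = ‖ϖ‖` and `‖G s‖ ≤ ‖ϖ‖` then all coefficients of index `< Q` have norm `≤ ‖ϖ‖`: otherwise let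
`i0 < Q` be the least index with `‖ϖ‖ < ‖coeff‖`, so norm one (`t.disc`); the term `i0` has norm `‖s‖ ^ i0 > ‖ϖ‖`, the
earlier terms have norm `≤ ‖ϖ‖`, the later ones `< ‖s‖ ^ i0`. So `G = C ϖ * A + X ^ Q * B` (`B = G /ₘ X ^ Q`, `IP.div` for `G %ₘ X ^ Q` and `0`).
`newt`: induction on `s` for all `G` (keep `S` fixed, `s ≤ S`): use the top point `θ (s + 1)`; at the points `i ≤ s` one has
`S * Q i ≤ Q (s + 1)` (`Q` is monotone if `1 ≤ S`), so `‖θ i ^ Q (s + 1) * B‖ ≤ ‖ϖ‖ ^ S`, hence `‖A (θ i)‖ ≤ ‖ϖ‖ ^ s` for `1 ≤ i ≤ s`.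
-/

set_option autoImplicit false

namespace Pool.Agent.Work.MP_dd0d16_nt.W.Tw

open Polynomial Finset Filter

variable {p : ℕ} [Fact p.Prime] {t : Tw p}

theorem newt_div {G : (PadicAlgCl p)[X]} (hG : t.IP G) {s : PadicAlgCl p} {Q : ℕ}
    (hs : ‖s‖ ^ Q = ‖t.ϖ‖) (h : ‖G.eval s‖ ≤ ‖t.ϖ‖) :
    ∃ A B, t.IP A ∧ t.IP B ∧ G = C t.ϖ * A + X ^ Q * B := by
  have hϖ : 0 < ‖t.ϖ‖ := norm_pos_iff.2 t.pne
  have hQ : Q ≠ 0 := by
    rintro rfl
    exact t.plt.ne' (by rwa [pow_zero] at hs)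
  have s1 : ‖s‖ < 1 := (pow_lt_one_iff_of_nonneg (norm_nonneg _) hQ).1 (hs ▸ t.plt)
  have s0 : 0 < ‖s‖ := (norm_nonneg s).lt_of_ne fun h0 => by
    rw [← h0, zero_pow hQ] at hs
    exact hϖ.ne hs
  have h1 : ∀ i, i < Q → ‖G.coeff i‖ ≤ ‖t.ϖ‖ := by
    intro i
    induction i using Nat.strong_induction_on with
    | _ i ih =>
      intro hi
      by_contra hc
      have h2 : ‖G.coeff i‖ = 1 := (hG i).2.eq_of_not_lt fun h3 => hc (t.disc _ (hG i).1 h3)
      have h3 : ‖t.ϖ‖ < ‖s‖ ^ i := hs ▸ pow_lt_pow_right_of_lt_one₀ s0 s1 hi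
      have h4 : i ∈ G.support := mem_support_iff.2 (norm_ne_zero_iff.1 (h2.trans_ne one_ne_zero))
      obtain ⟨j, hj, h5⟩ := IsUltrametricDist.exists_norm_finsetSum_le (G.support.erase i)
        fun j => G.coeff j * s ^ j
      have h6 : ‖∑ j ∈ G.support.erase i, G.coeff j * s ^ j‖ < ‖s‖ ^ i := by
        rcases (G.support.erase i).eq_empty_or_nonempty with h7 | h7
        · rw [h7, sum_empty, norm_zero]
          exact pow_pos s0 i
        refine h5.trans_lt ?_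
        rw [norm_mul, norm_pow]
        rcases lt_or_gt_of_ne (ne_of_mem_erase (hj h7)) with h8 | h8
        · exact (mul_le_of_le_one_right (norm_nonneg _) (pow_le_one₀ s0.le s1.le)).trans_lt
            ((ih j h8 (by omega)).trans_lt h3)
        · exact (mul_le_of_le_one_left (by positivity) (hG j).2).trans_lt
            (pow_lt_pow_right_of_lt_one₀ s0 s1 h8)
      have h7 := IsUltrametricDist.norm_add_le_max (G.eval s)
        (-∑ j ∈ G.support.erase i, G.coeff j * s ^ j)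
      rw [norm_neg, ← sub_eq_add_neg] at h7
      nth_rw 1 [eval_eq_sum, sum_def, ← add_sum_erase _ _ h4, add_sub_cancel_right, norm_mul, h2,
        one_mul, norm_pow] at h7
      exact (max_lt (h.trans_lt h3) h6).not_ge h7
  have hX := (IP.X (t := t)).pow Q
  have e := modByMonic_add_div G (X ^ Q)
  obtain ⟨A, hA, h2⟩ := (hG.modM hX (monic_X_pow Q)).div IP.zero t.pmem t.pne fun i => by
    rw [coeff_zero, sub_zero]
    by_cases hi : i < Q
    · rw [eq_sub_of_add_eq e, coeff_sub, coeff_X_pow_mul', if_neg (by omega), sub_zero]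
      exact h1 i hi
    · rw [coeff_eq_zero_of_degree_lt ((degree_modByMonic_lt _ (monic_X_pow Q)).trans_le (by
        rw [degree_X_pow]; exact_mod_cast not_lt.1 hi)), norm_zero]
      exact hϖ.le
  exact ⟨A, _, hA, hG.divM hX (monic_X_pow Q), by rw [← zero_add (C _ * A), ← h2, e]⟩

theorem newt {S : ℕ} {θ : ℕ → PadicAlgCl p} {Q : ℕ → ℕ} (hQ : ∀ i, ‖θ i‖ ^ Q i = ‖t.ϖ‖)
    (hS : ∀ i, S * Q i ≤ Q (i + 1)) {s : ℕ} (hs : s ≤ S) {G : (PadicAlgCl p)[X]} (hG : t.IP G)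
    (h : ∀ i, 1 ≤ i → i ≤ s → ‖G.eval (θ i)‖ ≤ ‖t.ϖ‖ ^ s) : ‖G.eval (θ 0)‖ ≤ ‖t.ϖ‖ ^ s := by
  have hϖ : 0 < ‖t.ϖ‖ := norm_pos_iff.2 t.pne
  have h1 : ∀ i, ‖θ i‖ ≤ 1 := fun i => not_lt.1 fun h2 =>
    (one_le_pow₀ h2.le).not_gt ((hQ i).trans_lt t.plt)
  induction s generalizing G with
  | zero => simpa using hG.eval_le (h1 0)
  | succ s ih =>
    obtain ⟨A, B, hA, hB, rfl⟩ := newt_div hG (hQ (s + 1)) ((h _ (by omega) le_rfl).trans
      (pow_le_of_le_one hϖ.le t.plt.le (by omega)))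
    have h2 : Monotone Q := monotone_nat_of_le_succ fun i =>
      (Nat.le_mul_of_pos_left _ (by omega)).trans (hS i)
    have h3 : ∀ i, i ≤ s → ‖(X ^ Q (s + 1) * B).eval (θ i)‖ ≤ ‖t.ϖ‖ ^ (s + 1) := fun i hi => by
      rw [eval_mul, eval_pow, eval_X, norm_mul, norm_pow, ← hQ i, ← pow_mul]
      exact (mul_le_of_le_one_right (by positivity) (hB.eval_le (h1 i))).trans
        (pow_le_pow_of_le_one (norm_nonneg _) (h1 i) (((mul_comm _ _).trans_le
          (Nat.mul_le_mul_right _ hs)).trans ((hS i).trans (h2 (by omega)))))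
    have h4 := ih (by omega) hA fun i i1 i2 => le_of_mul_le_mul_left (by
      have h5 := (IsUltrametricDist.norm_add_le_max _ _).trans
        (max_le (h i i1 (by omega)) ((norm_neg _).trans_le (h3 i i2)))
      rwa [eval_add, add_neg_cancel_right, eval_mul, eval_C, norm_mul, pow_succ'] at h5) hϖ
    rw [eval_add]
    refine (IsUltrametricDist.norm_add_le_max _ _).trans (max_le ?_ (h3 0 (Nat.zero_le _)))
    rw [eval_mul, eval_C, norm_mul, pow_succ']
    exact mul_le_mul_of_nonneg_left h4 hϖ.le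

end Pool.Agent.Work.MP_dd0d16_nt.W.Tw
end

-- merged part: Pool.Agent.Work.MP_dd0d16_nt.W.Apx
section
/-!
Approximable sequences.

PLAN. `tw` is `Polynomial.map` of a ring map, so it respects sums, products and integer constants. `mul`: `a a' - g g' = a (a' - g') + (a - g) g'`
with all norms `≤ 1` (`IP.tw`, `IP.eval_le`, `lt`). `det`: `Matrix.det_apply'`, a product of `n` factors is `Apx (n * a)`
(induction over a finset, `one`). `rig`: put `r = 2 * s`. Choose levels `μ 0 = m0 < μ 1 < ...` recursively with `μ i + r ≤ μ (i + 1)` and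
`‖g (μ (i + 1))‖ ≤ ‖ϖ‖ ^ r` (`frequently_atTop`), so `r * (e * q ^ μ i) ≤ e * q ^ μ (i + 1)` (`r < q ^ r`, `two_le`). Take `N = μ r`, `G` from `Apx`, and
`θ i = (σ ^ (N - μ i)).symm (ξ (μ i))`; `tw_eval`, `T.norm_aut`, `nrm`. `newt` gives `‖ξ m0‖ ^ (2 * s * a) * ‖g m0‖ ≤ ‖ϖ‖ ^ (2 * s)`, and
`‖ϖ‖ ≤ ‖ξ m0‖ ^ (2 * a)` (`nrm_ge`).
-/

set_option autoImplicit false

namespace Pool.Agent.Work.MP_dd0d16_nt.W.Tw

open Polynomial Finset Filter

variable {p : ℕ} [Fact p.Prime] {t : Tw p}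

variable {f g : ℕ → PadicAlgCl p} {m1 a b : ℕ}

theorem Apx.one : t.Apx m1 0 fun _ => 1 := by
  exact ⟨fun _ _ => by simp, fun _ _ => ⟨1, IP.one, fun _ _ _ => by simp [tw]⟩⟩

theorem Apx.add (hf : t.Apx m1 a f) (hg : t.Apx m1 a g) : t.Apx m1 a fun m => f m + g m := by
  refine ⟨fun m hm => (IsUltrametricDist.norm_add_le_max _ _).trans (max_le (hf.1 m hm) (hg.1 m hm)),
    fun N r => ?_⟩
  obtain ⟨F, h1, h2⟩ := hf.2 N r
  obtain ⟨G, h3, h4⟩ := hg.2 N r
  refine ⟨F + G, h1.add h3, fun m m1 m2 => le_of_eq_of_le (congrArg _ ?_)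
    ((IsUltrametricDist.norm_add_le_max _ _).trans (max_le (h2 m m1 m2) (h4 m m1 m2)))⟩
  simp only [tw, Polynomial.map_add, eval_add]
  ring

theorem Apx.zsmul (hf : t.Apx m1 a f) (n : ℤ) : t.Apx m1 a fun m => n * f m := by
  have hn : ‖(n : PadicAlgCl p)‖ ≤ 1 := IsUltrametricDist.norm_intCast_le_one _ _
  refine ⟨fun m hm => (norm_mul_le _ _).trans (mul_le_one₀ hn (norm_nonneg _) (hf.1 m hm)),
    fun N r => ?_⟩
  obtain ⟨F, h1, h2⟩ := hf.2 N r
  refine ⟨C (n : PadicAlgCl p) * F, (IP.C (intCast_mem _ _) hn).mul h1, fun m m1 m2 =>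
    le_of_eq_of_le (congrArg _ ?_) ((norm_mul_le _ _).trans
      ((mul_le_of_le_one_left (norm_nonneg _) hn).trans (h2 m m1 m2)))⟩
  simp only [tw, Polynomial.map_mul, map_intCast, Polynomial.map_intCast, eval_mul, eval_intCast]
  ring

theorem Apx.mul (hf : t.Apx m1 a f) (hg : t.Apx m1 b g) : t.Apx m1 (a + b) fun m => f m * g m := by
  refine ⟨fun m hm => (norm_mul_le _ _).trans (mul_le_one₀ (hf.1 m hm) (norm_nonneg _) (hg.1 m hm)),
    fun N r => ?_⟩
  obtain ⟨F, h1, h2⟩ := hf.2 N r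
  obtain ⟨G, h3, h4⟩ := hg.2 N r
  refine ⟨F * G, h1.mul h3, fun m m1 m2 => le_of_eq_of_le (congrArg _ ?_)
    ((IsUltrametricDist.norm_add_le_max _ _).trans (max_le
      ((norm_mul_le (t.ξ m ^ (r * a) * f m) _).trans
        ((mul_le_of_le_one_left (norm_nonneg _) ?_).trans (h4 m m1 m2)))
      ((norm_mul_le _ _).trans ((mul_le_of_le_one_left (norm_nonneg _)
        ((h3.tw (N - m)).eval_le (t.lt m).le)).trans (h2 m m1 m2)))))⟩
  · simp only [tw, Polynomial.map_mul, eval_mul]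
    ring
  · rw [norm_mul, norm_pow]
    exact mul_le_one₀ (pow_le_one₀ (norm_nonneg _) (t.lt m).le) (norm_nonneg _) (hf.1 m m1)

theorem Apx.sum {I : Type} (s : Finset I) {f : I → ℕ → PadicAlgCl p}
    (hf : ∀ i, t.Apx m1 a (f i)) : t.Apx m1 a fun m => ∑ i ∈ s, f i m := by
  classical
  induction s using Finset.induction_on with
  | empty => exact ⟨fun _ _ => by simp, fun _ _ => ⟨0, IP.zero, fun _ _ _ => by simp [tw]⟩⟩
  | insert i s hi ih =>
    simp only [sum_insert hi]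
    exact (hf i).add ih

theorem Apx.det {d : ℕ} {f : Fin d → Fin d → ℕ → PadicAlgCl p} (hf : ∀ i j, t.Apx m1 a (f i j)) :
    t.Apx m1 (d * a) fun m => (Matrix.of fun i j => f i j m).det := by
  have h : ∀ (g : Fin d → ℕ → PadicAlgCl p), (∀ i, t.Apx m1 a (g i)) → ∀ s : Finset (Fin d),
      t.Apx m1 (s.card * a) fun m => ∏ i ∈ s, g i m := fun g hg s => by
    induction s using Finset.induction_on with
    | empty => simpa using Apx.one
    | insert i s hi ih =>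
      simp only [prod_insert hi, card_insert_of_notMem hi, add_mul, one_mul, add_comm _ a]
      exact (hg i).mul ih
  simp only [Matrix.det_apply', Matrix.of_apply]
  exact Apx.sum _ fun τ => by
    simpa using (h (fun i => f (τ i) i) (fun i => hf _ _) univ).zsmul (Equiv.Perm.sign τ)

theorem Apx.rig (hg : t.Apx m1 a g) {m0 s : ℕ} (h1 : m1 ≤ m0) (ha : 2 * a ≤ t.q ^ m0)
    (hs : ∃ᶠ m in atTop, ‖g m‖ ≤ ‖t.ϖ‖ ^ (2 * s)) : ‖g m0‖ ≤ ‖t.ϖ‖ ^ s := by
  have hϖ : 0 < ‖t.ϖ‖ := norm_pos_iff.2 t.pne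
  choose nx h2 h3 using fun n => frequently_atTop.1 hs (n + 2 * s)
  have h4 : ∀ i, nx^[i] m0 + 2 * s ≤ nx^[i + 1] m0 := fun i => by
    rw [Function.iterate_succ_apply']
    exact h2 _
  have h5 : Monotone fun i => nx^[i] m0 := monotone_nat_of_le_succ fun i => by
    have := h4 i
    omega
  obtain ⟨G, hG, h6⟩ := hg.2 (nx^[2 * s] m0) (2 * s)
  have h7 : ∀ n m, ‖G.eval ((t.σ ^ n).symm (t.ξ m))‖ = ‖(tw t.σ n G).eval (t.ξ m)‖ := fun n m => by
    rw [tw_eval, T.norm_aut]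
  have h8 := newt (S := 2 * s) (θ := fun i => (t.σ ^ (nx^[2 * s] m0 - nx^[i] m0)).symm (t.ξ (nx^[i] m0)))
    (Q := fun i => t.e * t.q ^ nx^[i] m0) (fun i => by rw [T.norm_aut, t.nrm]) (fun i => by
      rw [mul_left_comm]
      refine Nat.mul_le_mul_left _ (le_trans ?_ (Nat.pow_le_pow_right (by have := t.two_le; omega) (h4 i)))
      rw [pow_add, mul_comm]
      exact Nat.mul_le_mul_left _ (Nat.lt_pow_self t.two_le).le) le_rfl hG fun i i1 i2 => by
      obtain ⟨j, rfl⟩ := Nat.exists_eq_add_of_le' i1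
      rw [h7, ← sub_sub_cancel (t.ξ _ ^ (2 * s * a) * g _) (eval _ _), sub_eq_add_neg]
      refine (IsUltrametricDist.norm_add_le_max _ _).trans (max_le ?_ ((norm_neg _).trans_le
        (h6 _ (h1.trans (h5 (Nat.zero_le _))) (h5 i2))))
      rw [norm_mul, norm_pow, Function.iterate_succ_apply']
      exact (mul_le_of_le_one_left (norm_nonneg _) (pow_le_one₀ (norm_nonneg _) (t.lt _).le)).trans
        (h3 _)
  have h9 := (IsUltrametricDist.norm_add_le_max _ _).trans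
    (max_le (h6 m0 h1 (h5 (Nat.zero_le _))) ((h7 _ _).symm.trans_le h8))
  rw [Function.iterate_zero_apply, sub_add_cancel, norm_mul, norm_pow, mul_right_comm, pow_mul,
    two_mul s, pow_add] at h9
  exact le_of_mul_le_mul_left ((mul_le_mul_of_nonneg_right
    (pow_le_pow_left₀ hϖ.le (t.nrm_ge ha) s) (norm_nonneg _)).trans h9) (pow_pos hϖ s)

end Pool.Agent.Work.MP_dd0d16_nt.W.Tw
end
end

-- merged part: Pool.Agent.Work.MP_dd0d16_nt.W.WE
section
-- merged part: Pool.Agent.Work.MP_dd0d16_nt.W.Exp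
section
/-!
The exponential series inverts the logarithm near one.

PLAN. `‖(m ! : PadicAlgCl p)⁻¹‖ ≤ p ^ m` (`padicValNat p m ! ≤ m`, `Nat.sub_one_mul_padicValNat_factorial` or `emultiplicity` lemmas), so the terms
`z ^ m / m !` have norm `≤ p⁻¹ ^ m` if `‖z‖ ≤ p⁻¹ ^ 2`. Work in the completion `ℂ_[p]` (or with truncated series): `E z = ∑' z ^ m / m !`,
`E (a + b) = E a * E b` (`tsum_mul_tsum_eq_tsum_sum_antidiagonal_of_summable_norm`, `add_pow`), `‖E z - 1 - z‖ ≤ p ^ 2 * ‖z‖ ^ 2`.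
For `‖u - 1‖ ≤ p⁻¹ ^ 2` one has `‖u ^ p - 1‖ = p⁻¹ * ‖u - 1‖` (binomial formula), so `‖u ^ p ^ k - 1‖ = p⁻¹ ^ k * ‖u - 1‖`. With `z = L u`,
`w = u / E z`: `u ^ p ^ k` and `E z ^ p ^ k = E (p ^ k * z)` are both within `C * p⁻¹ ^ (2 * k)` of `1 + p ^ k * z` (`T.BLog_est`, `T.log_pow`), so
`p⁻¹ ^ k * ‖w - 1‖ ≤ C * p⁻¹ ^ (2 * k)` for all `k` and `w = 1`.
-/

set_option autoImplicit false

namespace Pool.Agent.Work.MP_dd0d16_nt.W

open Finset

section gen

variable {F : Type} [NormedField F] [IsUltrametricDist F] {q r : ℝ}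

theorem Exp_one {w : F} (h : ‖w - 1‖ < 1) : ‖w‖ = 1 := by
  have := IsUltrametricDist.norm_add_eq_max_of_norm_ne_norm (x := w - 1) (y := 1)
    (by rw [norm_one]; exact h.ne)
  rwa [sub_add_cancel, norm_one, max_eq_right h.le] at this

theorem Exp_geom {w : F} (h : ‖w - 1‖ < 1) (n : ℕ) : ‖∑ i ∈ range n, w ^ i - n‖ ≤ ‖w - 1‖ := by
  have e : ∑ i ∈ range n, w ^ i - n = ∑ i ∈ range n, (w ^ i - 1 ^ i) := by simp
  rw [e]
  exact IsUltrametricDist.norm_sum_le_of_forall_le_of_nonneg (norm_nonneg _) fun i _ =>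
    norm_pow_sub_le (Exp_one h).le norm_one.le le_rfl i

theorem Exp_pow {n : ℕ} (hn : ‖(n : F)‖ = q) (h0 : 0 < q) (h1 : q < 1) {w : F}
    (h : ‖w - 1‖ ≤ q ^ 2) (k : ℕ) : ‖w ^ n ^ k - 1‖ = q ^ k * ‖w - 1‖ := by
  induction k with
  | zero => simp
  | succ k ih =>
    have h2 : ‖w ^ n ^ k - 1‖ < q := by
      rw [ih]
      have := mul_le_of_le_one_left (norm_nonneg (w - 1)) (pow_le_one₀ (n := k) h0.le h1.le)
      nlinarith
    have h3 := (Exp_geom (h2.trans h1) n).trans_lt h2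
    have h4 := IsUltrametricDist.norm_add_eq_max_of_norm_ne_norm (h3.trans_eq hn.symm).ne
    rw [sub_add_cancel, hn, max_eq_right h3.le] at h4
    rw [pow_succ, pow_mul, ← geom_sum_mul, norm_mul, h4, ih, pow_succ]
    ring

theorem Exp_half {n : ℕ} (hn : ‖(n : F)‖ ≤ 1 / 2) {w : F} (h : ‖w - 1‖ ≤ 1 / 2) (k : ℕ) :
    ‖w ^ n ^ k - 1‖ ≤ (1 / 2) ^ (k + 1) := by
  induction k with
  | zero => simpa using h
  | succ k ih =>
    have h2 : ‖w ^ n ^ k - 1‖ ≤ 1 / 2 :=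
      ih.trans (pow_le_of_le_one (by norm_num) (by norm_num) (Nat.succ_ne_zero k))
    have h4 := (IsUltrametricDist.norm_add_le_max _ _).trans
      (max_le ((Exp_geom (by linarith) n).trans h2) hn)
    rw [sub_add_cancel] at h4
    rw [pow_succ, pow_mul, ← geom_sum_mul, norm_mul, pow_succ' _ (k + 1)]
    exact mul_le_mul h4 ih (norm_nonneg _) (by norm_num)

/-- the exponential series -/
noncomputable def Exp_E (z : F) : F := ∑' m : ℕ, z ^ m / (m.factorial : F)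

variable (h0 : 0 < q) (hf : ∀ m : ℕ, ‖(m.factorial : F)⁻¹‖ ≤ q⁻¹ ^ m)
include h0 hf

omit [IsUltrametricDist F] in
theorem Exp_term {z : F} (hz : ‖z‖ ≤ r * q) (m : ℕ) : ‖z ^ m / (m.factorial : F)‖ ≤ r ^ m := by
  rw [div_eq_mul_inv, norm_mul, norm_pow]
  refine (mul_le_mul (pow_le_pow_left₀ (norm_nonneg _) hz m) (hf m) (norm_nonneg _)
    (pow_nonneg ((norm_nonneg _).trans hz) m)).trans_eq ?_
  rw [← mul_pow, mul_inv_cancel_right₀ h0.ne']

omit [IsUltrametricDist F] in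
theorem Exp_sum {z : F} (hz : ‖z‖ ≤ r * q) (r0 : 0 ≤ r) (r1 : r < 1) :
    Summable fun m : ℕ => ‖z ^ m / (m.factorial : F)‖ :=
  Summable.of_nonneg_of_le (fun _ => norm_nonneg _) (Exp_term h0 hf hz)
    (summable_geometric_of_lt_one r0 r1)

variable [CompleteSpace F]

theorem Exp_tail {z : F} (hz : ‖z‖ ≤ r * q) (r0 : 0 ≤ r) (r1 : r < 1) (N : ℕ) :
    ‖Exp_E z - ∑ m ∈ range N, z ^ m / (m.factorial : F)‖ ≤ r ^ N := by
  rw [Exp_E, ← (Exp_sum h0 hf hz r0 r1).of_norm.sum_add_tsum_nat_add N, add_sub_cancel_left]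
  exact IsUltrametricDist.norm_tsum_le_of_forall_le fun i =>
    (Exp_term h0 hf hz (i + N)).trans (pow_le_pow_of_le_one r0 r1.le (Nat.le_add_left N i))

theorem Exp_two {z : F} (hz : ‖z‖ ≤ r * q) (r0 : 0 ≤ r) (r1 : r < 1) :
    ‖Exp_E z - (1 + z)‖ ≤ r ^ 2 := by
  simpa [sum_range_succ] using Exp_tail h0 hf hz r0 r1 2

variable [CharZero F]

omit [IsUltrametricDist F] in
theorem Exp_add (h1 : q < 1) {a b : F} (ha : ‖a‖ ≤ q * q) (hb : ‖b‖ ≤ q * q) :
    Exp_E (a + b) = Exp_E a * Exp_E b := by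
  rw [Exp_E, Exp_E, Exp_E, tsum_mul_tsum_eq_tsum_sum_antidiagonal_of_summable_norm
    (Exp_sum h0 hf ha h0.le h1) (Exp_sum h0 hf hb h0.le h1)]
  refine tsum_congr fun n => ?_
  rw [(Commute.all a b).add_pow', sum_div]
  refine sum_congr rfl fun kl hkl => ?_
  have e1 : ∀ m : ℕ, (m.factorial : F) ≠ 0 := fun m => Nat.cast_ne_zero.2 m.factorial_ne_zero
  have e2 := e1 kl.1
  have e3 := e1 kl.2
  have e4 := e1 (kl.1 + kl.2)
  rw [← mem_antidiagonal.1 hkl, nsmul_eq_mul, Nat.cast_add_choose]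
  field_simp

theorem Exp_nat (h1 : q < 1) {z : F} (hz : ‖z‖ ≤ q * q) (n : ℕ) : Exp_E (n * z) = Exp_E z ^ n := by
  induction n with
  | zero =>
    have := Exp_two h0 hf (z := 0) (r := 0) (by simp) le_rfl one_pos
    simpa [sub_eq_zero] using this
  | succ n ih =>
    rw [Nat.cast_succ, add_mul, one_mul, Exp_add h0 hf h1 _ hz, ih, pow_succ]
    rw [norm_mul]
    exact (mul_le_of_le_one_left (norm_nonneg _) (IsUltrametricDist.norm_natCast_le_one F n)).trans hz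

theorem Exp_main (h1 : q < 1) {n : ℕ} (hn : ‖(n : F)‖ = q) {u z : F} (hu : ‖u - 1‖ ≤ q ^ 2)
    (hz : ‖z‖ ≤ q ^ 2) (h : ∀ k, ‖(n : F) ^ k * z - (u ^ n ^ k - 1)‖ ≤ q ^ (2 * (k + 1))) :
    u = Exp_E z := by
  have q2 : q ^ 2 < 1 := pow_lt_one₀ h0.le h1 two_ne_zero
  have hz' : ‖z‖ ≤ q * q := by rwa [← sq]
  have e1 : ‖Exp_E z - 1‖ ≤ q ^ 2 := by
    have := (IsUltrametricDist.norm_add_le_max _ _).trans (max_le (Exp_two h0 hf hz' h0.le h1) hz)
    rwa [← sub_sub, sub_add_cancel] at this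
  have e2 := Exp_one (e1.trans_lt q2)
  have e3 : Exp_E z ≠ 0 := norm_ne_zero_iff.1 (e2 ▸ one_ne_zero)
  have e4 : ‖u / Exp_E z - 1‖ ≤ q ^ 2 := by
    have := (IsUltrametricDist.norm_add_le_max _ _).trans (max_le hu ((norm_neg _).trans_le e1))
    rwa [div_sub_one e3, norm_div, e2, div_one, ← sub_sub_sub_cancel_right u _ 1, sub_eq_add_neg]
  have e5 : ∀ k, ‖u / Exp_E z - 1‖ ≤ q ^ k := fun k => by
    have a1 := Exp_pow hn h0 h1 e4 k
    have a2 := Exp_two h0 hf (z := (n : F) ^ k * z) (r := q ^ (k + 1)) (by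
      rw [norm_mul, norm_pow, hn, pow_succ, mul_assoc]
      exact mul_le_mul_of_nonneg_left hz' (pow_nonneg h0.le k)) (pow_nonneg h0.le _)
      (pow_lt_one₀ h0.le h1 (Nat.succ_ne_zero k))
    rw [← pow_mul, mul_comm (k + 1), ← Nat.cast_pow, Exp_nat h0 hf h1 hz', Nat.cast_pow] at a2
    have a3 := (IsUltrametricDist.norm_add_le_max _ _).trans (max_le a2 (h k))
    rw [div_pow, div_sub_one (pow_ne_zero _ e3), norm_div, norm_pow, e2, one_pow, div_one,
      norm_sub_rev] at a1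
    rw [show Exp_E z ^ n ^ k - (1 + (n : F) ^ k * z) + ((n : F) ^ k * z - (u ^ n ^ k - 1)) =
      Exp_E z ^ n ^ k - u ^ n ^ k by ring, a1, show 2 * (k + 1) = k + (k + 2) by ring,
      pow_add] at a3
    exact (le_of_mul_le_mul_left a3 (pow_pos h0 k)).trans
      (pow_le_pow_of_le_one h0.le h1.le (by omega))
  have e6 := ge_of_tendsto' (tendsto_pow_atTop_nhds_zero_of_lt_one h0.le h1) e5
  rwa [norm_le_zero_iff, sub_eq_zero, div_eq_one_iff_eq e3] at e6

end gen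

variable {p : ℕ} [Fact p.Prime] {L : PadicAlgCl p → PadicAlgCl p}

theorem norm_fact_inv (m : ℕ) : ‖((m.factorial : PadicAlgCl p))⁻¹‖ ≤ (p : ℝ) ^ m := by
  rw [norm_inv, ← map_natCast (algebraMap ℚ_[p] (PadicAlgCl p)), norm_algebraMap',
    Padic.norm_eq_zpow_neg_valuation (Nat.cast_ne_zero.2 m.factorial_ne_zero),
    Padic.valuation_natCast, zpow_neg, inv_inv, zpow_natCast]
  exact pow_le_pow_right₀ T.Ram_one_lt.le (padicValNat_factorial_le p m)

theorem log_small (hL : IsLog L) {u : PadicAlgCl p} (hu : ‖u - 1‖ ≤ (p : ℝ)⁻¹ ^ 2) :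
    ‖L u‖ ≤ (p : ℝ)⁻¹ ^ 2 := by
  have h := (IsUltrametricDist.norm_add_le_max _ _).trans (max_le (T.BLog_est hL (M := 1) hu) hu)
  rwa [sub_add_cancel, add_sub_cancel] at h

theorem exp_log (hL : IsLog L) {u : PadicAlgCl p} (hu : ‖u - 1‖ ≤ (p : ℝ)⁻¹ ^ 2) (N : ℕ) :
    ‖u - ∑ m ∈ range N, L u ^ m / (m.factorial : PadicAlgCl p)‖ ≤ (p : ℝ)⁻¹ ^ N := by
  have h0 := T.Ram_inv_pos (p := p)
  have h1 := T.Ram_inv_lt (p := p)
  have u0 : u ≠ 0 := norm_ne_zero_iff.1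
    ((Exp_one (hu.trans_lt (pow_lt_one₀ h0.le h1 two_ne_zero))).trans_ne one_ne_zero)
  obtain ⟨j, hj⟩ : ∃ j : PadicAlgCl p →+* ℂ_[p], ∀ x, ‖j x‖ = ‖x‖ :=
    ⟨algebraMap _ _, PadicComplex.norm_extends p⟩
  have hf : ∀ m : ℕ, ‖(m.factorial : ℂ_[p])⁻¹‖ ≤ (p : ℝ)⁻¹⁻¹ ^ m := fun m => by
    rw [inv_inv, ← map_natCast j, ← map_inv₀, hj]
    exact norm_fact_inv m
  have hz : ‖j (L u)‖ ≤ (p : ℝ)⁻¹ ^ 2 := (hj _).trans_le (log_small hL hu)
  have h2 := Exp_main h0 hf h1 (n := p) (u := j u) (by rw [← map_natCast j, hj, norm_p_eq])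
    (by rwa [← map_one j, ← map_sub, hj]) hz fun k => by
      have a := T.BLog_est hL (z := u ^ p ^ k - 1) (M := k + 1) (by
        rw [Exp_pow norm_p_eq h0 h1 hu, add_assoc, pow_add]
        exact mul_le_mul_of_nonneg_left hu (pow_nonneg h0.le k))
      rw [add_sub_cancel, T.log_pow hL u0, ← hj] at a
      simpa using a
  have h3 := Exp_tail h0 hf (hz.trans_eq (sq _)) h0.le h1 N
  rw [← h2] at h3
  rw [← hj]
  simpa using h3

theorem exists_near (hL : IsLog L) {u : PadicAlgCl p} (h0 : u ≠ 0) (ha : IsAlgebraic ℚ u) :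
    ∃ (M : ℕ) (v : PadicAlgCl p), M ≠ 0 ∧ IsAlgebraic ℚ v ∧ ‖v - 1‖ ≤ (p : ℝ)⁻¹ ^ 2 ∧
      L v = M * L u := by
  obtain ⟨r, hr⟩ := exists_norm_pow h0 le_rfl
  obtain ⟨d, hd⟩ : ∃ d, d = (minpoly ℚ_[p] u).natDegree.factorial := ⟨_, rfl⟩
  rw [← hd] at hr
  have hp : (p : PadicAlgCl p) ≠ 0 := T.Ram_p_ne
  have hp0 : (0 : ℝ) < p := zero_lt_one.trans T.Ram_one_lt
  have hu : ‖u ^ d * (p : PadicAlgCl p) ^ r‖ = 1 := by
    simp only [norm_mul, norm_pow, norm_zpow, hr, norm_p_eq, inv_zpow]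
    exact mul_inv_cancel₀ (zpow_ne_zero _ hp0.ne')
  obtain ⟨M, M0, h1⟩ : ∃ M : ℕ, M ≠ 0 ∧ ‖(u ^ d * (p : PadicAlgCl p) ^ r) ^ M - 1‖ ≤ 1 / 4 :=
    ⟨_, Nat.factorial_ne_zero _, unit_pow_close hu le_rfl⟩
  obtain ⟨k, hk⟩ := exists_pow_lt_of_lt_one (pow_pos (T.Ram_inv_pos (p := p)) 2) one_half_lt_one
  have h2 := Exp_half (n := p) (by
    rw [norm_p_eq, one_div]
    exact inv_anti₀ two_pos (by exact_mod_cast (Fact.out : p.Prime).two_le)) (h1.trans (by norm_num)) k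
  have h3 : u ^ d * (p : PadicAlgCl p) ^ r ≠ 0 := mul_ne_zero (pow_ne_zero _ h0) (zpow_ne_zero _ hp)
  refine ⟨d * M * p ^ k, _, mul_ne_zero (mul_ne_zero (hd ▸ Nat.factorial_ne_zero _) M0)
    (pow_ne_zero _ (Fact.out : p.Prime).ne_zero), ?_, h2.trans (le_trans
      (pow_le_pow_of_le_one (by norm_num) (by norm_num) (Nat.le_succ k)) hk.le), ?_⟩
  · refine (((ha.pow d).mul ?_).pow M).pow _
    simpa using isAlgebraic_algebraMap (A := PadicAlgCl p) ((p : ℚ) ^ r)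
  · rw [T.log_pow hL (pow_ne_zero _ h3), T.log_pow hL h3,
      hL.1 _ _ (pow_ne_zero _ h0) (zpow_ne_zero _ hp), hL.zpow, T.log_pow hL h0]
    push_cast
    ring

end Pool.Agent.Work.MP_dd0d16_nt.W
end

-- merged part: Pool.Agent.Work.MP_dd0d16_nt.W.AuxP
section
/-!
The auxiliary polynomial.

PLAN. `cover`: each `v i` is integral over `ℤ_[p]` (the coefficients of `minpoly ℚ_[p] (v i)` have norm `≤ 1`: the conjugates have the same norm,
or `spectralNorm` lemmas; alternatively use a basis of the finite extension `ℚ_[p](v)` and equivalence of norms to bound the coordinates), so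
`Algebra.adjoin ℤ_[p] (range v)` is a finite module with generators `ω 1 .. ω g` of norm `≤ 1`; choose coordinates and apply `PadicInt.toZModPow N`.
`aux_q`: pigeonhole (`Fintype.exists_ne_map_eq_of_card_lt`) for the map from `(V → Fin T) → Fin (p ^ b)` to
`({i // i ≠ i0} → Fin N) → Fin g → ZMod (p ^ N)` given by the classes of the moments; `q` is the difference. If `κ i0 ≠ 0` the moment
vanishes since `a i0 + a i0 * v i0 = 0`. `aux_small`: `U a = ∏ i, u i ^ a i` is within `p⁻¹ ^ 2` of one, `L (U a) = ∑ i, (a i + a i0 * v i) * L (u i)`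
by `hv`; `exp_log`; exchange the sums, multinomial theorem (`Finset.sum_pow_eq_sum_piAntidiag`), `norm_fact_inv`, `log_small`.
-/

set_option autoImplicit false

namespace Pool.Agent.Work.MP_dd0d16_nt.W

open Finset

variable {p : ℕ} [Fact p.Prime] {L : PadicAlgCl p → PadicAlgCl p}

theorem AuxP_int {x : PadicAlgCl p} (hx : ‖x‖ ≤ 1) : IsIntegral ℤ_[p] x := by
  have hi : IsIntegral ℚ_[p] x := (Algebra.IsAlgebraic.isAlgebraic x).isIntegral
  have h1 : ∀ n, ‖(minpoly ℚ_[p] x).coeff n‖ ≤ 1 :=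
    (spectralValue_le_one_iff (minpoly.monic hi)).mp hx
  have h2 : minpoly ℚ_[p] x ∈ Polynomial.lifts (algebraMap ℤ_[p] ℚ_[p]) :=
    (Polynomial.lifts_iff_coeff_lifts _).mpr fun n => ⟨⟨_, h1 n⟩, rfl⟩
  obtain ⟨P, hP, -, hm⟩ := Polynomial.lifts_and_natDegree_eq_and_monic h2 (minpoly.monic hi)
  refine ⟨P, hm, ?_⟩
  rw [← Polynomial.aeval_def, ← Polynomial.aeval_map_algebraMap ℚ_[p], hP, minpoly.aeval]

theorem AuxP_norm_alg (c : ℤ_[p]) : ‖algebraMap ℤ_[p] (PadicAlgCl p) c‖ = ‖c‖ := by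
  rw [IsScalarTower.algebraMap_apply ℤ_[p] ℚ_[p] (PadicAlgCl p), norm_algebraMap']
  rfl

theorem AuxP_adj {V : Type} (v : V → PadicAlgCl p) (hv : ∀ i, ‖v i‖ ≤ 1) {x : PadicAlgCl p}
    (hx : x ∈ Algebra.adjoin ℤ_[p] (Set.range v)) : ‖x‖ ≤ 1 := by
  induction hx using Algebra.adjoin_induction with
  | mem x hx =>
    obtain ⟨i, rfl⟩ := hx
    exact hv i
  | algebraMap c =>
    rw [AuxP_norm_alg]
    exact c.norm_le_one
  | add x y _ _ hx hy => exact (IsUltrametricDist.norm_add_le_max _ _).trans (max_le hx hy)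
  | mul x y _ _ hx hy =>
    rw [norm_mul]
    exact mul_le_one₀ hx (norm_nonneg _) hy

theorem AuxP_near {I : Type} (s : Finset I) (z : I → PadicAlgCl p) {r : ℝ} (h0 : 0 ≤ r)
    (h1 : r ≤ 1) (hz : ∀ i, ‖z i - 1‖ ≤ r) : ‖∏ i ∈ s, z i - 1‖ ≤ r := by
  classical
  induction s using Finset.induction_on with
  | empty => simpa using h0
  | insert i s hi ih =>
    rw [Finset.prod_insert hi]
    have e : z i * ∏ j ∈ s, z j - 1 =
        (z i - 1) * (∏ j ∈ s, z j - 1) + ((z i - 1) + (∏ j ∈ s, z j - 1)) := by ring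
    rw [e]
    refine (IsUltrametricDist.norm_add_le_max _ _).trans (max_le ?_
      ((IsUltrametricDist.norm_add_le_max _ _).trans (max_le (hz i) ih)))
    rw [norm_mul]
    exact (mul_le_of_le_one_left (norm_nonneg _) ((hz i).trans h1)).trans ih

theorem cover {V : Type} [Fintype V] (v : V → PadicAlgCl p) (hv : ∀ i, ‖v i‖ ≤ 1) :
    ∃ g : ℕ, ∀ N : ℕ, ∃ cl : PadicAlgCl p → Fin g → ZMod (p ^ N),
      ∀ a ∈ Algebra.adjoin ℤ (Set.range v), ∀ b ∈ Algebra.adjoin ℤ (Set.range v),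
        cl a = cl b → ‖a - b‖ ≤ (p : ℝ)⁻¹ ^ N := by
  obtain ⟨g, ω, hω⟩ := Submodule.fg_iff_exists_fin_generating_family.mp
    (fg_adjoin_of_finite (R := ℤ_[p]) (Set.finite_range v) (by
      rintro _ ⟨i, rfl⟩
      exact AuxP_int (hv i)))
  have hω1 : ∀ j, ‖ω j‖ ≤ 1 := fun j => AuxP_adj v hv (by
    have : ω j ∈ Submodule.span ℤ_[p] (Set.range ω) := Submodule.subset_span ⟨j, rfl⟩
    rw [hω] at this
    exact this)
  have hc : ∀ a : PadicAlgCl p, ∃ c : Fin g → ℤ_[p],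
      a ∈ Algebra.adjoin ℤ (Set.range v) → ∑ j, c j • ω j = a := by
    intro a
    by_cases ha : a ∈ Algebra.adjoin ℤ (Set.range v)
    · have h1 : a ∈ Algebra.adjoin ℤ_[p] (Set.range v) :=
        (Algebra.adjoin_le (S := (Algebra.adjoin ℤ_[p] (Set.range v)).restrictScalars ℤ)
          (fun _ hx => (Subalgebra.mem_restrictScalars ℤ).2 (Algebra.subset_adjoin hx))) ha
      have h2 : a ∈ Submodule.span ℤ_[p] (Set.range ω) := by
        rw [hω]
        exact h1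
      obtain ⟨c, hc⟩ := (Submodule.mem_span_range_iff_exists_fun _).mp h2
      exact ⟨c, fun _ => hc⟩
    · exact ⟨0, fun h => absurd h ha⟩
  choose c hc using hc
  refine ⟨g, fun N => ⟨fun a j => PadicInt.toZModPow N (c a j), fun a ha b hb hab => ?_⟩⟩
  rw [← hc a ha, ← hc b hb, ← Finset.sum_sub_distrib]
  refine IsUltrametricDist.norm_sum_le_of_forall_le_of_nonneg (by positivity) fun j _ => ?_
  have h1 : ‖c a j - c b j‖ ≤ (p : ℝ) ^ (-N : ℤ) := by
    rw [PadicInt.norm_le_pow_iff_mem_span_pow, ← PadicInt.ker_toZModPow, RingHom.mem_ker,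
      map_sub, sub_eq_zero]
    exact congrFun hab j
  rw [← sub_smul, Algebra.smul_def, norm_mul, AuxP_norm_alg, inv_pow]
  rw [zpow_neg, zpow_natCast] at h1
  exact (mul_le_of_le_one_right (norm_nonneg _) (hω1 j)).trans h1

theorem aux_q {V : Type} [Fintype V] [DecidableEq V] (i0 : V) (v : V → PadicAlgCl p)
    (hv : ∀ i, ‖v i‖ ≤ 1) (h0 : v i0 = -1) : ∃ g : ℕ, ∀ T N b : ℕ,
      g * N ^ Fintype.card V < b * T ^ Fintype.card V → ∃ q : (V → Fin T) → ℤ, q ≠ 0 ∧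
        (∀ a, |q a| ≤ p ^ b) ∧ ∀ κ : V → ℕ, (∀ i, κ i < N) →
          ‖∑ a, (q a : PadicAlgCl p) * ∏ i, (((a i : ℕ) : PadicAlgCl p) + (a i0 : ℕ) * v i) ^ κ i‖ ≤
            (p : ℝ)⁻¹ ^ N := by
  obtain ⟨g, hg⟩ := cover v hv
  refine ⟨g, fun T N b hlt => ?_⟩
  obtain ⟨cl, hcl⟩ := hg N
  have hp : 1 < p := (Fact.out : p.Prime).one_lt
  have : NeZero (p ^ N) := ⟨pow_ne_zero _ (by omega)⟩
  let M : ((V → Fin T) → Fin (p ^ b)) → ({i // i ≠ i0} → Fin N) → PadicAlgCl p := fun x κ =>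
    ∑ a, ((x a : ℕ) : PadicAlgCl p) *
      ∏ i : {i // i ≠ i0}, (((a i.1 : ℕ) : PadicAlgCl p) + (a i0 : ℕ) * v i.1) ^ (κ i : ℕ)
  have hM : ∀ x κ, M x κ ∈ Algebra.adjoin ℤ (Set.range v) := fun x κ =>
    Subalgebra.sum_mem _ fun a _ => Subalgebra.mul_mem _ (Subalgebra.natCast_mem _ _)
      (Subalgebra.prod_mem _ fun i _ => Subalgebra.pow_mem _ (Subalgebra.add_mem _
        (Subalgebra.natCast_mem _ _) (Subalgebra.mul_mem _ (Subalgebra.natCast_mem _ _)
          (Algebra.subset_adjoin (Set.mem_range_self i.1)))) _)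
  obtain ⟨x, y, hxy, he⟩ := Fintype.exists_ne_map_eq_of_card_lt (fun x κ => cl (M x κ)) (by
    have hc : Fintype.card {i // i ≠ i0} + 1 = Fintype.card V := by
      have h1 : 0 < Fintype.card V := Fintype.card_pos_iff.mpr ⟨i0⟩
      rw [Fintype.card_subtype_compl, Fintype.card_subtype_eq]
      omega
    simp only [Fintype.card_fun, Fintype.card_fin, ZMod.card]
    rw [← pow_mul, ← pow_mul, ← pow_mul]
    refine Nat.pow_lt_pow_right hp (lt_of_eq_of_lt ?_ hlt)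
    rw [← hc, pow_succ]
    ring)
  refine ⟨fun a => ((x a : ℕ) : ℤ) - ((y a : ℕ) : ℤ), ?_, fun a => ?_, fun κ hκ => ?_⟩
  · intro h
    apply hxy
    funext a
    have := congrFun h a
    simp only [Pi.zero_apply] at this
    exact Fin.ext (by omega)
  · have h1 : ((x a : ℕ) : ℤ) < p ^ b := by exact_mod_cast (x a).2
    have h2 : ((y a : ℕ) : ℤ) < p ^ b := by exact_mod_cast (y a).2
    show |((x a : ℕ) : ℤ) - ((y a : ℕ) : ℤ)| ≤ p ^ b
    rw [abs_le]
    constructor <;> omega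
  · by_cases hk : κ i0 = 0
    · have h1 := hcl _ (hM x fun i => ⟨κ i.1, hκ i.1⟩) _ (hM y fun i => ⟨κ i.1, hκ i.1⟩)
        (congrFun he _)
      refine le_of_eq_of_le (congrArg _ ?_) h1
      simp only [M]
      rw [← Finset.sum_sub_distrib]
      refine Finset.sum_congr rfl fun a _ => ?_
      rw [Fintype.prod_eq_mul_prod_subtype_ne _ i0, hk, pow_zero, one_mul, ← sub_mul]
      push_cast
      rfl
    · rw [Finset.sum_eq_zero fun a _ => ?_, norm_zero]
      · positivity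
      · rw [Finset.prod_eq_zero (Finset.mem_univ i0), mul_zero]
        rw [h0, mul_neg_one, add_neg_cancel, zero_pow hk]

theorem aux_small (hL : IsLog L) {V : Type} [Fintype V] [DecidableEq V] (i0 : V)
    (v : V → PadicAlgCl p) {T N : ℕ} {q : (V → Fin T) → ℤ}
    (hq : ∀ κ : V → ℕ, (∀ i, κ i < N) →
      ‖∑ a, (q a : PadicAlgCl p) * ∏ i, (((a i : ℕ) : PadicAlgCl p) + (a i0 : ℕ) * v i) ^ κ i‖ ≤
        (p : ℝ)⁻¹ ^ N) {u : V → PadicAlgCl p} (hu : ∀ i, ‖u i - 1‖ ≤ (p : ℝ)⁻¹ ^ 2)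
    (hv : ∑ i, v i * L (u i) = 0) :
    ‖∑ a, (q a : PadicAlgCl p) * ∏ i, u i ^ (a i : ℕ)‖ ≤ (p : ℝ)⁻¹ ^ N := by
  have hp : (1 : ℝ) < p := by exact_mod_cast (Fact.out : p.Prime).one_lt
  have hp0 : (0 : ℝ) < p := by linarith
  have hr1 : (p : ℝ)⁻¹ ^ 2 < 1 := pow_lt_one₀ (by positivity) (inv_lt_one_of_one_lt₀ hp) two_ne_zero
  have hu0 : ∀ i, u i ≠ 0 := fun i h => by
    have := hu i
    rw [h, zero_sub, norm_neg, norm_one] at this
    linarith
  have hU : ∀ a : V → Fin T, ‖∏ i, u i ^ (a i : ℕ) - 1‖ ≤ (p : ℝ)⁻¹ ^ 2 := fun a =>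
    AuxP_near _ _ (by positivity) hr1.le fun i => by
      have := AuxP_near (range (a i : ℕ)) (fun _ => u i) (by positivity) hr1.le fun _ => hu i
      rwa [Finset.prod_const, Finset.card_range] at this
  have hLU : ∀ a : V → Fin T, L (∏ i, u i ^ (a i : ℕ)) =
      ∑ i, (((a i : ℕ) : PadicAlgCl p) + (a i0 : ℕ) * v i) * L (u i) := by
    intro a
    rw [MP_dd0d16_nt.T.log_prod hL _ _ fun i => pow_ne_zero _ (hu0 i)]
    simp only [MP_dd0d16_nt.T.log_pow hL (hu0 _), add_mul, Finset.sum_add_distrib, mul_assoc, ← Finset.mul_sum,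
      hv, mul_zero, add_zero]
  have e : ∑ a, (q a : PadicAlgCl p) * ∏ i, u i ^ (a i : ℕ) =
      ∑ a, (q a : PadicAlgCl p) * (∏ i, u i ^ (a i : ℕ) -
        ∑ m ∈ range N, L (∏ i, u i ^ (a i : ℕ)) ^ m / (m.factorial : PadicAlgCl p)) +
      ∑ m ∈ range N, ∑ k ∈ piAntidiag univ m, ((m.factorial : PadicAlgCl p)⁻¹ *
        ((Nat.multinomial univ k : PadicAlgCl p) * ∏ i, L (u i) ^ k i)) *
          ∑ a, (q a : PadicAlgCl p) *
            ∏ i, (((a i : ℕ) : PadicAlgCl p) + (a i0 : ℕ) * v i) ^ k i := by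
    simp only [mul_sub, Finset.sum_sub_distrib]
    rw [sub_add, eq_comm, sub_eq_self, sub_eq_zero]
    simp only [Finset.mul_sum]
    rw [Finset.sum_comm]
    refine Finset.sum_congr rfl fun m _ => ?_
    rw [Finset.sum_comm]
    refine Finset.sum_congr rfl fun a _ => ?_
    rw [hLU, Finset.sum_pow_eq_sum_piAntidiag, Finset.sum_div, Finset.mul_sum]
    refine Finset.sum_congr rfl fun k _ => ?_
    simp only [mul_pow, Finset.prod_mul_distrib]
    ring
  rw [e]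
  refine (IsUltrametricDist.norm_add_le_max _ _).trans (max_le ?_ ?_)
  · refine IsUltrametricDist.norm_sum_le_of_forall_le_of_nonneg (by positivity) fun a _ => ?_
    rw [norm_mul]
    exact (mul_le_of_le_one_left (norm_nonneg _)
      (IsUltrametricDist.norm_intCast_le_one _ _)).trans (exp_log hL (hU a) N)
  · refine IsUltrametricDist.norm_sum_le_of_forall_le_of_nonneg (by positivity) fun m hm => ?_
    refine IsUltrametricDist.norm_sum_le_of_forall_le_of_nonneg (by positivity) fun k hk => ?_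
    have hk1 : ∑ i, k i = m := (Finset.mem_piAntidiag.mp hk).1
    have hk2 : ∀ i, k i < N := fun i =>
      ((Finset.single_le_sum (fun j _ => Nat.zero_le (k j)) (mem_univ i)).trans hk1.le).trans_lt
        (mem_range.mp hm)
    rw [norm_mul]
    refine (mul_le_of_le_one_left (norm_nonneg _) ?_).trans (hq k hk2)
    have h1 : ‖∏ i, L (u i) ^ k i‖ ≤ ((p : ℝ)⁻¹ ^ 2) ^ m := by
      rw [norm_prod, ← hk1, ← Finset.prod_pow_eq_pow_sum]
      refine Finset.prod_le_prod (fun i _ => norm_nonneg _) fun i _ => ?_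
      rw [norm_pow]
      exact pow_le_pow_left₀ (norm_nonneg _) (log_small hL (hu i)) _
    rw [norm_mul, norm_mul]
    calc _ ≤ (p : ℝ) ^ m * (1 * ((p : ℝ)⁻¹ ^ 2) ^ m) :=
          mul_le_mul (norm_fact_inv m) (mul_le_mul (IsUltrametricDist.norm_natCast_le_one _ _) h1
            (norm_nonneg _) zero_le_one) (by positivity) (by positivity)
      _ = (p : ℝ)⁻¹ ^ m := by
          rw [one_mul, ← mul_pow]
          congr 1
          field_simp
      _ ≤ 1 := pow_le_one₀ (by positivity) (inv_le_one_of_one_le₀ hp.le)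

end Pool.Agent.Work.MP_dd0d16_nt.W
end

-- merged part: Pool.Agent.Work.MP_dd0d16_nt.W.Liou
section
/-!
Liouville inequality.

PLAN. `H = ℚ⟮range γ⟯` is a number field of degree `n`. Take `δ ≠ 0` in `ℕ` with all `δ * γ i` integral over `ℤ` (`IsAlgebraic.exists_integral_multiples` or
`exists_nsmul_isIntegral`), and `C ≥ δ` a natural number that bounds all `‖φ (δ * γ i)‖`, `φ : H →+* ℂ`. With `R = E * card W` the element
`y = δ ^ R * ∑ q a * ∏ γ i ^ μ a i` of `H` is integral, each complex conjugate has norm at most `card A * B * C ^ R`. The norm `Algebra.norm ℚ y` is a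
nonzero integer `n0` (`Algebra.norm_eq_prod_embeddings` into `ℂ`, `isIntegral_norm`), `|n0| ≤ (card A * B * C ^ R) ^ n`, and `n0 = y * y'` with `y'`
integral (product of the other embeddings into `PadicAlgCl p`, or `RingOfIntegers.dvd_norm`-like; see `TameK.exists_int`), so
`‖n0‖ ≤ ‖y‖ ≤ ‖∑ ..‖` (`norm_le_one_of_isIntegral`), `norm_int_ge`. Take `c0 = max n (C ^ card W) + 1`.
-/

set_option autoImplicit false

namespace Pool.Agent.Work.MP_dd0d16_nt.W

open Finset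

variable {p : ℕ} [Fact p.Prime] {L : PadicAlgCl p → PadicAlgCl p}

theorem Liou_tame {z : PadicAlgCl p} (h : IsAlgebraic ℚ z) : ∃ d : ℕ, Tame d d z := by
  obtain ⟨f, h1, h2⟩ := (IsFractionRing.isAlgebraic_iff ℤ ℚ _).2 h
  have h3 : ∀ i, |f.coeff i| ≤ (f.support.sup fun i => (f.coeff i).natAbs : ℕ) := fun i => by
    by_cases k : i ∈ f.support
    · rw [← Int.natCast_natAbs]
      exact_mod_cast Finset.le_sup (f := fun i => (f.coeff i).natAbs) k
    · simp [Polynomial.notMem_support_iff.1 k]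
  generalize (f.support.sup fun i => (f.coeff i).natAbs) = H at h3
  refine ⟨f.natDegree + (H + 1), (Tame.of_root h1 le_rfl h3 h2).mono (Nat.le_add_right _ _) ?_⟩
  exact_mod_cast Nat.le_add_left _ _

theorem Liou_sum {K : Type} [Field K] [Algebra ℚ K] {W A : Type} [Fintype W] [Fintype A] {N : ℕ}
    {C : ℝ} {x : W → K} (hx : ∀ i, TameK N C (x i)) (hC : 1 ≤ C) {q : A → ℤ} {μ : A → W → ℕ}
    {B E : ℕ} (hq : ∀ a, |q a| ≤ B) (hμ : ∀ a i, μ a i ≤ E)
    (h0 : (1 : ℝ) ≤ Fintype.card A * B) :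
    TameK (N ^ Fintype.card W) (Fintype.card A * B * (C ^ Fintype.card W) ^ E)
      (∑ a, (q a : K) * ∏ i, x i ^ μ a i) := by
  classical
  have hE : 1 ≤ (C ^ Fintype.card W) ^ E := one_le_pow₀ (one_le_pow₀ hC)
  have hp : ∀ f : W → ℝ, (∀ i, 0 ≤ f i) → (∀ i, f i ≤ C ^ E) →
      ∏ i, f i ≤ (C ^ Fintype.card W) ^ E := fun f h1 h2 => by
    rw [pow_right_comm, ← card_univ, ← prod_const]
    exact prod_le_prod (fun i _ => h1 i) fun i _ => h2 i
  refine ⟨one_le_mul_of_one_le_of_one_le h0 hE, ?_, ?_, fun φ => ?_⟩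
  · choose s h1 h2 using fun s => (hx s).card
    refine ⟨(Fintype.piFinset s).image fun v => ∑ a, (q a : ℂ) * ∏ i, v i ^ μ a i, ?_, fun φ => ?_⟩
    · refine card_image_le.trans ?_
      rw [Fintype.card_piFinset]
      exact (prod_le_pow_card _ _ N fun s _ => h1 s).trans (by simp)
    · exact mem_image.2 ⟨fun s => φ (x s), Fintype.mem_piFinset.2 fun s => h2 s φ, by simp⟩
  · choose b h1 h2 h3 using fun s => (hx s).den
    refine ⟨∏ s, b s ^ E, prod_ne_zero_iff.2 fun s _ => pow_ne_zero _ (h1 s), ?_, ?_⟩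
    · push_cast
      rw [abs_prod]
      refine (hp _ (fun _ => abs_nonneg _) fun s => ?_).trans
        (le_mul_of_one_le_left (zero_le_one.trans hE) h0)
      rw [abs_pow]
      exact pow_le_pow_left₀ (abs_nonneg _) (h2 s) E
    · rw [mul_sum]
      refine IsIntegral.sum _ fun a _ => ?_
      have e : ((∏ s, b s ^ E : ℤ) : K) * (q a * ∏ s, x s ^ μ a s) =
          (q a : K) * ∏ s, ((b s : K) ^ (E - μ a s) * (b s * x s) ^ μ a s) := by
        push_cast
        rw [mul_left_comm, ← prod_mul_distrib]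
        refine congrArg _ (prod_congr rfl fun s _ => ?_)
        rw [mul_pow, ← mul_assoc, ← pow_add, Nat.sub_add_cancel (hμ a s)]
      rw [e]
      exact (isIntegral_algebraMap (x := q a)).mul (IsIntegral.prod _ fun s _ =>
        ((isIntegral_algebraMap (x := b s)).pow _).mul ((h3 s).pow _))
  · rw [map_sum, mul_assoc, ← nsmul_eq_mul, ← card_univ]
    refine (norm_sum_le _ _).trans (sum_le_card_nsmul _ _ _ fun a _ => ?_)
    rw [map_mul, norm_mul, map_intCast, Complex.norm_intCast, map_prod, norm_prod]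
    refine mul_le_mul (by exact_mod_cast hq a) (hp _ (fun _ => norm_nonneg _) fun s => ?_)
      (prod_nonneg fun _ _ => norm_nonneg _) B.cast_nonneg
    rw [map_pow, norm_pow]
    exact (pow_le_pow_left₀ (norm_nonneg _) ((hx s).house φ) _).trans
      (pow_le_pow_right₀ hC (hμ a s))

theorem liou {W : Type} [Fintype W] (γ : W → PadicAlgCl p) (hγ : ∀ i, IsAlgebraic ℚ (γ i)) :
    ∃ c0 : ℕ, ∀ (A : Type) [Fintype A] (q : A → ℤ) (μ : A → W → ℕ) (B E : ℕ),
      (∀ a, |q a| ≤ B) → (∀ a i, μ a i ≤ E) →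
      ∑ a, (q a : PadicAlgCl p) * ∏ i, γ i ^ μ a i ≠ 0 →
      1 ≤ ((Fintype.card A * B * c0 ^ E : ℕ) : ℝ) ^ c0 *
        ‖∑ a, (q a : PadicAlgCl p) * ∏ i, γ i ^ μ a i‖ := by
  choose d hd using fun i => Liou_tame (hγ i)
  obtain ⟨N, hN, h1⟩ : ∃ N : ℕ, 1 ≤ N ∧ ∀ i, Tame N N (γ i) :=
    ⟨univ.sup d + 1, Nat.le_add_left _ _, fun i =>
      have h : d i ≤ univ.sup d + 1 := (le_sup (mem_univ i)).trans (Nat.le_succ _)
      (hd i).mono h (by exact_mod_cast h)⟩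
  choose x e hx using h1
  refine ⟨2 * N ^ Fintype.card W, fun A _ q μ B E hq hμ h0 => ?_⟩
  have h2 : 1 ≤ Fintype.card A * B := by
    obtain ⟨a, -, ha⟩ := exists_ne_zero_of_sum_ne_zero h0
    have h3 : q a ≠ 0 := fun k => ha (by simp [k])
    have h4 : 1 ≤ B := by exact_mod_cast (Int.one_le_abs h3).trans (hq a)
    exact Nat.mul_pos (Fintype.card_pos_iff.2 ⟨a⟩) h4
  have h3 := Tame.liouville norm_int_ge ⟨_, by simp [e], Liou_sum hx (by exact_mod_cast hN) hq hμ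
    (by exact_mod_cast h2)⟩ h0
  refine h3.trans (mul_le_mul_of_nonneg_right ?_ (norm_nonneg _))
  rw [← sq, ← pow_mul]
  refine pow_le_pow_left₀ (by positivity) ?_ _
  exact_mod_cast Nat.mul_le_mul_left _ (Nat.pow_le_pow_left (by omega) _)

end Pool.Agent.Work.MP_dd0d16_nt.W
end

-- merged part: Pool.Agent.Work.MP_dd0d16_nt.W.ZE1
section
/-!
Zero estimate on the torus, first half: counting translates of a top-dimensional prime.

PLAN. Let `E` be an algebraic closure of the fraction field of `MvPolynomial V K ⧸ P` and `z i` the image of `X i` (nonzero); the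
kernel of `aeval z` is `P`. Every `z i` is algebraic over `Algebra.adjoin K (z j, j ∈ J)`: apply `hmax` to `Q = P.comap (scl g0)`-type
primes, or simply: if `T` is empty there is nothing to prove; for `g ∈ T` put `Q g = ker (aeval (g * z))`, a prime that contains `Φ`, no `X i`,
with `CI (Q g) J`; by `hmax` and `AlgebraicIndependent.option_iff` (or `insert`) each `g i * z i` is algebraic over `K[g j * z j]`, so `E` is
algebraic over it. `IsAlgClosed.lift` (two algebra structures of `MvPolynomial J K` on `E`, both injective) gives a `K`-algebra map `θ g : E → E`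
with `θ g (g j * z j) = z j` for `j ∈ J`. The point `w g = θ g ∘ (g * z)` has `ker (aeval (w g)) = Q g`, so `g ↦ w g` is injective on `T` by `hT`.
Apply `PRank.card_le_of_codim` over `E` with `e = 0`, `c = card V`, equations `map (algebraMap K E) φ` (`φ ∈ Φ`) and `X j - C (z j)` (`j ∈ J`),
`S` the finite set of all coordinates. Hypothesis `hdim`: let `R` be a prime of `MvPolynomial V E` with these equations, inside `pt (w g)`, with
`Indep E R 1`. Then some `X i` is transcendental over `E` modulo `R` (otherwise the quotient is algebraic over `E`); the comap of `R` in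
`MvPolynomial V K` is a prime that contains `Φ`, no `X i`, with `CI` for `insert i J` and `i ∉ J`; this contradicts `hmax`.
-/

set_option autoImplicit false

namespace Pool.Agent.Work.MP_dd0d16_nt.W

open MvPolynomial

variable {K V : Type} [Field K] [Fintype V] [DecidableEq V]

/-- the coordinates in `J` are algebraically independent modulo `P` -/
def CI (P : Ideal (MvPolynomial V K)) (J : Finset V) : Prop :=
  AlgebraicIndependent K fun j : J => Ideal.Quotient.mk P (X (j : V))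

/-- translation by `g` -/
noncomputable def scl (g : V → Kˣ) : MvPolynomial V K →ₐ[K] MvPolynomial V K :=
  aeval fun i => C (g i : K) * X i

omit [Fintype V] [DecidableEq V] in
theorem scl_scl (g h : V → Kˣ) (φ : MvPolynomial V K) : scl g (scl h φ) = scl (g * h) φ := by
  have : (scl g).comp (scl h) = scl (K := K) (g * h) := by
    ext i : 1
    simp only [scl, AlgHom.comp_apply, aeval_X, map_mul, algHom_C, algebraMap_eq, Pi.mul_apply,
      Units.val_mul]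
    ring
  exact AlgHom.congr_fun this φ

omit [Fintype V] [DecidableEq V] in
theorem scl_one (φ : MvPolynomial V K) : scl 1 φ = φ := by
  have : scl (K := K) (1 : V → Kˣ) = AlgHom.id K _ := by
    ext i : 1
    simp [scl]
  exact AlgHom.congr_fun this φ

omit [Fintype V] [DecidableEq V] in
theorem ci_iff {P : Ideal (MvPolynomial V K)} {J : Finset V} :
    CI P J ↔ ∀ q : MvPolynomial J K, rename Subtype.val q ∈ P → q = 0 := by
  have h : aeval (fun j : J => Ideal.Quotient.mk P (X (j : V))) =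
      (Ideal.Quotient.mkₐ K P).comp (rename Subtype.val) := by
    ext i : 1
    simp
  simp only [CI, algebraicIndependent_iff, h, AlgHom.comp_apply, Ideal.Quotient.mkₐ_eq_mk,
    Ideal.Quotient.eq_zero_iff_mem]

omit [Fintype V] [DecidableEq V] in
theorem CI.scl {P : Ideal (MvPolynomial V K)} {J : Finset V} (h : CI P J) (g : V → Kˣ) :
    CI (P.comap (scl g)) J := by
  rw [ci_iff] at h ⊢
  intro q hq
  have e : (W.scl g).comp (rename Subtype.val) =
      (rename Subtype.val).comp (W.scl (K := K) fun j : J => g j) := by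
    ext i : 1
    simp [W.scl]
  have h1 := h (W.scl (fun j : J => g j) q) (by
    have := AlgHom.congr_fun e q
    simp only [AlgHom.comp_apply] at this
    rw [← this]
    exact hq)
  rw [← scl_one q, ← inv_mul_cancel (fun j : J => g j), ← scl_scl, h1, map_zero]

omit [Fintype V] [DecidableEq V] in
theorem scl_X {P : Ideal (MvPolynomial V K)} (hX : ∀ i, X i ∉ P) (g : V → Kˣ) (i : V) :
    X i ∉ P.comap (scl g) := fun h => hX i (by
  have h1 := P.mul_mem_left (C ((g i)⁻¹ : Kˣ).val) (Ideal.mem_comap.1 h)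
  rwa [scl, aeval_X, ← mul_assoc, ← map_mul, Units.inv_mul, map_one, one_mul] at h1)

omit [Fintype V] in
theorem ci_insert {A : Type} [CommRing A] [Algebra K A] (π : MvPolynomial V K →ₐ[K] A)
    {J : Finset V} {i : V} (_hi : i ∉ J)
    (h : AlgebraicIndependent K (Sum.elim (fun _ : Unit => π (X i)) fun j : J => π (X (j : V)))) :
    CI (RingHom.ker π) (insert i J) := by
  let f : ↥(insert i J) → Unit ⊕ J := fun j =>
    if hj : (j : V) ∈ J then Sum.inr ⟨j, hj⟩ else Sum.inl ()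
  have hf : ∀ j, Sum.elim (fun _ : Unit => i) (fun j : J => (j : V)) (f j) = j := fun j => by
    by_cases hj : (j : V) ∈ J
    · simp [f, hj]
    · simp only [f, hj, dite_false, Sum.elim_inl]
      exact ((Finset.mem_insert.1 j.2).resolve_right hj).symm
  have hinj : Function.Injective f := fun a b hab => Subtype.ext (by rw [← hf a, ← hf b, hab])
  refine AlgebraicIndependent.of_comp (Ideal.kerLiftAlg π) ?_
  suffices e : (Ideal.kerLiftAlg π ∘ fun j : ↥(insert i J) =>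
      Ideal.Quotient.mk (RingHom.ker π) (X (j : V))) =
      (Sum.elim (fun _ : Unit => π (X i)) fun j : J => π (X (j : V))) ∘ f from e ▸ h.comp f hinj
  ext j
  have h2 := hf j
  simp only [Function.comp_apply, Ideal.kerLiftAlg_mk]
  rcases h3 : f j with u | u <;> rw [h3] at h2 <;> exact congrArg (fun t => π (X t)) h2.symm

omit [Fintype V] [DecidableEq V] in
theorem alg_all {B A : Type} [CommRing B] [NoZeroDivisors B] [Nontrivial B] [CommRing A]
    [Algebra K A] [Algebra K B] [Algebra B A] [IsScalarTower K B A]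
    (π : MvPolynomial V K →ₐ[K] A) (h : ∀ i, IsAlgebraic B (π (X i))) (φ : MvPolynomial V K) :
    IsAlgebraic B (π φ) := by
  induction φ using MvPolynomial.induction_on with
  | C a =>
    rw [algHom_C, IsScalarTower.algebraMap_apply K B A]
    exact isAlgebraic_algebraMap _
  | add φ ψ h1 h2 => rw [map_add]; exact h1.add h2
  | mul_X φ i h1 => rw [map_mul]; exact h1.mul (h i)

omit [Fintype V] in
theorem generic {Q : Ideal (MvPolynomial V K)} [Q.IsPrime] {J : Finset V} (hJ : CI Q J)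
    (hm : ∀ i, i ∉ J → ¬ CI Q (insert i J)) {E : Type} [Field E] [IsAlgClosed E] [Algebra K E]
    {z : J → E} (hz : AlgebraicIndependent K z) :
    ∃ w : V → E, (∀ φ, aeval w φ = 0 ↔ φ ∈ Q) ∧ ∀ j : J, w j = z j := by
  let y : J → MvPolynomial V K ⧸ Q := fun j => Ideal.Quotient.mk Q (X (j : V))
  let B := Algebra.adjoin K (Set.range y)
  have ha : ∀ i, IsAlgebraic B (Ideal.Quotient.mkₐ K Q (X i)) := fun i => by
    by_cases hi : i ∈ J
    · exact isAlgebraic_algebraMap (⟨y ⟨i, hi⟩, Algebra.subset_adjoin ⟨_, rfl⟩⟩ : B)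
    by_contra ht
    refine hm i hi ?_
    have h1 := ci_insert (Ideal.Quotient.mkₐ K Q) hi
      (AlgebraicIndependent.sumElim hJ (algebraicIndependent_unique_type_iff.2 ht))
    rwa [show RingHom.ker (Ideal.Quotient.mkₐ K Q) = Q from Ideal.mk_ker] at h1
  have : Algebra.IsAlgebraic B (MvPolynomial V K ⧸ Q) := ⟨fun a => by
    obtain ⟨φ, rfl⟩ := Ideal.Quotient.mk_surjective a
    exact alg_all (Ideal.Quotient.mkₐ K Q) ha φ⟩
  let ι : B →ₐ[K] E := (aeval z).comp (AlgebraicIndependent.aevalEquiv hJ).symm.toAlgHom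
  have hι : Function.Injective ι :=
    (algebraicIndependent_iff_injective_aeval.1 hz).comp (AlgEquiv.injective _)
  let : Algebra B E := ι.toRingHom.toAlgebra
  have : IsScalarTower K B E := .of_algebraMap_eq fun a => (ι.commutes a).symm
  have : FaithfulSMul B E := (faithfulSMul_iff_algebraMap_injective B E).2 hι
  let θ : (MvPolynomial V K ⧸ Q) →ₐ[B] E := IsAlgClosed.lift
  have hθ : ∀ a, θ a = 0 → a = 0 := fun a h => by
    by_contra h0
    refine Ideal.comap_ne_bot_of_algebraic_mem (I := RingHom.ker θ) h0 h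
      (Algebra.IsAlgebraic.isAlgebraic (R := B) a) (eq_bot_iff.2 fun b hb => hι ?_)
    rw [map_zero]
    exact (θ.commutes b).symm.trans hb
  refine ⟨fun i => θ (Ideal.Quotient.mk Q (X i)), fun φ => ?_, fun j => ?_⟩
  · have e : aeval (fun i => θ (Ideal.Quotient.mk Q (X i))) =
        (θ.restrictScalars K).comp (Ideal.Quotient.mkₐ K Q) := by
      ext i : 1
      simp
    rw [e, ← Ideal.Quotient.eq_zero_iff_mem]
    exact ⟨hθ _, fun h => by simp [h]⟩
  · have h1 := θ.commutes (AlgebraicIndependent.aevalEquiv hJ (X j))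
    rw [AlgebraicIndependent.algebraMap_aevalEquiv, aeval_X] at h1
    refine h1.trans ?_
    change ι _ = _
    simp [ι]

theorem card_translates {P : Ideal (MvPolynomial V K)} [P.IsPrime] (hX : ∀ i, X i ∉ P)
    {J : Finset V} (hJ : CI P J) (Φ : Set (MvPolynomial V K)) {D : ℕ} (hD : 1 ≤ D)
    (hΦ : ∀ φ ∈ Φ, φ.totalDegree ≤ D)
    (hmax : ∀ (Q : Ideal (MvPolynomial V K)) (J' : Finset V), Q.IsPrime → (∀ φ ∈ Φ, φ ∈ Q) →
      (∀ i, X i ∉ Q) → CI Q J' → J'.card ≤ J.card)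
    (T : Finset (V → Kˣ)) (h1 : ∀ g ∈ T, ∀ φ ∈ Φ, scl g φ ∈ P)
    (hT : ∀ g ∈ T, ∀ g' ∈ T, P.comap (scl g) = P.comap (scl g') → g = g') :
    T.card ≤ D ^ Fintype.card V := by
  classical
  let E := AlgebraicClosure (FractionRing (MvPolynomial J K))
  let z : J → E := fun j => algebraMap (MvPolynomial J K) E (X j)
  have hz : AlgebraicIndependent K z :=
    (algebraicIndependent_X J K).map' (f := IsScalarTower.toAlgHom K (MvPolynomial J K) E)
      ((algebraMap (FractionRing (MvPolynomial J K)) E).injective.comp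
        (IsFractionRing.injective (MvPolynomial J K) _))
  have hm : ∀ Q : Ideal (MvPolynomial V K), Q.IsPrime → (∀ φ ∈ Φ, φ ∈ Q) → (∀ i, X i ∉ Q) →
      ∀ i, i ∉ J → ¬ CI Q (insert i J) := fun Q q1 q2 q3 i hi h => by
    have := hmax Q _ q1 q2 q3 h
    rw [Finset.card_insert_of_notMem hi] at this
    omega
  choose w hw1 hw2 using fun g : T => generic (Q := P.comap (scl g.1)) (hJ.scl g.1)
    (hm _ inferInstance (h1 g g.2) (scl_X hX g)) hz
  have hinj : Function.Injective w := fun g g' h =>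
    Subtype.ext (hT g g.2 g' g'.2 (Ideal.ext fun φ => by rw [← hw1, ← hw1, h]))
  have key := Pool.Agent.Lib.PRank.card_le_of_codim (k := E) (V := V) (κ := Φ ⊕ J)
    (Sum.elim (fun φ => map (algebraMap K E) φ.1) fun j => X (j : V) - C (z j)) D hD ?_
    (Finset.univ.image fun q : T × V => w q.1 q.2) (Fintype.card V) 0 rfl (Finset.univ.image w)
    ?_ ?_ ?_
  · rwa [Finset.card_image_of_injective _ hinj, Finset.card_univ, Fintype.card_coe, pow_zero,
      mul_one] at key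
  · rintro (φ | j)
    · exact (Finset.sup_mono (support_map_subset _ _)).trans (hΦ φ φ.2)
    · exact (totalDegree_sub_C_le _ _).trans (by rw [totalDegree_X]; exact hD)
  · simp only [Finset.mem_image, Finset.mem_univ, true_and]
    rintro _ ⟨g, rfl⟩ v
    exact ⟨(g, v), rfl⟩
  · simp only [Finset.mem_image, Finset.mem_univ, true_and]
    rintro _ ⟨g, rfl⟩ (φ | j)
    · rw [Sum.elim_inl, eval_map, ← aeval_def, hw1]
      exact h1 g g.2 φ φ.2
    · simp [hw2]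
  · simp only [Finset.mem_image, Finset.mem_univ, true_and]
    rintro _ ⟨g, rfl⟩ R hR r1 r2 ⟨y, hy⟩
    obtain ⟨i, hi⟩ : ∃ i, ¬ IsAlgebraic E (Ideal.Quotient.mkₐ E R (X i)) := by
      by_contra h
      simp only [not_exists, not_not] at h
      obtain ⟨φ, hφ⟩ := Ideal.Quotient.mk_surjective (y 0)
      exact hy.transcendental 0 (hφ ▸ alg_all (Ideal.Quotient.mkₐ E R) h φ)
    have hj : ∀ j : J, Ideal.Quotient.mk R (X (j : V)) = algebraMap E _ (z j) := fun j =>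
      Ideal.Quotient.eq.2 (r1 (Sum.inr j))
    have hiJ : i ∉ J := fun h => hi (by
      rw [Ideal.Quotient.mkₐ_eq_mk, hj ⟨i, h⟩]
      exact isAlgebraic_algebraMap _)
    let π : MvPolynomial V K →ₐ[K] MvPolynomial V E ⧸ R :=
      ((Ideal.Quotient.mkₐ E R).restrictScalars K).comp (mapAlgHom (Algebra.ofId K E))
    have hπ : ∀ φ, π φ = Ideal.Quotient.mk R (map (algebraMap K E) φ) := fun φ => rfl
    refine hm (RingHom.ker π) (RingHom.ker_isPrime _) (fun φ hφ => ?_) (fun l hl => ?_) i hiJ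
      (ci_insert π hiJ ?_)
    · rw [RingHom.mem_ker, hπ, Ideal.Quotient.eq_zero_iff_mem]
      exact r1 (Sum.inl ⟨φ, hφ⟩)
    · rw [RingHom.mem_ker, hπ, Ideal.Quotient.eq_zero_iff_mem, map_X] at hl
      have h2 : eval (w g) (X l) = 0 := r2 hl
      refine scl_X hX g l ((hw1 g _).1 ?_)
      rwa [eval_X, ← aeval_X (R := K) (w g) l] at h2
    · simp only [hπ, map_X, hj]
      exact hz.sumElim_comp (y := fun _ : Unit => Ideal.Quotient.mkₐ E R (X i))
        (algebraicIndependent_unique_type_iff.2 hi)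

end Pool.Agent.Work.MP_dd0d16_nt.W
end

-- merged part: Pool.Agent.Work.MP_dd0d16_nt.W.ZE2
section
/-!
Zero estimate on the torus (weak form of Masser's estimate).

PLAN. `scl` is multiplicative in `g`, keeps the total degree, `scl g (monomial μ a) = monomial μ (a * ∏ g i ^ μ i)`.
`stab_char`: `H = {g | P.comap (scl g) = P}` is a subgroup of `V → Kˣ`; in the fraction field `E` of the quotient,
`∑ μ ∈ F.support, (coeff μ F * z ^ μ) * χ μ g = 0` for `g ∈ H`, where `χ μ : H →* E` is the character `g ↦ ∏ g i ^ μ i`; all coefficients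
are nonzero, so by `linearIndependent_monoidHom` two different `μ, ν` have the same character; `a = μ - ν`.
`zero_est`: `Φ r = {scl (G s) F | ∀ j, s j ≤ r * S}`, `G s i = ∏ j, γ j i ^ s j`; `M r` is the largest `J.card` over primes `Q` that contain `Φ r`, no
`X i`, with `CI Q J` (`Nat.findGreatest` or `exists_max_image`; the prime `PRank.pt 1` with `J = ∅` works for `r ≤ card V` by `hz`). `M` is
antitone and `M 0 < card V` since `F ≠ 0` lies in `Q`; so `M r = M (r + 1)` for some `r < card V`. Take `P, J` for `r + 1`; `scl (G s) φ ∈ P` for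
`φ ∈ Φ r`, `s ≤ S`. With `a` from `stab_char`: if `G s`, `G s'` give the same comap then `G s / G s' ∈ H`, so the values agree. Given `A`, the
image `T` of `A` under `G` has the same cardinality; `card_translates`.
-/

set_option autoImplicit false

namespace Pool.Agent.Work.MP_dd0d16_nt.W

open MvPolynomial

variable {K V I : Type} [Field K] [Fintype V] [DecidableEq V] [Fintype I]

omit [DecidableEq V] in
theorem ZE2_mono (g : V → Kˣ) (μ : V →₀ ℕ) (a : K) :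
    scl g (monomial μ a) = C ((∏ i, g i ^ μ i : Kˣ) : K) * monomial μ a := by
  rw [scl, aeval_monomial, monomial_eq, Finsupp.prod_fintype _ _ (by simp),
    Finsupp.prod_fintype _ _ (by simp)]
  simp only [mul_pow, Finset.prod_mul_distrib, algebraMap_eq, Units.coe_prod, Units.val_pow_eq_pow_val,
    map_prod, map_pow]
  ring

omit [DecidableEq V] in
theorem ZE2_sum (g : V → Kˣ) (F : MvPolynomial V K) : scl g F =
    ∑ μ ∈ F.support, C ((∏ i, g i ^ μ i : Kˣ) : K) * monomial μ (coeff μ F) := by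
  conv_lhs => rw [F.as_sum, map_sum]
  exact Finset.sum_congr rfl fun μ _ => ZE2_mono g μ _

omit [DecidableEq V] in
theorem ZE2_deg (g : V → Kˣ) (F : MvPolynomial V K) : (scl g F).totalDegree ≤ F.totalDegree := by
  rw [ZE2_sum]
  refine totalDegree_finsetSum_le fun μ hμ => ?_
  rw [C_mul_monomial]
  exact (totalDegree_monomial_le _ _).trans (le_totalDegree hμ)

omit [DecidableEq V] [Fintype V] in
theorem ZE2_comap (P : Ideal (MvPolynomial V K)) (g h : V → Kˣ) :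
    (P.comap (scl g)).comap (scl h) = P.comap (scl (g * h)) := by
  ext φ
  simp only [Ideal.mem_comap, scl_scl]

theorem stab_char {P : Ideal (MvPolynomial V K)} [P.IsPrime] (hX : ∀ i, X i ∉ P)
    {F : MvPolynomial V K} (h0 : F ≠ 0) (hF : F ∈ P) : ∃ a : V → ℤ, a ≠ 0 ∧
      ∀ g : V → Kˣ, P.comap (scl g) = P → ∏ i, g i ^ a i = 1 := by
  let H : Submonoid (V → Kˣ) :=
    { carrier := {g | P.comap (scl g) = P}
      one_mem' := Ideal.ext fun φ => by rw [Ideal.mem_comap, scl_one]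
      mul_mem' := fun {g h} hg hh => by
        simp only [Set.mem_ofPred_eq] at hg hh ⊢
        rw [← ZE2_comap, hg, hh] }
  let A := MvPolynomial V K ⧸ P
  let χ : (V →₀ ℕ) → H →* A := fun μ =>
    { toFun := fun g => algebraMap K A ((∏ i, g.1 i ^ μ i : Kˣ) : K)
      map_one' := by simp
      map_mul' := fun g h => by simp [mul_pow, Finset.prod_mul_distrib] }
  by_contra hc
  simp only [not_exists, not_and, not_forall] at hc
  have hinj : Function.Injective χ := fun μ ν h => by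
    by_contra hne
    obtain ⟨g, hg, h1⟩ := hc (fun i => (μ i : ℤ) - ν i) fun e => hne (Finsupp.ext fun i => by
      have := congrFun e i
      simp only [Pi.zero_apply] at this
      omega)
    have h2 := Units.ext ((algebraMap K A).injective (DFunLike.congr_fun h (⟨g, hg⟩ : H)))
    refine h1 ?_
    simp only [zpow_sub, zpow_natCast, Finset.prod_mul_distrib, Finset.prod_inv_distrib]
    exact mul_inv_eq_one.2 h2
  have hli := ((linearIndependent_monoidHom H A).comp χ hinj)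
  obtain ⟨μ, hμ⟩ := support_nonempty.2 h0
  have h3 := linearIndependent_iff'.1 hli F.support
    (fun μ => Ideal.Quotient.mk P (monomial μ (coeff μ F))) ?_ μ hμ
  · rw [Ideal.Quotient.eq_zero_iff_mem, monomial_eq] at h3
    rcases Ideal.IsPrime.mem_or_mem inferInstance h3 with h4 | h4
    · exact Ideal.IsPrime.ne_top inferInstance (Ideal.eq_top_of_isUnit_mem P h4
        ((IsUnit.mk0 _ (mem_support_iff.1 hμ)).map C))
    · obtain ⟨i, -, hi⟩ := (Ideal.IsPrime.prod_mem_iff).1 h4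
      exact hX i (Ideal.IsPrime.mem_of_pow_mem inferInstance _ hi)
  · funext g
    have h4 : scl g.1 F ∈ P := by
      rw [← Ideal.mem_comap, show P.comap (scl g.1) = P from g.2]
      exact hF
    rw [← Ideal.Quotient.eq_zero_iff_mem, ZE2_sum, map_sum] at h4
    rw [Finset.sum_apply, Pi.zero_apply, ← h4]
    exact Finset.sum_congr rfl fun ν _ => by
      rw [map_mul, mul_comm]
      rfl

theorem zero_est (γ : I → V → Kˣ) {F : MvPolynomial V K} (h0 : F ≠ 0) {D S : ℕ} (hD : 1 ≤ D)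
    (hF : F.totalDegree ≤ D)
    (hz : ∀ s : I → ℕ, (∀ j, s j ≤ Fintype.card V * S) →
      eval (fun i => ((∏ j, γ j i ^ s j : Kˣ) : K)) F = 0) :
    ∃ a : V → ℤ, a ≠ 0 ∧ ∀ A : Finset (I → ℕ), (∀ s ∈ A, ∀ j, s j ≤ S) →
      Set.InjOn (fun s : I → ℕ => ∏ i, (∏ j, γ j i ^ s j) ^ a i) A →
      A.card ≤ D ^ Fintype.card V := by
  classical
  let G : (I → ℕ) → V → Kˣ := fun s i => ∏ j, γ j i ^ s j
  have hG : ∀ s s', G (s + s') = G s * G s' := fun s s' => funext fun i => by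
    simp [G, pow_add, Finset.prod_mul_distrib]
  have hG0 : G 0 = 1 := funext fun i => by simp [G]
  let Φ : ℕ → Set (MvPolynomial V K) := fun r => {φ | ∃ s : I → ℕ, (∀ j, s j ≤ r * S) ∧ φ = scl (G s) F}
  let W : ℕ → ℕ → Prop := fun r n => ∃ (Q : Ideal (MvPolynomial V K)) (J : Finset V), Q.IsPrime ∧
    (∀ φ ∈ Φ r, φ ∈ Q) ∧ (∀ i, X i ∉ Q) ∧ CI Q J ∧ J.card = n
  have hFΦ : ∀ r, F ∈ Φ r := fun r => ⟨0, fun _ => Nat.zero_le _, by rw [hG0, scl_one]⟩
  have hlt : ∀ r n, W r n → n < Fintype.card V := by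
    rintro r _ ⟨Q, J, -, q2, -, q4, rfl⟩
    refine (Finset.card_le_univ J).lt_of_ne fun h => h0 ?_
    obtain rfl := Finset.eq_univ_of_card J h
    obtain ⟨q, rfl⟩ := exists_rename_eq_of_vars_subset_range F
      (Subtype.val : ↥(Finset.univ : Finset V) → V) Subtype.val_injective (by simp)
    rw [ci_iff.1 q4 q (q2 _ (hFΦ r)), map_zero]
  have hW0 : ∀ r, r ≤ Fintype.card V → W r 0 := fun r hr => by
    refine ⟨RingHom.ker (eval fun _ => (1 : K)), ∅, RingHom.ker_isPrime _, ?_, fun i => by simp, ?_,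
      rfl⟩
    · rintro _ ⟨s, hs, rfl⟩
      rw [RingHom.mem_ker, ← hz s fun j => (hs j).trans (Nat.mul_le_mul_right _ hr), scl,
        ← coe_aeval_eq_eval, RingHom.coe_coe, comp_aeval_apply, ← coe_aeval_eq_eval]
      simp [G]
    · have := RingHom.ker_isPrime (eval fun _ : V => (1 : K))
      exact algebraicIndependent_empty_type
  let M : ℕ → ℕ := fun r => Nat.findGreatest (W r) (Fintype.card V)
  have hM1 : ∀ r, r ≤ Fintype.card V → W r (M r) := fun r hr =>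
    Nat.findGreatest_spec (Nat.zero_le _) (hW0 r hr)
  have hM2 : ∀ r n, W r n → n ≤ M r := fun r n h => Nat.le_findGreatest (hlt r n h).le h
  obtain ⟨r, hr, hM⟩ : ∃ r, r < Fintype.card V ∧ M r ≤ M (r + 1) := by
    by_contra hc
    simp only [not_exists, not_and, not_le] at hc
    have : ∀ r, r ≤ Fintype.card V → M r + r ≤ M 0 := fun r => by
      induction r with
      | zero => simp
      | succ r ih =>
        intro h
        have := ih (by omega)
        have := hc r h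
        omega
    have h1 := this _ le_rfl
    have h2 := hlt 0 _ (hM1 0 (Nat.zero_le _))
    omega
  obtain ⟨P, J, p1, p2, p3, p4, p5⟩ := hM1 (r + 1) hr
  obtain ⟨a, ha, hs⟩ := stab_char p3 h0 (p2 F (hFΦ _))
  refine ⟨a, ha, fun A hA hinj => ?_⟩
  have key : ∀ s ∈ A, ∀ s' ∈ A, P.comap (scl (G s)) = P.comap (scl (G s')) → s = s' :=
    fun s h1 s' h2 h => hinj h1 h2 (by
      have h3 := hs (G s * (G s')⁻¹) (by
        rw [← ZE2_comap, h, ZE2_comap, mul_inv_cancel]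
        exact Ideal.ext fun φ => by rw [Ideal.mem_comap, scl_one])
      simp only [Pi.mul_apply, Pi.inv_apply, mul_zpow, inv_zpow, Finset.prod_mul_distrib,
        Finset.prod_inv_distrib] at h3
      exact mul_inv_eq_one.1 h3)
  rw [← Finset.card_image_of_injOn (f := G) fun s h1 s' h2 h => key s h1 s' h2 (by rw [h])]
  refine card_translates p3 p4 (Φ r) hD ?_ (fun Q J' q1 q2 q3 q4 => ?_) _ ?_ ?_
  · rintro _ ⟨s, -, rfl⟩
    exact (ZE2_deg _ _).trans hF
  · rw [p5]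
    exact (hM2 r _ ⟨Q, J', q1, q2, q3, q4, rfl⟩).trans hM
  · simp only [Finset.mem_image]
    rintro _ ⟨s, h1, rfl⟩ _ ⟨s', h2, rfl⟩
    refine p2 _ ⟨s + s', fun j => ?_, by rw [scl_scl, hG]⟩
    have := hA s h1 j
    have := h2 j
    rw [Pi.add_apply, add_mul]
    omega
  · simp only [Finset.mem_image]
    rintro _ ⟨s, h1, rfl⟩ _ ⟨s', h2, rfl⟩ h
    rw [key s h1 s' h2 h]

end Pool.Agent.Work.MP_dd0d16_nt.W
end

-- merged part: Pool.Agent.Work.MP_dd0d16_nt.W.WE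
section
/-!
The p-adic theorem of Waldschmidt and Masser (weak exponent).

PLAN. `par`: `d = n + 2`, `S = t`, `T = t ^ (4 n + 4)`, `N = t ^ (4 n + 6)`, `b = g * t ^ (2 n + 4) + 1`; `T ^ d ≤ p ^ (d * T)`, `c0 ≤ p ^ c0`
(`Nat.lt_pow_self`), all exponents are at most a constant times `t ^ (4 n + 5)`; `(d * T) ^ d = d ^ d * t ^ (d (4 n + 4)) < (t + 1) ^ ρ`.
`we1`: `d = 0` is impossible, `d = 1`: all logarithms vanish, `a = 1`. Otherwise `i0` with `‖u i0‖` maximal, `v = -u / u i0`; `aux_q`, `liou` for the family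
`(j, i) ↦ γ j i` with exponents `s j * a i ≤ T * (d * S)`, `aux_small` at `u i = ∏ j, γ j i ^ s j`: the values vanish. `F = ∑ a, monomial a (q a)` is nonzero
of total degree `≤ d * T`; `zero_est` (units `Units.mk0`). If `f` gave an independent family (so `f` is injective), take
`A = image (fun t : Fin ρ → Fin (S + 1) => Function.extend f t 0)`; the logarithm of the value at `s` is `∑ j, s j * λ j`, so the values are distinct and
`(S + 1) ^ ρ ≤ (d * T) ^ d`. `we`: `exists_near`, make `M` common (raise `v` to the product of the other exponents), `we1`, scale the family by `M`.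
-/

set_option autoImplicit false

namespace Pool.Agent.Work.MP_dd0d16_nt.W

open Finset

variable {p : ℕ} [Fact p.Prime] {L : PadicAlgCl p → PadicAlgCl p}

theorem par (p n g c0 : ℕ) (hp : 2 ≤ p) : ∃ S T N b : ℕ, 1 ≤ T ∧
    g * N ^ (n + 2) < b * T ^ (n + 2) ∧
    (T ^ (n + 2) * p ^ b * c0 ^ (T * ((n + 2) * S))) ^ c0 < p ^ N ∧
    ((n + 2) * T) ^ (n + 2) < (S + 1) ^ ((n + 2) * (4 * n + 4) + 1) := by
  obtain ⟨K, hK⟩ : ∃ K, K = c0 * ((n + 2) + g + 1 + c0 * (n + 2)) := ⟨_, rfl⟩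
  obtain ⟨t, ht⟩ : ∃ t, t = K + (n + 2) ^ (n + 2) + 1 := ⟨_, rfl⟩
  have t1 : 1 ≤ t := by omega
  have tK : K < t := by omega
  have td : (n + 2) ^ (n + 2) ≤ t := by omega
  have hT : 1 ≤ t ^ (4 * n + 4) := Nat.one_le_pow _ _ t1
  refine ⟨t, t ^ (4 * n + 4), t ^ (4 * n + 6), g * t ^ (2 * n + 4) + 1, hT, ?_, ?_, ?_⟩
  · have e : (g * t ^ (2 * n + 4) + 1) * (t ^ (4 * n + 4)) ^ (n + 2) =
        g * (t ^ (4 * n + 6)) ^ (n + 2) + (t ^ (4 * n + 4)) ^ (n + 2) := by ring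
    have h : 0 < (t ^ (4 * n + 4)) ^ (n + 2) := Nat.pow_pos hT
    omega
  · obtain ⟨Y, hY⟩ : ∃ Y, Y = t ^ (4 * n + 5) := ⟨_, rfl⟩
    have y1 : t ^ (4 * n + 4) ≤ Y := hY ▸ Nat.pow_le_pow_right t1 (by omega)
    have y2 : t ^ (2 * n + 4) ≤ Y := hY ▸ Nat.pow_le_pow_right t1 (by omega)
    have y3 : t ^ (4 * n + 4) * ((n + 2) * t) = (n + 2) * Y := by rw [hY]; ring
    have y4 : t ^ (4 * n + 6) = t * Y := by rw [hY]; ring
    have y0 : 1 ≤ Y := hT.trans y1
    have a1 : (t ^ (4 * n + 4)) ^ (n + 2) ≤ p ^ ((n + 2) * Y) := by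
      rw [mul_comm (n + 2) Y, pow_mul p Y]
      exact Nat.pow_le_pow_left (y1.trans (Nat.lt_pow_self hp).le) _
    have a2 : p ^ (g * t ^ (2 * n + 4) + 1) ≤ p ^ (g * Y + Y) :=
      Nat.pow_le_pow_right (by omega) (Nat.add_le_add (Nat.mul_le_mul_left g y2) y0)
    have a3 : c0 ^ ((n + 2) * Y) ≤ p ^ (c0 * ((n + 2) * Y)) := by
      rw [pow_mul p c0]
      exact Nat.pow_le_pow_left (Nat.lt_pow_self hp).le _
    rw [y3, y4]
    calc ((t ^ (4 * n + 4)) ^ (n + 2) * p ^ (g * t ^ (2 * n + 4) + 1) * c0 ^ ((n + 2) * Y)) ^ c0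
        ≤ (p ^ ((n + 2) * Y) * p ^ (g * Y + Y) * p ^ (c0 * ((n + 2) * Y))) ^ c0 :=
          Nat.pow_le_pow_left (Nat.mul_le_mul (Nat.mul_le_mul a1 a2) a3) _
      _ = p ^ (K * Y) := by
          rw [← pow_add, ← pow_add, ← pow_mul, hK]
          congr 1
          ring
      _ < p ^ (t * Y) := Nat.pow_lt_pow_right hp (Nat.mul_lt_mul_of_pos_right tK y0)
  · calc ((n + 2) * t ^ (4 * n + 4)) ^ (n + 2)
        = (n + 2) ^ (n + 2) * t ^ ((n + 2) * (4 * n + 4)) := by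
          rw [mul_pow, ← pow_mul, mul_comm (4 * n + 4)]
      _ ≤ t * t ^ ((n + 2) * (4 * n + 4)) := Nat.mul_le_mul_right _ td
      _ = t ^ ((n + 2) * (4 * n + 4) + 1) := by rw [pow_succ']
      _ < _ := Nat.pow_lt_pow_left (Nat.lt_succ_self t) (Nat.succ_ne_zero _)

theorem WE_lt : (p : ℝ)⁻¹ ^ 2 < 1 := by
  have h : (1 : ℝ) < p := by exact_mod_cast (Fact.out : p.Prime).one_lt
  exact pow_lt_one₀ (by positivity) (inv_lt_one_of_one_lt₀ h) two_ne_zero

theorem WE_ne {x : PadicAlgCl p} (h : ‖x - 1‖ ≤ (p : ℝ)⁻¹ ^ 2) : x ≠ 0 := by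
  rintro rfl
  rw [zero_sub, norm_neg, norm_one] at h
  exact absurd WE_lt (not_lt.2 h)

theorem WE_mul {x y : PadicAlgCl p} (hx : ‖x - 1‖ ≤ (p : ℝ)⁻¹ ^ 2)
    (hy : ‖y - 1‖ ≤ (p : ℝ)⁻¹ ^ 2) : ‖x * y - 1‖ ≤ (p : ℝ)⁻¹ ^ 2 := by
  have e : x * y - 1 = (x - 1) * (y - 1) + ((x - 1) + (y - 1)) := by ring
  rw [e]
  refine (IsUltrametricDist.norm_add_le_max _ _).trans (max_le ?_
    ((IsUltrametricDist.norm_add_le_max _ _).trans (max_le hx hy)))
  rw [norm_mul]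
  exact (mul_le_of_le_one_left (norm_nonneg _) (hx.trans WE_lt.le)).trans hy

theorem WE_pow {x : PadicAlgCl p} (hx : ‖x - 1‖ ≤ (p : ℝ)⁻¹ ^ 2) (n : ℕ) :
    ‖x ^ n - 1‖ ≤ (p : ℝ)⁻¹ ^ 2 := by
  induction n with
  | zero => simp
  | succ n ih =>
    rw [pow_succ]
    exact WE_mul ih hx

theorem WE_prod {I : Type} (s : Finset I) {x : I → PadicAlgCl p}
    (hx : ∀ i, ‖x i - 1‖ ≤ (p : ℝ)⁻¹ ^ 2) : ‖∏ i ∈ s, x i - 1‖ ≤ (p : ℝ)⁻¹ ^ 2 :=
  Finset.prod_induction x (fun y => ‖y - 1‖ ≤ (p : ℝ)⁻¹ ^ 2) (fun _ _ => WE_mul) (by simp)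
    fun i _ => hx i

theorem WE_log (hL : IsLog L) {I V : Type} [Fintype I] [Fintype V]
    (γ : I → V → (PadicAlgCl p)ˣ) (s : I → ℕ) (a : V → ℤ) :
    L ((∏ i, (∏ j, γ j i ^ s j) ^ a i : (PadicAlgCl p)ˣ) : PadicAlgCl p) =
      ∑ j, (s j : PadicAlgCl p) * ∑ i, (a i : PadicAlgCl p) * L (γ j i) := by
  obtain ⟨l, hl⟩ : ∃ l : (PadicAlgCl p)ˣ →* Multiplicative (PadicAlgCl p),
      ∀ w, Multiplicative.toAdd (l w) = L w :=
    ⟨MonoidHom.mk' (fun w => Multiplicative.ofAdd (L w)) fun a b => by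
      rw [Units.val_mul, hL.1 _ _ a.ne_zero b.ne_zero, ofAdd_add], fun _ => rfl⟩
  rw [← hl]
  simp only [map_prod, map_zpow, map_pow, toAdd_prod, toAdd_zpow, toAdd_pow, hl, zsmul_eq_mul,
    nsmul_eq_mul, mul_sum]
  rw [sum_comm]
  exact sum_congr rfl fun j _ => sum_congr rfl fun i _ => by ring

/-- the auxiliary polynomial -/
theorem WE_aux (hL : IsLog L) (n : ℕ) {I : Type} [Fintype I]
    (γ : I → Fin (n + 2) → PadicAlgCl p) (u : Fin (n + 2) → PadicAlgCl p)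
    (h1 : ∀ j i, ‖γ j i - 1‖ ≤ (p : ℝ)⁻¹ ^ 2 ∧ IsAlgebraic ℚ (γ j i)) (hu : u ≠ 0)
    (h2 : ∀ j, ∑ i, u i * L (γ j i) = 0) :
    ∃ (S T : ℕ) (q : (Fin (n + 2) → Fin T) → ℤ), 1 ≤ T ∧ q ≠ 0 ∧
      ((n + 2) * T) ^ (n + 2) < (S + 1) ^ ((n + 2) * (4 * n + 4) + 1) ∧
      ∀ s : I → ℕ, (∀ j, s j ≤ (n + 2) * S) →
        ∑ a, (q a : PadicAlgCl p) * ∏ i, (∏ j, γ j i ^ s j) ^ (a i : ℕ) = 0 := by
  classical
  obtain ⟨i0, hi0⟩ := Finite.exists_max fun i => ‖u i‖
  have hu0 : u i0 ≠ 0 := by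
    intro h
    refine hu (funext fun i => norm_le_zero_iff.1 ?_)
    simpa [h] using hi0 i
  obtain ⟨g, hg⟩ := aux_q i0 (fun i => -u i / u i0) (fun i => by
    rw [norm_div, norm_neg]
    exact div_le_one_of_le₀ (hi0 i) (norm_nonneg _)) (by rw [neg_div, div_self hu0])
  obtain ⟨c0, hc⟩ := liou (fun w : I × Fin (n + 2) => γ w.1 w.2) fun w => (h1 w.1 w.2).2
  obtain ⟨S, T, N, b, p1, p2, p3, p4⟩ := par p n g c0 (Fact.out : p.Prime).two_le
  obtain ⟨q, q0, q1, q2⟩ := hg T N b (by rwa [Fintype.card_fin])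
  refine ⟨S, T, q, p1, q0, p4, fun s hs => ?_⟩
  have h3 := aux_small hL i0 _ q2 (u := fun i => ∏ j, γ j i ^ s j)
    (fun i => WE_prod _ fun j => WE_pow (h1 j i).1 _) (by
      have e : ∀ i, L (∏ j, γ j i ^ s j) = ∑ j, (s j : PadicAlgCl p) * L (γ j i) := by
        intro i
        rw [hL.isLogF.prod _ fun j => pow_ne_zero _ (WE_ne (h1 j i).1)]
        exact sum_congr rfl fun j _ => hL.isLogF.pow (WE_ne (h1 j i).1) _
      simp only [e, mul_sum]
      rw [sum_comm]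
      refine sum_eq_zero fun j _ => ?_
      have e2 : ∑ i, -u i / u i0 * ((s j : PadicAlgCl p) * L (γ j i)) =
          -((s j : PadicAlgCl p) / u i0) * ∑ i, u i * L (γ j i) := by
        rw [mul_sum]
        exact sum_congr rfl fun i _ => by ring
      rw [e2, h2, mul_zero])
  have e : ∀ a : Fin (n + 2) → Fin T, ∏ w : I × Fin (n + 2), γ w.1 w.2 ^ (s w.1 * (a w.2 : ℕ)) =
      ∏ i, (∏ j, γ j i ^ s j) ^ (a i : ℕ) := by
    intro a
    rw [Fintype.prod_prod_type, prod_comm]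
    refine prod_congr rfl fun i _ => ?_
    rw [← prod_pow]
    exact prod_congr rfl fun j _ => pow_mul _ _ _
  have h4 := hc (Fin (n + 2) → Fin T) q (fun a w => s w.1 * (a w.2 : ℕ)) (p ^ b)
    (T * ((n + 2) * S)) (fun a => by exact_mod_cast q1 a)
    (fun a w => by
      rw [mul_comm T]
      exact Nat.mul_le_mul (hs w.1) (a w.2).2.le)
  simp only [e, Fintype.card_fun, Fintype.card_fin] at h4
  by_contra h5
  have h6 := (h4 h5).trans (mul_le_mul_of_nonneg_left h3 (by positivity))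
  have hp : (0 : ℝ) < (p : ℝ) ^ N := pow_pos (by exact_mod_cast (Fact.out : p.Prime).pos) N
  rw [inv_pow, ← div_eq_mul_inv, le_div_iff₀ hp, one_mul] at h6
  exact absurd p3 (not_lt.2 (by exact_mod_cast h6))

theorem we1 (hL : IsLog L) (d : ℕ) : ∃ ρ : ℕ, ∀ (I : Type) [Fintype I]
    (γ : I → Fin d → PadicAlgCl p) (u : Fin d → PadicAlgCl p),
    (∀ j i, ‖γ j i - 1‖ ≤ (p : ℝ)⁻¹ ^ 2 ∧ IsAlgebraic ℚ (γ j i)) → u ≠ 0 →
    (∀ j, ∑ i, u i * L (γ j i) = 0) → ∃ a : Fin d → ℤ, a ≠ 0 ∧ ∀ f : Fin ρ → I,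
      ¬ LinearIndependent ℚ fun t => ∑ i, (a i : PadicAlgCl p) * L (γ (f t) i) := by
  rcases d with _ | _ | n
  · exact ⟨0, fun I _ γ u _ hu _ => (hu (Subsingleton.elim _ _)).elim⟩
  · refine ⟨1, fun I _ γ u _ hu h2 => ⟨1, one_ne_zero, fun f hf => hf.ne_zero 0 ?_⟩⟩
    have h0 : u 0 ≠ 0 := fun h => hu (funext fun i => by rw [Fin.fin_one_eq_zero i, h]; rfl)
    have h3 := h2 (f 0)
    rw [Fin.sum_univ_succ, Fin.sum_univ_zero, add_zero] at h3
    rw [Fin.sum_univ_succ, Fin.sum_univ_zero, add_zero, (mul_eq_zero.1 h3).resolve_left h0,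
      mul_zero]
  refine ⟨(n + 2) * (4 * n + 4) + 1, fun I _ γ u h1 hu h2 => ?_⟩
  classical
  obtain ⟨S, T, q, T1, q0, hST, hz⟩ := WE_aux hL n γ u h1 hu h2
  generalize (n + 2) * (4 * n + 4) + 1 = ρ at hST ⊢
  obtain ⟨μ, hμ⟩ : ∃ μ : (Fin (n + 2) → Fin T) → Fin (n + 2) →₀ ℕ, ∀ a i, μ a i = a i :=
    ⟨fun a => Finsupp.equivFunOnFinite.symm fun i => a i, fun _ _ => rfl⟩
  have hμi : Function.Injective μ := fun a b h =>
    funext fun i => Fin.ext (by rw [← hμ, ← hμ, h])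
  obtain ⟨a, a0, ha⟩ := zero_est (fun j i => Units.mk0 (γ j i) (WE_ne (h1 j i).1))
    (F := ∑ a, MvPolynomial.monomial (μ a) (q a : PadicAlgCl p)) (D := (n + 2) * T) (S := S)
    (fun h => q0 (funext fun a => by
      have h3 := congrArg (MvPolynomial.coeff (μ a)) h
      simp only [MvPolynomial.coeff_sum, MvPolynomial.coeff_monomial, hμi.eq_iff, sum_ite_eq',
        mem_univ, if_true, MvPolynomial.coeff_zero, Int.cast_eq_zero] at h3
      exact h3))
    (Nat.mul_pos (Nat.succ_pos _) T1)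
    (MvPolynomial.totalDegree_finsetSum_le fun a _ => by
      refine (MvPolynomial.totalDegree_monomial_le _ _).trans ?_
      rw [Finsupp.sum_fintype _ _ fun _ => rfl]
      refine (sum_le_card_nsmul _ _ T fun i _ => ?_).trans (by simp)
      rw [id, hμ]
      exact (a i).2.le)
    (fun s hs => by
      rw [Fintype.card_fin] at hs
      rw [← hz s hs, map_sum]
      refine sum_congr rfl fun a _ => ?_
      rw [MvPolynomial.eval_monomial, Finsupp.prod_fintype _ _ fun _ => pow_zero _]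
      simp [hμ])
  refine ⟨a, a0, fun f hf => ?_⟩
  have hfi : Function.Injective f :=
    Function.Injective.of_comp (f := fun j => ∑ i, (a i : PadicAlgCl p) * L (γ j i)) hf.injective
  obtain ⟨σ, hσ⟩ : ∃ σ : (Fin ρ → Fin (S + 1)) → I → ℕ,
      ∀ t j, σ t j = ∑ r, if f r = j then (t r : ℕ) else 0 := ⟨_, fun _ _ => rfl⟩
  have hval : ∀ t, ∑ j, (σ t j : PadicAlgCl p) * ∑ i, (a i : PadicAlgCl p) * L (γ j i) =
      ∑ r, ((t r : ℕ) : ℚ) • ∑ i, (a i : PadicAlgCl p) * L (γ (f r) i) := by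
    intro t
    simp only [hσ, Nat.cast_sum, sum_mul, Nat.cast_ite, Nat.cast_zero, ite_mul, zero_mul]
    rw [sum_comm]
    refine sum_congr rfl fun r _ => ?_
    rw [sum_ite_eq, if_pos (mem_univ _), Nat.cast_smul_eq_nsmul, nsmul_eq_mul]
  have hinj : ∀ t t', ∏ i, (∏ j, Units.mk0 (γ j i) (WE_ne (h1 j i).1) ^ σ t j) ^ a i =
      ∏ i, (∏ j, Units.mk0 (γ j i) (WE_ne (h1 j i).1) ^ σ t' j) ^ a i → t = t' := by
    intro t t' h
    have h3 := congrArg (fun w : (PadicAlgCl p)ˣ => L w) h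
    simp only [WE_log hL, Units.val_mk0, hval] at h3
    have h4 := Fintype.linearIndependent_iff.1 hf (fun r => ((t r : ℕ) : ℚ) - ((t' r : ℕ) : ℚ)) (by
      simp only [sub_smul, sum_sub_distrib]
      exact sub_eq_zero.2 h3)
    exact funext fun r => Fin.ext (by exact_mod_cast sub_eq_zero.1 (h4 r))
  have h5 := ha (univ.image σ) (fun s hs j => by
      obtain ⟨t, -, rfl⟩ := mem_image.1 hs
      rw [hσ]
      by_cases h : ∃ r, f r = j
      · obtain ⟨r, rfl⟩ := h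
        simp only [hfi.eq_iff, sum_ite_eq', mem_univ, if_true]
        exact Nat.lt_succ_iff.1 (t r).2
      · rw [sum_eq_zero fun r _ => if_neg fun h' => h ⟨r, h'⟩]
        exact Nat.zero_le _)
    (fun s hs s' hs' h => by
      obtain ⟨t, -, rfl⟩ := mem_image.1 (mem_coe.1 hs)
      obtain ⟨t', -, rfl⟩ := mem_image.1 (mem_coe.1 hs')
      rw [hinj t t' h])
  rw [card_image_of_injective _ fun t t' h => hinj t t' (by rw [h]), card_univ, Fintype.card_fun,
    Fintype.card_fin, Fintype.card_fin, Fintype.card_fin] at h5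
  exact absurd hST (not_lt.2 h5)

theorem we (hL : IsLog L) (d : ℕ) : ∃ ρ : ℕ, ∀ (I : Type) [Fintype I]
    (γ : I → Fin d → PadicAlgCl p) (u : Fin d → PadicAlgCl p),
    (∀ j i, γ j i ≠ 0 ∧ IsAlgebraic ℚ (γ j i)) → u ≠ 0 →
    (∀ j, ∑ i, u i * L (γ j i) = 0) → ∃ a : Fin d → ℤ, a ≠ 0 ∧ ∀ f : Fin ρ → I,
      ¬ LinearIndependent ℚ fun t => ∑ i, (a i : PadicAlgCl p) * L (γ (f t) i) := by
  obtain ⟨ρ, hρ⟩ := we1 hL d
  refine ⟨ρ, fun I _ γ u h1 hu h2 => ?_⟩
  choose M v hM ha hv hl using fun w : I × Fin d => exists_near hL (h1 w.1 w.2).1 (h1 w.1 w.2).2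
  obtain ⟨M0, hM0⟩ : ∃ M0, M0 = ∏ w, M w := ⟨_, rfl⟩
  have h0 : (M0 : PadicAlgCl p) ≠ 0 :=
    Nat.cast_ne_zero.2 (hM0 ▸ prod_ne_zero_iff.2 fun w _ => hM w)
  have hk : ∀ w, ∃ k, M0 = M w * k := fun w => hM0 ▸ dvd_prod_of_mem M (mem_univ w)
  choose k hk using hk
  have e : ∀ j i, L (v (j, i) ^ k (j, i)) = M0 * L (γ j i) := by
    intro j i
    rw [hL.isLogF.pow (WE_ne (hv _)), hl, hk (j, i)]
    push_cast
    ring
  have e2 : ∀ (c : Fin d → PadicAlgCl p) j,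
      ∑ i, c i * L (v (j, i) ^ k (j, i)) = M0 * ∑ i, c i * L (γ j i) := by
    intro c j
    rw [mul_sum]
    exact sum_congr rfl fun i _ => by rw [e]; ring
  obtain ⟨a, a0, h3⟩ := hρ I (fun j i => v (j, i) ^ k (j, i)) u
    (fun j i => ⟨WE_pow (hv _) _, (ha _).pow _⟩) hu fun j => by rw [e2, h2, mul_zero]
  refine ⟨a, a0, fun f hf => h3 f ?_⟩
  rw [Fintype.linearIndependent_iff] at hf ⊢
  intro g hg
  refine hf g ((mul_eq_zero.1 ?_).resolve_left h0)
  rw [← hg, mul_sum]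
  exact sum_congr rfl fun t _ => by rw [e2 (fun i => (a i : PadicAlgCl p)), mul_smul_comm]

end Pool.Agent.Work.MP_dd0d16_nt.W
end
end

-- merged part: Pool.Agent.Work.MP_dd0d16_nt.W.Final
section
-- merged part: Pool.Agent.Work.MP_dd0d16_nt.W.Cole
section
/-!
Coleman congruences for systems of units.

PLAN. `log_poly`: `β = P2.eval 0 = P2.coeff 0` has norm one and lies in `U`; `R = 1 - C β⁻¹ * P2` has `‖R θ‖ ≤ ‖θ‖ ≤ ρ` (`IP.eval_sub`); `V = C β⁻¹ * ∑ i < n1, R ^ i` with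
`ρ ^ n1 ≤ p⁻¹ ^ r` satisfies `‖V θ * P2 θ - 1‖ ≤ p⁻¹ ^ r`. The quotient `1 + p H θ / P2 θ` is within `p⁻¹ ^ (r + 1)` of `1 + p H θ V θ`; `log_div`, `log_close`, `log_trunc`,
`G = ∑ i < 4 r, C ((-1) ^ i * p ^ (i + 1) / (i + 1)) * (H * V) ^ (i + 1)`, `norm_pow_div`.
`gr_step`: `Gr_eval`, the roots from `cj_spec` (`roots_prod_X_sub_C`, `roots_multiset_prod_X_sub_C`), `IP.map_fix`. `Cl (a + 1) (Gr^[a + 1] F) (tw σ 1 (Gr^[a] F))` by induction
(`Gr_frob`, `Gr_cl`, `Gr_map`, `tw_f`). `cole0`: take `F` with `F (ξ (N + r)) = x (N + r)` (`poly`), `B = Gr^[r] F`; `Gr^[r + i] F` takes the value `x (N - i)` at `ξ (N - i)` and is congruent to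
`tw σ i B` modulo `ϖ ^ (r + 1)` (induction on `i`; `Cl` is transitive, monotone and stable under `tw`, `T.norm_aut`), `Cl.eval`.
`cole`: `cole0` with `N + 1` and `r'` such that `‖ϖ‖ ^ r' ≤ p⁻¹ ^ (r + 1)`; `‖B.eval 0‖ = 1` by `IP.eval_sub`; `H` from `PF`; `log_poly` with `P2 = ((tw σ 1 B).comp f) ^ p ^ a`, `ρ = ‖ξ (N + 1)‖`
(`nrm_mono`) at `θ = (σ ^ (N - j)).symm (ξ (j + 1))`; apply `σ ^ (N - j)` (`tw_eval`, `tw_f`, `T.log_aut`, `T.norm_aut`, `T.log_pow`), `log_close`.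
-/

set_option autoImplicit false

namespace Pool.Agent.Work.MP_dd0d16_nt.W.Tw

open Polynomial Finset Filter

variable {p : ℕ} [Fact p.Prime] {t : Tw p}

variable {L : PadicAlgCl p → PadicAlgCl p} {x : ℕ → PadicAlgCl p}

theorem Cole_one {a b : PadicAlgCl p} (ha : ‖a‖ = 1) (h : ‖b - a‖ < 1) : ‖b‖ = 1 := by
  rw [← add_sub_cancel a b, IsUltrametricDist.norm_add_eq_max_of_norm_ne_norm (by linarith), ha,
    max_eq_left h.le]

theorem log_poly (hL : IsLog L) {P H : (PadicAlgCl p)[X]} (hP : t.IP P) (hH : t.IP H)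
    (h1 : ‖P.eval 0‖ = 1) {ρ : ℝ} (hρ : ρ < 1) (r : ℕ) :
    ∃ G, t.IP G ∧ ∀ θ : PadicAlgCl p, ‖θ‖ ≤ ρ →
      ‖L (P.eval θ + p * H.eval θ) - L (P.eval θ) - G.eval θ‖ ≤ (p : ℝ)⁻¹ ^ r := by
  have hp1 : (p : ℝ)⁻¹ < 1 := t.p_le.trans_lt t.plt
  have hp0 : 0 < (p : ℝ)⁻¹ := inv_pos.2 (by exact_mod_cast (Fact.out : p.Prime).pos)
  obtain ⟨n1, hn1⟩ := exists_pow_lt_of_lt_one (pow_pos hp0 r) hρ
  have h0 : P.eval 0 ≠ 0 := norm_ne_zero_iff.1 (by rw [h1]; exact one_ne_zero)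
  have hC : t.IP (C (P.eval 0)⁻¹) := IP.C (inv_mem (coeff_zero_eq_eval_zero P ▸ (hP 0).1))
    (by rw [norm_inv, h1, inv_one])
  have hV : t.IP (C (P.eval 0)⁻¹ * ∑ i ∈ range n1, (1 - C (P.eval 0)⁻¹ * P) ^ i) :=
    hC.mul (IP.sum _ fun i _ => (IP.one.sub (hC.mul hP)).pow i)
  have hV' : ∀ θ, (C (P.eval 0)⁻¹ * ∑ i ∈ range n1, (1 - C (P.eval 0)⁻¹ * P) ^ i).eval θ *
      P.eval θ = 1 - ((P.eval 0)⁻¹ * (P.eval 0 - P.eval θ)) ^ n1 := fun θ => by
    rw [mul_sub, inv_mul_cancel₀ h0, ← geom_sum_mul_neg]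
    simp only [eval_mul, eval_C, eval_finsetSum, eval_pow, eval_sub, eval_one]
    ring
  generalize C (P.eval 0)⁻¹ * ∑ i ∈ range n1, (1 - C (P.eval 0)⁻¹ * P) ^ i = V at hV hV'
  refine ⟨∑ i ∈ range (4 * r), C ((-1) ^ i * ((p : PadicAlgCl p) ^ (i + 1) / (i + 1))) *
    (H * V) ^ (i + 1), IP.sum _ fun i _ => (IP.C (mul_mem (pow_mem (neg_mem (one_mem _)) _)
      (div_mem (pow_mem (natCast_mem _ _) _) (add_mem (natCast_mem _ _) (one_mem _)))) (by
        rw [norm_mul, norm_pow, norm_neg, norm_one, one_pow, one_mul]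
        exact norm_pow_div i)).mul ((hH.mul hV).pow _), fun θ hθ => ?_⟩
  have hθ1 : ‖θ‖ ≤ 1 := (hθ.trans_lt hρ).le
  have h2 : ‖P.eval θ - P.eval 0‖ ≤ ρ := (hP.eval_sub hθ1 (by simp)).trans (by simpa using hθ)
  have h3 := Cole_one h1 (h2.trans_lt hρ)
  have h4 : P.eval θ ≠ 0 := norm_ne_zero_iff.1 (by rw [h3]; exact one_ne_zero)
  have hH1 := hH.eval_le hθ1
  have h5 : ‖1 + p * H.eval θ / P.eval θ‖ = 1 := Cole_one norm_one (by
    rw [add_sub_cancel_left, norm_div, h3, div_one, norm_mul, norm_p_eq]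
    exact (mul_le_of_le_one_right hp0.le hH1).trans_lt hp1)
  have h6 : ‖1 + p * H.eval θ / P.eval θ - (1 + p * (H * V).eval θ)‖ ≤ (p : ℝ)⁻¹ * (p : ℝ)⁻¹ ^ r := by
    rw [show 1 + p * H.eval θ / P.eval θ - (1 + p * (H * V).eval θ) =
      p * (H.eval θ * (1 - V.eval θ * P.eval θ)) / P.eval θ by rw [eval_mul]; field_simp; ring,
      hV', sub_sub_cancel, norm_div, h3, div_one, norm_mul, norm_p_eq, norm_mul, norm_pow, norm_mul,
      norm_inv, h1, inv_one, one_mul, norm_sub_rev]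
    exact mul_le_mul_of_nonneg_left ((mul_le_of_le_one_left (by positivity) hH1).trans
      ((pow_le_pow_left₀ (norm_nonneg _) h2 _).trans hn1.le)) hp0.le
  have h7 := log_close hL h5 (h6.trans (mul_le_of_le_one_right hp0.le (pow_le_one₀ hp0.le hp1.le)))
  have h8 := log_trunc hL (w := p * (H * V).eval θ) (by
    rw [norm_mul, norm_p_eq]
    exact (pow_le_pow_left₀ (by positivity) (mul_le_of_le_one_right hp0.le
      ((hH.mul hV).eval_le hθ1)) 4).trans (pow_le_pow_of_le_one hp0.le hp1.le (by omega))) r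
  rw [show P.eval θ + p * H.eval θ = (1 + p * H.eval θ / P.eval θ) * P.eval θ by field_simp,
    log_mul hL (norm_ne_zero_iff.1 (by rw [h5]; exact one_ne_zero)) h4, add_sub_cancel_right,
    eval_finsetSum, sum_congr rfl fun (i : ℕ) _ => show (C ((-1) ^ i * ((p : PadicAlgCl p) ^ (i + 1) /
      (i + 1))) * (H * V) ^ (i + 1)).eval θ = (-1) ^ i * (p * (H * V).eval θ) ^ (i + 1) /
      ((i : PadicAlgCl p) + 1) by rw [eval_mul, eval_C, eval_pow, mul_pow]; ring,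
    ← sub_add_sub_cancel _ (L (1 + p * (H * V).eval θ))]
  exact (IsUltrametricDist.norm_add_le_max _ _).trans (max_le ((h7.trans h6).trans
    (mul_le_of_le_one_left (by positivity) hp1.le)) h8)

theorem gr_step (hx : t.NS x) {F : (PadicAlgCl p)[X]} (hF : t.IP F) {n : ℕ}
    (h1 : F.eval (t.ξ (n + 1)) = x (n + 1)) : (t.Gr F).eval (t.ξ n) = x n := by
  obtain ⟨c1, -, c3⟩ := t.cj_spec n
  rw [Gr_eval, c3, prod_eq_multiset_prod, show (univ.val.map fun i => X - C (t.cj n i (t.ξ (n + 1)))) =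
    (univ.val.map fun i => t.cj n i (t.ξ (n + 1))).map fun a => X - C a by
      rw [Multiset.map_map]; rfl, roots_multiset_prod_X_sub_C, Multiset.map_map, ← (hx n).2.2, ← h1,
    prod_eq_multiset_prod]
  exact congrArg _ (Multiset.map_congr rfl fun i _ =>
    (hF.map_fix (fun u hu => c1 i u (t.U_le n hu)) _).symm)

theorem Cole_tw {r : ℕ} {F G : (PadicAlgCl p)[X]} (h : t.Cl r F G) (n : ℕ) :
    t.Cl r (tw t.σ n F) (tw t.σ n G) := fun i => by
  rw [tw, tw, coeff_map, coeff_map, ← map_sub]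
  exact (T.norm_aut _ _).trans_le (h i)

theorem Cole_tw_tw (σ : Aut p) (m n : ℕ) (F : (PadicAlgCl p)[X]) :
    tw σ m (tw σ n F) = tw σ (m + n) F := by
  ext i
  simp [tw, pow_add]

theorem Cole_iter {F : (PadicAlgCl p)[X]} (hF : t.IP F) (a : ℕ) :
    t.IP (t.Gr^[a] F) ∧ t.Cl (a + 1) (t.Gr^[a + 1] F) (tw t.σ 1 (t.Gr^[a] F)) := by
  induction a with
  | zero => exact ⟨hF, Gr_frob hF⟩
  | succ a ih =>
    rw [Function.iterate_succ_apply' _ (a + 1), Function.iterate_succ_apply'] at *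
    refine ⟨ih.1.gr, ?_⟩
    rw [tw, Gr_map (t.tw_f 1)]
    exact Gr_cl ih.1.gr (ih.1.tw 1) (by omega) ih.2

theorem cole0 (hx : t.NS x) (h1 : ∀ n, ‖x n‖ = 1) (N r : ℕ) :
    ∃ B, t.IP B ∧ ∀ j, j ≤ N → ‖x j - (tw t.σ (N - j) B).eval (t.ξ j)‖ ≤ ‖t.ϖ‖ ^ (r + 1) := by
  obtain ⟨F, hF, -, h2⟩ := t.poly (hx (N + r)).1 (h1 _).le
  have h3 : ∀ i n, n + i = N + r → (t.Gr^[i] F).eval (t.ξ n) = x n := by
    intro i
    induction i with
    | zero => rintro n rfl; exact h2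
    | succ i ih =>
      intro n hn
      rw [Function.iterate_succ_apply']
      exact gr_step hx (Cole_iter hF i).1 (ih _ (by omega))
  have h4 : ∀ i, t.Cl (r + 1) (t.Gr^[r + i] F) (tw t.σ i (t.Gr^[r] F)) := by
    intro i
    induction i with
    | zero => intro j; simp [tw]
    | succ i ih =>
      intro j
      have h5 := Cole_tw ih 1 j
      rw [Cole_tw_tw, add_comm 1 i] at h5
      rw [← sub_add_sub_cancel _ ((tw t.σ 1 (t.Gr^[r + i] F)).coeff j)]
      exact (IsUltrametricDist.norm_add_le_max _ _).trans (max_le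
        (((Cole_iter hF (r + i)).2 j).trans
          (pow_le_pow_of_le_one (norm_nonneg _) t.plt.le (by omega))) h5)
  refine ⟨_, (Cole_iter hF r).1, fun j hj => ?_⟩
  rw [← h3 (r + (N - j)) j (by omega)]
  exact (h4 _).eval (t.lt j).le

theorem cole (hL : IsLog L) {a : ℕ} (ha : t.PF a) (hx : t.NS x) (h1 : ∀ n, ‖x n‖ = 1)
    (N r : ℕ) : ∃ G, t.IP G ∧ ∀ j, j ≤ N →
      ‖p ^ a * t.Yl L x j - (tw t.σ (N - j) G).eval (t.ξ (j + 1))‖ ≤ (p : ℝ)⁻¹ ^ r := by
  have hp1 : (p : ℝ)⁻¹ < 1 := t.p_le.trans_lt t.plt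
  have hp0 : 0 < (p : ℝ)⁻¹ := inv_pos.2 (by exact_mod_cast (Fact.out : p.Prime).pos)
  obtain ⟨r', hr'⟩ := exists_pow_lt_of_lt_one (pow_pos hp0 (r + 1)) t.plt
  obtain ⟨B, hB, h2⟩ := cole0 hx h1 (N + 1) r'
  have h3 : ∀ j, j ≤ N + 1 →
      ‖x j - (tw t.σ (N + 1 - j) B).eval (t.ξ j)‖ ≤ (p : ℝ)⁻¹ ^ (r + 1) := fun j hj =>
    (h2 j hj).trans ((pow_le_pow_of_le_one (norm_nonneg _) t.plt.le (by omega)).trans hr'.le)
  have h4 : (p : ℝ)⁻¹ ^ (r + 1) ≤ (p : ℝ)⁻¹ := pow_le_of_le_one hp0.le hp1.le (by omega)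
  have h5 : ∀ j, j ≤ N + 1 → ‖(tw t.σ (N + 1 - j) B).eval (t.ξ j)‖ = 1 := fun j hj =>
    Cole_one (h1 j) ((norm_sub_rev _ _).trans_lt (((h3 j hj).trans h4).trans_lt hp1))
  have h6 : ‖(tw t.σ 1 B).eval 0‖ = 1 := Cole_one (by simpa using h5 N (by omega))
    (((hB.tw 1).eval_sub (by simp) (t.lt N).le).trans_lt (by simpa using t.lt N))
  obtain ⟨H, hH, h7⟩ := ha B hB
  obtain ⟨G, hG, h8⟩ := log_poly hL (((hB.tw 1).comp t.ip_f).pow (p ^ a)) hH (by
    rw [eval_pow, eval_comp, ← coeff_zero_eq_eval_zero t.f, t.c0, norm_pow, h6, one_pow])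
    (t.lt (N + 1)) r
  refine ⟨G, hG, fun j hj => ?_⟩
  have e1 := h3 (j + 1) (by omega)
  have e2 := h3 j (by omega)
  have n1 := h5 (j + 1) (by omega)
  have n2 := h5 j (by omega)
  have e3 := tw_eval t.σ (N - j) t.f (t.ξ (j + 1))
  rw [t.tw_f, t.step, ← AlgEquiv.symm_apply_eq] at e3
  rw [show N + 1 - (j + 1) = N - j by omega, tw_eval] at e1 n1
  rw [show N + 1 - j = N - j + 1 by omega, ← Cole_tw_tw, tw_eval, e3] at e2 n2
  have e4 := h8 ((t.σ ^ (N - j)).symm (t.ξ (j + 1))) ((T.norm_aut _ _).trans_le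
    (t.nrm_mono (by omega)))
  have e5 := congrArg (eval ((t.σ ^ (N - j)).symm (t.ξ (j + 1)))) h7
  rw [eval_add, eval_mul, eval_C] at e5
  rw [T.norm_aut] at n1 n2
  have z1 := norm_ne_zero_iff.1 (n1.trans_ne one_ne_zero)
  have z2 := norm_ne_zero_iff.1 (n2.trans_ne one_ne_zero)
  rw [← e5, eval_pow, eval_pow, eval_comp, T.log_pow hL z1, T.log_pow hL z2,
    ← T.norm_aut (t.σ ^ (N - j)), map_sub, map_sub, map_mul, map_mul, map_natCast, map_natCast,
    ← T.log_aut hL _ z1, ← T.log_aut hL _ z2] at e4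
  have e6 := (log_close hL (h1 _) (e1.trans h4)).trans e1
  have e7 := (log_close hL (h1 _) (e2.trans h4)).trans e2
  have h9 : (p : ℝ)⁻¹ ^ (r + 1) ≤ (p : ℝ)⁻¹ ^ r := pow_le_pow_of_le_one hp0.le hp1.le (by omega)
  have h10 : ∀ (n : ℕ) (z : PadicAlgCl p), ‖z‖ ≤ (p : ℝ)⁻¹ ^ (r + 1) → ‖n * z‖ ≤ (p : ℝ)⁻¹ ^ r :=
    fun n z hz => (norm_mul_le _ _).trans ((mul_le_of_le_one_left (norm_nonneg _)
      (IsUltrametricDist.norm_natCast_le_one _ _)).trans (hz.trans h9))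
  have e8 := (IsUltrametricDist.norm_add_le_max _ _).trans (max_le e4
    ((IsUltrametricDist.norm_add_le_max _ _).trans (max_le (h10 (t.q * p ^ a) _ e6)
      (h10 (p ^ a) _ ((norm_sub_rev _ _).trans_le e7)))))
  rw [tw_eval]
  refine le_of_eq_of_le (congrArg _ ?_) e8
  rw [Yl]
  push_cast
  ring

end Pool.Agent.Work.MP_dd0d16_nt.W.Tw
end

-- merged part: Pool.Agent.Work.MP_dd0d16_nt.W.Tau
section
/-!
The system of uniformisers `-ξ n`.

PLAN. `tau_H`: `PF` for `F = X` (`tw σ 1 X = X`, `X_comp`); `H` is fixed by `tw` because `C p * H` is (`tw_f`, cancel `C p`). With `z = ξ (j + 1)`: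
`p ^ a * Yl = L (z ^ (q * p ^ a) / ξ j ^ p ^ a) = L (1 + w)`, `w = p * H z / ξ j ^ p ^ a` (`log_neg`, `log_div`, `T.log_pow`, `t.step`), `‖w‖ ≤ p⁻¹ / ‖ξ j‖ ^ p ^ a` and
`p⁻¹ ≤ ‖ϖ‖ ≤ ‖ξ j‖ ^ (4 * p ^ a)` (`p_le`, `nrm_ge`), so `‖w‖ ^ 4 ≤ p⁻¹ ^ 3` and `‖w‖ ^ 2 ≤ p⁻¹`. `tau_apx`: `j = m + k`, `ξ m = ξ j * Ψ (ξ j)` with `Ψ = (it k).divX` (`it_c0`, `X_mul_divX_add`),
`G = ∑ i < 4 r, C ((-1) ^ i * p ^ (i + 1) / (i + 1)) * (H * Ψ.comp f ^ p ^ a) ^ (i + 1) * it (k + 1) ^ (p ^ a * (4 r - (i + 1)))`, `log_trunc`, `norm_pow_div`; `tw` is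
`Polynomial.map` of a ring map that fixes the rationals, `f`, `it k`, `H`.
-/

set_option autoImplicit false

namespace Pool.Agent.Work.MP_dd0d16_nt.W.Tw

open Polynomial Finset Filter

variable {p : ℕ} [Fact p.Prime] {t : Tw p}

variable {L : PadicAlgCl p → PadicAlgCl p} {a : ℕ}

theorem tau_H (ha : t.PF a) : ∃ H, t.IP H ∧ (∀ n, tw t.σ n H = H) ∧
    X ^ (t.q * p ^ a) = t.f ^ p ^ a + C (p : PadicAlgCl p) * H := by
  obtain ⟨H, h1, h2⟩ := ha X IP.X
  rw [tw, map_X, X_comp] at h2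
  refine ⟨H, h1, fun n => ?_, h2⟩
  have h3 := congrArg (tw t.σ n) h2
  have h4 := t.tw_f n
  simp only [tw, Polynomial.map_pow, Polynomial.map_add, Polynomial.map_mul, map_X,
    map_natCast] at h3 h4
  rw [h4, h2, add_right_inj] at h3
  exact (mul_left_cancel₀ (Nat.cast_ne_zero.2 (Fact.out : p.Prime).ne_zero) (by simpa [tw] using h3)).symm

theorem Tau_w (hL : IsLog L) {H : (PadicAlgCl p)[X]} (hH : t.IP H)
    (h : X ^ (t.q * p ^ a) = t.f ^ p ^ a + C (p : PadicAlgCl p) * H) {j : ℕ}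
    (hj : 4 * p ^ a ≤ t.q ^ j) :
    p ^ a * t.Yl L (fun n => -t.ξ n) j = L (1 + p * H.eval (t.ξ (j + 1)) / t.ξ j ^ p ^ a) ∧
      ‖p * H.eval (t.ξ (j + 1)) / t.ξ j ^ p ^ a‖ ^ 4 ≤ (p : ℝ)⁻¹ ^ 3 := by
  have h1 := congrArg (eval (t.ξ (j + 1))) h
  rw [eval_pow, eval_X, eval_add, eval_pow, t.step, eval_mul, eval_C] at h1
  have h2 := pow_ne_zero (p ^ a) (t.ne j)
  have hp0 : 0 < (p : ℝ)⁻¹ := inv_pos.2 (by exact_mod_cast (Fact.out : p.Prime).pos)
  refine ⟨?_, ?_⟩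
  · rw [one_add_div h2, ← h1, log_div hL (pow_ne_zero _ (t.ne _)) h2, T.log_pow hL (t.ne _),
      T.log_pow hL (t.ne _), Yl, log_neg hL (t.ne _), log_neg hL (t.ne _)]
    push_cast
    ring
  · rw [norm_div, div_pow, norm_pow, ← pow_mul, div_le_iff₀ (pow_pos (norm_pos_iff.2 (t.ne j)) _),
      norm_mul, norm_p_eq, mul_comm (p ^ a)]
    calc _ ≤ (p : ℝ)⁻¹ ^ 4 := pow_le_pow_left₀ (by positivity)
          (mul_le_of_le_one_right hp0.le (hH.eval_le (t.lt _).le)) 4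
      _ ≤ _ := by
        rw [pow_succ]
        exact mul_le_mul_of_nonneg_left (t.p_le.trans (t.nrm_ge hj)) (by positivity)

theorem tau_le (hL : IsLog L) (ha : t.PF a) {j : ℕ} (hj : 4 * p ^ a ≤ t.q ^ j) :
    ‖p ^ a * t.Yl L (fun n => -t.ξ n) j‖ ≤ 1 := by
  obtain ⟨H, h1, -, h2⟩ := tau_H ha
  obtain ⟨h3, h4⟩ := Tau_w hL h1 h2 hj
  have hp0 : 0 < (p : ℝ)⁻¹ := inv_pos.2 (by exact_mod_cast (Fact.out : p.Prime).pos)
  rw [h3]
  refine log_le_one hL ((pow_le_pow_iff_left₀ (by positivity) hp0.le two_ne_zero).1 ?_)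
  rw [← pow_mul]
  exact h4.trans (pow_le_pow_of_le_one hp0.le (t.p_le.trans t.plt.le) (by omega))

theorem tau_apx (hL : IsLog L) (ha : t.PF a) (k r : ℕ) : ∃ G, t.IP G ∧ (∀ n, tw t.σ n G = G) ∧
    ∀ m, 4 * p ^ a ≤ t.q ^ m →
      ‖t.ξ m ^ (r * (4 * p ^ a)) * (p ^ a * t.Yl L (fun n => -t.ξ n) (m + k)) -
        G.eval (t.ξ (m + (k + 1)))‖ ≤ (p : ℝ)⁻¹ ^ r := by
  obtain ⟨H, h1, h2, h3⟩ := tau_H ha
  have hΨ : ∀ z, (t.it k).eval z = z * (t.it k).divX.eval z := fun z => by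
    conv_lhs => rw [← X_mul_divX_add (t.it k), t.it_c0]
    simp
  refine ⟨∑ i ∈ range (4 * r), C ((-1) ^ i * ((p : PadicAlgCl p) ^ (i + 1) / (i + 1))) *
    (H * (t.it k).divX.comp t.f ^ p ^ a) ^ (i + 1) * t.it (k + 1) ^ (p ^ a * (4 * r - (i + 1))),
    IP.sum _ fun i _ => ((IP.C (mul_mem (pow_mem (neg_mem (one_mem _)) _)
      (div_mem (pow_mem (natCast_mem _ _) _) (add_mem (natCast_mem _ _) (one_mem _)))) (by
        rw [norm_mul, norm_pow, norm_neg, norm_one, one_pow, one_mul]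
        exact norm_pow_div i)).mul ((h1.mul (((t.ip_it k).divX.comp t.ip_f).pow _)).pow _)).mul
      ((t.ip_it _).pow _), fun n => ?_, fun m hm => ?_⟩
  · have e1 := t.tw_f n
    have e2 := t.tw_it n (k + 1)
    have e3 := h2 n
    have e4 : tw t.σ n (t.it k).divX = (t.it k).divX := Polynomial.ext fun i => by
      have := congrArg (coeff · (i + 1)) (t.tw_it n k)
      simpa only [tw, coeff_map, coeff_divX] using this
    simp only [tw] at e1 e2 e3 e4 ⊢
    simp only [Polynomial.map_sum, Polynomial.map_mul, Polynomial.map_pow, map_comp, map_C, e1, e2,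
      e3, e4, map_mul, map_div₀, map_pow, map_neg, map_one, map_add, map_natCast,
      Polynomial.map_neg, Polynomial.map_one]
  · obtain ⟨h4, h5⟩ := Tau_w hL h1 h3 (j := m + k)
      (hm.trans (Nat.pow_le_pow_right (by have := t.two_le; omega) (by omega)))
    have h6 := log_trunc hL h5 r
    have h7 := hΨ (t.ξ (m + k))
    rw [t.it_eval] at h7
    rw [h4]
    refine le_trans (le_of_eq_of_le (congrArg _ ?_) (norm_mul_le (t.ξ m ^ (r * (4 * p ^ a))) _))
      ((mul_le_of_le_one_left (norm_nonneg _) ?_).trans h6)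
    · rw [mul_sub, mul_sum, eval_finsetSum, sub_right_inj]
      refine sum_congr rfl fun i hi => ?_
      obtain ⟨c, hc⟩ := Nat.exists_eq_add_of_le (show i + 1 ≤ 4 * r from mem_range.1 hi)
      have h8 := pow_ne_zero (p ^ a) (t.ne (m + k))
      rw [eval_mul, eval_mul, eval_C, eval_pow, eval_pow, eval_mul, eval_pow, eval_comp, t.it_eval,
        show t.f.eval (t.ξ (m + (k + 1))) = t.ξ (m + k) from t.step _,
        show r * (4 * p ^ a) = p ^ a * (i + 1) + p ^ a * c by rw [← mul_add, ← hc]; ring, hc,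
        Nat.add_sub_cancel_left, pow_add (t.ξ m), pow_mul (t.ξ m) (p ^ a) (i + 1),
        show t.ξ m ^ p ^ a = t.ξ (m + k) ^ p ^ a * (t.it k).divX.eval (t.ξ (m + k)) ^ p ^ a by
          rw [← mul_pow, ← h7], ← add_assoc]
      simp only [mul_pow, div_pow]
      field_simp
    · rw [norm_pow]
      exact pow_le_one₀ (norm_nonneg _) (t.lt m).le

end Pool.Agent.Work.MP_dd0d16_nt.W.Tw
end

-- merged part: Pool.Agent.Work.MP_dd0d16_nt.W.Comp
section
/-!
The components of the new parts are approximable.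

PLAN. `a` from `exists_pf`, `A = p ^ a`, `m1 = 4 * p ^ a` (`n < q ^ n`, `two_le`), exponent `4 * p ^ a`. `NS.unit` gives `Yl L x j = ε * Yl L τ j + Yl L u j` (`log_mul`, `log_zpow`), `NS.yl_pow`.
Bound: `tau_le`, `cole` with `r = 0`, `IP.eval_le`. Approximation: given `N r`, take `G0` from `tau_apx`, `G1` from `cole` with `N + k` (note `N + k - (m + k) = N - m`) and
`G = C ε * G0 + it (k + 1) ^ (r * (4 * p ^ a)) * G1`; then `ξ m ^ (..) * (A * Yl L x (m + k))` is within `p⁻¹ ^ r ≤ ‖ϖ‖ ^ r` of `(tw σ (N - m) G).eval (ξ (m + (k + 1)))` (`tw_it`, `it_eval`, `p_le`).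
`split` with `g = it (k + 1)`; apply `tw σ (N - m)` to the formula (`Polynomial.map_sum`, `map_comp`, `tw_it`) to get the components of the second term
(`IP.tw`, `IP.eval_mem`), `Dec.smul`, `Dec.sub`, `Dec.le`. The bound `‖β m b‖ ≤ 1` is `Dec.le` with `r = 0`.
-/

set_option autoImplicit false

namespace Pool.Agent.Work.MP_dd0d16_nt.W.Tw

open Polynomial Finset Filter

variable {p : ℕ} [Fact p.Prime] {t : Tw p}

variable {L : PadicAlgCl p → PadicAlgCl p}

theorem exists_good (t : Tw p) (hL : IsLog L) : ∃ A m1 a : ℕ, A ≠ 0 ∧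
    ∀ x : ℕ → PadicAlgCl p, t.NS x → t.Good L (fun n => x n ^ A) m1 a := by
  obtain ⟨a, ha⟩ := t.exists_pf
  have hq : ∀ m, 4 * p ^ a ≤ m → 4 * p ^ a ≤ t.q ^ m := fun m hm =>
    hm.trans (Nat.lt_pow_self t.two_le).le
  refine ⟨p ^ a, 4 * p ^ a, 4 * p ^ a, pow_ne_zero _ (Fact.out : p.Prime).ne_zero, fun x hx => ?_⟩
  obtain ⟨ε, u, hu, hu1, hxu⟩ := hx.unit
  have hε : ‖(ε : PadicAlgCl p)‖ ≤ 1 := IsUltrametricDist.norm_intCast_le_one _ _
  have e : ∀ j, t.Yl L (fun n => x n ^ p ^ a) j =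
      ε * (p ^ a * t.Yl L (fun n => -t.ξ n) j) + p ^ a * t.Yl L u j := fun j => by
    have h := fun n => neg_ne_zero.2 (t.ne n)
    rw [hx.yl_pow hL]
    simp only [Yl, hxu]
    rw [log_mul hL (zpow_ne_zero _ (h _)) (hu _).2.1, log_mul hL (zpow_ne_zero _ (h _)) (hu _).2.1,
      log_zpow hL (h _), log_zpow hL (h _)]
    push_cast
    ring
  have hb : ∀ j, 4 * p ^ a ≤ j → ‖t.Yl L (fun n => x n ^ p ^ a) j‖ ≤ 1 := fun j hj => by
    obtain ⟨G, hG, h⟩ := cole hL ha hu hu1 j 0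
    rw [e, ← sub_add_cancel (p ^ a * t.Yl L u j) ((tw t.σ (j - j) G).eval (t.ξ (j + 1)))]
    refine (IsUltrametricDist.norm_add_le_max _ _).trans (max_le ?_
      ((IsUltrametricDist.norm_add_le_max _ _).trans (max_le (by simpa using h j le_rfl)
        ((hG.tw _).eval_le (t.lt _).le))))
    rw [norm_mul]
    exact mul_le_one₀ hε (norm_nonneg _) (tau_le hL ha (hq j hj))
  refine ⟨hb, fun k β hβ b hb' => ⟨fun m hm => by
    simpa using (hβ m).le (r := 0) (by simpa using hb _ (by omega)) hb', fun N r => ?_⟩⟩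
  obtain ⟨G0, g1, g2, g3⟩ := tau_apx hL ha k r
  obtain ⟨G1, g4, g5⟩ := cole hL ha hu hu1 (N + k) r
  obtain ⟨Gb, b1, b2⟩ := split (t.ip_it (k + 1)) (t.it_monic _)
    (by rw [t.it_deg]; exact pow_pos (by have := t.two_le; omega) _)
    (((IP.C (intCast_mem _ ε) hε).mul g1).add (((t.ip_it (k + 1)).pow (r * (4 * p ^ a))).mul g4))
  refine ⟨Gb b, b1 b, fun m hm hmN => ?_⟩
  have e1 := t.tw_it (N - m) (k + 1)
  have e2 := g2 (N - m)
  have h1 := congrArg (fun G => (tw t.σ (N - m) G).eval (t.ξ (m + (k + 1)))) b2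
  have h2 := g5 (m + k) (by omega)
  rw [show N + k - (m + k) = N - m by omega] at h2
  simp only [tw] at e1 e2 h1 h2
  simp only [Polynomial.map_sum, Polynomial.map_mul, Polynomial.map_add, Polynomial.map_pow,
    map_comp, map_X, map_intCast, Polynomial.map_intCast, e1, e2, eval_finsetSum, eval_add,
    eval_mul, eval_pow, eval_comp, eval_X, eval_intCast, t.it_eval, t.it_deg] at h1
  refine (((hβ m).smul (pow_mem (t.xi_mem m) _)).sub
    (⟨fun b => ((b1 b).tw (N - m)).eval_mem m, h1⟩ : t.Dec m (k + 1) _ fun b =>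
      (tw t.σ (N - m) (Gb b)).eval (t.ξ m))).le ?_ hb'
  have h3 : ∀ c z : PadicAlgCl p, ‖c‖ ≤ 1 → ‖z‖ ≤ (p : ℝ)⁻¹ ^ r → ‖c * z‖ ≤ ‖t.ϖ‖ ^ r :=
    fun c z hc hz => (norm_mul_le _ _).trans ((mul_le_of_le_one_left (norm_nonneg _) hc).trans
      (hz.trans (pow_le_pow_left₀ (by positivity) t.p_le _)))
  refine le_of_eq_of_le (congrArg _ ?_) ((IsUltrametricDist.norm_add_le_max _ _).trans (max_le
    (h3 _ _ hε (g3 m (hq m hm))) (h3 (t.ξ m ^ (r * (4 * p ^ a))) _ (by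
      rw [norm_pow]; exact pow_le_one₀ (norm_nonneg _) (t.lt m).le) h2)))
  rw [e, ← add_assoc m]
  ring

end Pool.Agent.Work.MP_dd0d16_nt.W.Tw
end

-- merged part: Pool.Agent.Work.MP_dd0d16_nt.W.Q2
section
/-!
Separation of scales: no relation of degree two over the lower level.

PLAN. `bound`: `exists_good`, `NS.yl_pow`, `C = ‖A‖⁻¹`; `Zl` by the ultrametric inequality. `aff`: `k0, n0, c0` from `Lin`, `C, m1` from `bound`, `r` from `pick` with `ε = c0 / (2 * C)`,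
`l = m + k0`, `k1 = k0 + r`, `μ` the largest `‖q i‖`. Split `Zl m k = Zl m k1 + Q ^ k1 * Zl (m + k1) (k - k1)` (`zl_add`, `Q = t.q`). `S' = q0 + ∑ q i * Zl m k1` lies in level `l + r`; `φ` kills the terms
`j < k0` (they lie in level `l`) and `k0 < j`, so `φ S' = Q ^ k1 * ∑ q i * Yl (m + k0)` (`NS.yl_mem`, `NS.yl_tr`) and `‖Q‖ ^ k1 * c0 * μ ≤ ε * ‖S'‖`. The tail has norm `≤ ‖Q‖ ^ k1 * C * μ ≤ ‖S'‖ / 2`, so
the full sum has norm `≥ ‖S'‖ / 2 ≥ ‖Q‖ ^ k1 * C * μ`; `c1 = ‖Q‖ ^ k1 * C`. `quad`: let `μ` be the largest `‖qq i j‖`,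
`m' = m + s`, `A i = Zl m s` in level `m'`, `Zl m k = A i + δ i` with `δ i = Q ^ s * Zl m' (k - s)` of norm `≤ ‖Q‖ ^ s * C`;
`g i = q i + ∑ j, 2 * qq i j * A j` lies in level `m'` and `P(A) + ∑ g i * δ i = -∑ ∑ qq i j * δ i * δ j`. `aff` at `(m', k - s)` with
`q0 = P(A)`, `q = Q ^ s * g` gives `c1 * ‖Q‖ ^ s * ‖g i‖ ≤ μ * (‖Q‖ ^ s * C) ^ 2`; `aff` at `(m, s)` gives `c1 * ‖2 * qq i j‖ ≤ ‖g i‖`.
So `c1 ^ 2 * ‖2‖ * μ ≤ ‖Q‖ ^ s * C ^ 2 * μ` and `μ = 0` for `s ≥ k1` large (`norm_q`); then `aff` at `(m, k)`.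
-/

set_option autoImplicit false

namespace Pool.Agent.Work.MP_dd0d16_nt.W.Tw

open Polynomial Finset Filter

variable {p : ℕ} [Fact p.Prime] {t : Tw p} {L : PadicAlgCl p → PadicAlgCl p} {d : ℕ}
  {x : Fin d → ℕ → PadicAlgCl p}

theorem Q2_q (t : Tw p) : ‖(t.q : PadicAlgCl p)‖ < 1 :=
  t.norm_q.trans_lt (inv_lt_one_of_one_lt₀ (by exact_mod_cast (Fact.out : p.Prime).one_lt))

theorem bound (t : Tw p) (hL : IsLog L) : ∃ (m1 : ℕ) (C : ℝ), 0 < C ∧ ∀ u, t.NS u →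
    ∀ m, m1 ≤ m → ∀ k, ‖t.Zl L u m k‖ ≤ C := by
  obtain ⟨A, m1, a, hA, h⟩ := t.exists_good hL
  have hA' : 0 < ‖(A : PadicAlgCl p)‖ := norm_pos_iff.2 (Nat.cast_ne_zero.2 hA)
  refine ⟨m1, ‖(A : PadicAlgCl p)‖⁻¹, inv_pos.2 hA', fun u hu m hm k => ?_⟩
  refine IsUltrametricDist.norm_sum_le_of_forall_le_of_nonneg (by positivity) fun j _ => ?_
  have h1 := (h u hu).1 (m + j) (by omega)
  rw [hu.yl_pow hL, norm_mul] at h1
  rw [norm_mul, norm_pow]
  refine (mul_le_of_le_one_left (norm_nonneg _) (pow_le_one₀ (norm_nonneg _) t.Q2_q.le)).trans ?_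
  rw [← one_div, le_div_iff₀' hA']
  exact h1

theorem aff (hL : IsLog L) (hx : ∀ i, t.NS (x i)) (hl : t.Lin L x) :
    ∃ (N : ℕ) (c1 : ℝ), 0 < c1 ∧ ∀ m k, N ≤ m → N ≤ k → ∀ (q0 : PadicAlgCl p)
      (q : Fin d → PadicAlgCl p), q0 ∈ t.K m → (∀ i, q i ∈ t.K m) →
      ∀ i, c1 * ‖q i‖ ≤ ‖q0 + ∑ l, q l * t.Zl L (x l) m k‖ := by
  obtain ⟨k0, n0, c0, hc0, hl⟩ := hl
  obtain ⟨m1, C, hC, hb⟩ := t.bound hL
  obtain ⟨r, hr, hp⟩ := t.pick (ε := c0 / (2 * C)) (by positivity)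
  have hQ : 0 < ‖(t.q : PadicAlgCl p)‖ := norm_pos_iff.2 t.q_ne
  refine ⟨n0 + m1 + 2 + k0 + r, ‖(t.q : PadicAlgCl p)‖ ^ (k0 + r) * C, by positivity,
    fun m k hm hk q0 q h0 h1 i => ?_⟩
  obtain ⟨i0, -, hi0⟩ := exists_max_image univ (fun i => ‖q i‖) ⟨i, mem_univ _⟩
  obtain ⟨k', rfl⟩ := Nat.exists_eq_add_of_le (show k0 + r ≤ k by omega)
  obtain ⟨φ, φ1, φ2, φ3, φ4, φ5⟩ := hp (m + k0) (by omega)
  have hK : t.K m ≤ t.K (m + k0) := t.mono (by omega)
  have φ0 : ∀ a ∈ t.K (m + k0), φ a = 0 := fun a ha => by rw [← mul_one a, φ1 a ha, φ2, mul_zero]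
  have hZ : ∀ l, φ (t.Zl L (x l) m (k0 + r)) = t.q ^ (k0 + r) * t.Yl L (x l) (m + k0) := by
    intro l
    rw [Zl, map_sum, sum_eq_single k0]
    · rw [φ1 _ (pow_mem (natCast_mem _ _) _), φ4 _ ((hx l).yl_mem hL _) ((hx l).yl_tr hL _)]
      ring
    · intro j hj hne
      rw [φ1 _ (pow_mem (natCast_mem _ _) _)]
      rcases lt_or_gt_of_ne hne with h | h
      · rw [φ0 _ (t.mono (by omega) ((hx l).yl_mem hL _)), mul_zero]
      · rw [φ5 (m + j) (by omega) (by have := mem_range.1 hj; omega) _ ((hx l).yl_mem hL _)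
          ((hx l).yl_tr hL _), mul_zero]
    · exact fun h => absurd (mem_range.2 (by omega)) h
  have h2 := φ3 (q0 + ∑ l, q l * t.Zl L (x l) m (k0 + r)) (add_mem (t.mono (by omega) h0)
    (sum_mem fun l _ => mul_mem (t.mono (by omega) (h1 l)) (t.mono (by omega) ((hx l).zl_mem hL _ _))))
  rw [map_add, φ0 _ (hK h0), zero_add, map_sum, sum_congr rfl fun l _ => by
    rw [φ1 _ (hK (h1 l)), hZ, mul_left_comm], ← mul_sum, norm_mul, norm_pow] at h2
  have h3 := (mul_le_mul_of_nonneg_left (hl m (by omega) q h1 i0) (by positivity)).trans h2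
  rw [div_mul_eq_mul_div, le_div_iff₀ (by positivity)] at h3
  have h4 : 2 * (‖(t.q : PadicAlgCl p)‖ ^ (k0 + r) * C * ‖q i0‖) ≤
      ‖q0 + ∑ l, q l * t.Zl L (x l) m (k0 + r)‖ := le_of_mul_le_mul_left (by linarith) hc0
  have h5 : ‖∑ l, q l * ((t.q : PadicAlgCl p) ^ (k0 + r) * t.Zl L (x l) (m + (k0 + r)) k')‖ ≤
      ‖(t.q : PadicAlgCl p)‖ ^ (k0 + r) * C * ‖q i0‖ :=
    IsUltrametricDist.norm_sum_le_of_forall_le_of_nonneg (by positivity) fun l _ => by
      rw [norm_mul, norm_mul, norm_pow, mul_comm]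
      gcongr
      exacts [hb _ (hx l) _ (by omega) _, hi0 l (mem_univ _)]
  have h6 := norm_sub_le (q0 + ∑ l, q l * t.Zl L (x l) m (k0 + r + k'))
    (∑ l, q l * ((t.q : PadicAlgCl p) ^ (k0 + r) * t.Zl L (x l) (m + (k0 + r)) k'))
  rw [show q0 + ∑ l, q l * t.Zl L (x l) m (k0 + r + k') -
      ∑ l, q l * ((t.q : PadicAlgCl p) ^ (k0 + r) * t.Zl L (x l) (m + (k0 + r)) k') =
      q0 + ∑ l, q l * t.Zl L (x l) m (k0 + r) by
    simp only [t.zl_add L _ m (k0 + r) k', mul_add, sum_add_distrib]; ring] at h6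
  have h7 := mul_le_mul_of_nonneg_left (hi0 i (mem_univ _))
    (show 0 ≤ ‖(t.q : PadicAlgCl p)‖ ^ (k0 + r) * C by positivity)
  linarith

theorem quad (hL : IsLog L) (hx : ∀ i, t.NS (x i)) (hl : t.Lin L x) :
    ∃ N : ℕ, ∀ m k, N ≤ m → N ≤ k → ∀ (q0 : PadicAlgCl p)
      (q : Fin d → PadicAlgCl p) (qq : Fin d → Fin d → PadicAlgCl p), q0 ∈ t.K m →
      (∀ i, q i ∈ t.K m) → (∀ i j, qq i j ∈ t.K m ∧ qq i j = qq j i) →
      q0 + ∑ i, q i * t.Zl L (x i) m k +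
        ∑ i, ∑ j, qq i j * (t.Zl L (x i) m k * t.Zl L (x j) m k) = 0 →
      q0 = 0 ∧ (∀ i, q i = 0) ∧ ∀ i j, qq i j = 0 := by
  obtain ⟨N, c1, hc1, ha⟩ := aff hL hx hl
  obtain ⟨m1, C, hC, hb⟩ := t.bound hL
  have h2 : 0 < ‖(2 : PadicAlgCl p)‖ := norm_pos_iff.2 two_ne_zero
  have hQ : 0 < ‖(t.q : PadicAlgCl p)‖ := norm_pos_iff.2 t.q_ne
  obtain ⟨s0, hs0⟩ := exists_pow_lt_of_lt_one
    (show 0 < c1 ^ 2 * ‖(2 : PadicAlgCl p)‖ / C ^ 2 by positivity) t.Q2_q
  obtain ⟨s, hs, hs1⟩ : ∃ s, N ≤ s ∧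
      ‖(t.q : PadicAlgCl p)‖ ^ s * C ^ 2 < c1 ^ 2 * ‖(2 : PadicAlgCl p)‖ :=
    ⟨s0 + N, by omega, (lt_div_iff₀ (by positivity)).1
      ((pow_le_pow_of_le_one hQ.le t.Q2_q.le (by omega)).trans_lt hs0)⟩
  refine ⟨s + N + m1, fun m k hm hk q0 q qq h0 h1 hqq hP => ?_⟩
  have hz : ∀ i j, qq i j = 0 := by
    intro i j
    obtain ⟨k', rfl⟩ := Nat.exists_eq_add_of_le (show s ≤ k by omega)
    obtain ⟨⟨i0, j0⟩, -, hmax⟩ := exists_max_image univ
      (fun z : Fin d × Fin d => ‖qq z.1 z.2‖) ⟨(i, j), mem_univ _⟩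
    have hK : t.K m ≤ t.K (m + s) := t.mono (by omega)
    have hA : ∀ i, t.Zl L (x i) m s ∈ t.K (m + s) := fun i => (hx i).zl_mem hL _ _
    have h3 := ha (m + s) k' (by omega) (by omega)
      (q0 + ∑ i, q i * t.Zl L (x i) m s + ∑ i, ∑ j, qq i j * (t.Zl L (x i) m s * t.Zl L (x j) m s))
      (fun i => (t.q : PadicAlgCl p) ^ s * (q i + ∑ j, 2 * qq i j * t.Zl L (x j) m s))
      (add_mem (add_mem (hK h0) (sum_mem fun i _ => mul_mem (hK (h1 i)) (hA i)))
        (sum_mem fun i _ => sum_mem fun j _ => mul_mem (hK (hqq i j).1) (mul_mem (hA i) (hA j))))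
      (fun i => mul_mem (pow_mem (natCast_mem _ _) _) (add_mem (hK (h1 i)) (sum_mem fun j _ =>
        mul_mem (mul_mem (ofNat_mem _ 2) (hK (hqq i j).1)) (hA j)))) i0
    have h4 := ha m s (by omega) hs (q i0) (fun j => 2 * qq i0 j) (h1 i0)
      (fun j => mul_mem (ofNat_mem _ 2) (hqq i0 j).1) j0
    simp only [t.zl_add L _ m s k'] at hP
    have e : ∑ i, ∑ j, qq i j * (t.Zl L (x i) m s *
        ((t.q : PadicAlgCl p) ^ s * t.Zl L (x j) (m + s) k')) = ∑ i, ∑ j, qq i j *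
        ((t.q : PadicAlgCl p) ^ s * t.Zl L (x i) (m + s) k' * t.Zl L (x j) m s) := by
      rw [sum_comm]
      exact sum_congr rfl fun i _ => sum_congr rfl fun j _ => by rw [(hqq j i).2]; ring
    rw [show q0 + ∑ i, q i * t.Zl L (x i) m s +
        ∑ i, ∑ j, qq i j * (t.Zl L (x i) m s * t.Zl L (x j) m s) +
        ∑ l, (t.q : PadicAlgCl p) ^ s * (q l + ∑ j, 2 * qq l j * t.Zl L (x j) m s) *
          t.Zl L (x l) (m + s) k' = -∑ i, ∑ j, qq i j * ((t.q : PadicAlgCl p) ^ s *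
          t.Zl L (x i) (m + s) k' * ((t.q : PadicAlgCl p) ^ s * t.Zl L (x j) (m + s) k')) by
      simp only [mul_add, add_mul, sum_add_distrib] at hP
      rw [e] at hP
      have e2 : ∑ l, (t.q : PadicAlgCl p) ^ s * (q l + ∑ j, 2 * qq l j * t.Zl L (x j) m s) *
          t.Zl L (x l) (m + s) k' = ∑ l, q l * ((t.q : PadicAlgCl p) ^ s * t.Zl L (x l) (m + s) k') +
          2 * ∑ i, ∑ j, qq i j *
            ((t.q : PadicAlgCl p) ^ s * t.Zl L (x i) (m + s) k' * t.Zl L (x j) m s) := by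
        simp only [mul_add, add_mul, sum_add_distrib, mul_sum, sum_mul]
        exact congrArg₂ (· + ·) (sum_congr rfl fun _ _ => by ring)
          (sum_congr rfl fun _ _ => sum_congr rfl fun _ _ => by ring)
      rw [e2]
      linear_combination hP, norm_neg, norm_mul, norm_pow] at h3
    have h5 : ‖∑ i, ∑ j, qq i j * ((t.q : PadicAlgCl p) ^ s * t.Zl L (x i) (m + s) k' *
        ((t.q : PadicAlgCl p) ^ s * t.Zl L (x j) (m + s) k'))‖ ≤
        ‖qq i0 j0‖ * (‖(t.q : PadicAlgCl p)‖ ^ s * C * (‖(t.q : PadicAlgCl p)‖ ^ s * C)) :=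
      IsUltrametricDist.norm_sum_le_of_forall_le_of_nonneg (by positivity) fun i _ =>
        IsUltrametricDist.norm_sum_le_of_forall_le_of_nonneg (by positivity) fun j _ => by
          simp only [norm_mul, norm_pow]
          gcongr
          exacts [hmax (i, j) (mem_univ _), hb _ (hx i) _ (by omega) _, hb _ (hx j) _ (by omega) _]
    rw [norm_mul] at h4
    have h6 : c1 * ‖q i0 + ∑ j, 2 * qq i0 j * t.Zl L (x j) m s‖ ≤
        ‖qq i0 j0‖ * (‖(t.q : PadicAlgCl p)‖ ^ s * C ^ 2) :=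
      le_of_mul_le_mul_left (by linarith) (pow_pos hQ s)
    have h7 : ‖qq i0 j0‖ ≤ 0 := by
      by_contra h
      have h8 := mul_lt_mul_of_pos_left hs1 (not_le.1 h)
      have h9 := mul_le_mul_of_nonneg_left h4 hc1.le
      linarith
    exact norm_le_zero_iff.1 ((hmax (i, j) (mem_univ _)).trans h7)
  simp only [hz, zero_mul, sum_const_zero, add_zero] at hP
  have hq : ∀ i, q i = 0 := fun i => by
    have h3 := ha m k (by omega) (by omega) q0 q h0 h1 i
    rw [hP, norm_zero] at h3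
    exact norm_le_zero_iff.1 (le_of_mul_le_mul_left (by rwa [mul_zero]) hc1)
  exact ⟨by simpa [hq] using hP, hq, hz⟩

end Pool.Agent.Work.MP_dd0d16_nt.W.Tw
end

-- merged part: Pool.Agent.Work.MP_dd0d16_nt.W.Desc
section
/-!
Descent of the coefficients and the independent case.

PLAN. `desc`: decompose each `z j` (`dec`); the powers `ξ (m + k) ^ b`, `b < q ^ k`, are independent over `F` (`linearIndependent_pow`), so
`∑ j, a j * β j b = 0`; apply `φ`. `quadF`: for `a0 ≠ 0` there is an additive `φ`, linear over `K m`, with values in `K m` and `φ a0 ≠ 0`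
(`Module.forall_dual_apply_eq_zero_iff` for `PadicAlgCl p` as a vector space over `K m`); `desc` with the index type
`Option (Fin d ⊕ Fin d × Fin d)`, `NS.zl_mem`, `quad`. `ind_case`: `L (x i (m + k)) = α * (L (x i m) + Z i)` with `α = (q ^ k)⁻¹` (`zl_eq`); `A' = a + ∑ cc * α * L (x i m)` lies in `F`
(`NS.log_mem`), `B' = α * cc`. For every vector `X` the determinant of `A' + B' X` is `q0 + ∑ q i * X i + ∑ ∑ qq i j * (X i * X j)` with
`qq i j = (B' 0 0 i * B' 1 1 j + B' 0 0 j * B' 1 1 i - B' 0 1 i * B' 1 0 j - B' 0 1 j * B' 1 0 i) / 2` (`Finset.sum_mul_sum`, `sum_comm`). If the determinant vanishes at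
`X = Z`, `quadF` and `T.dep_or_zero` finish; unfold `FourExp` and `T.Dep` (see `fourExp_of_dep` in T/Final.lean, do not import it).
-/

set_option autoImplicit false

namespace Pool.Agent.Work.MP_dd0d16_nt.W.Tw

open Polynomial Finset Filter

variable {p : ℕ} [Fact p.Prime] {t : Tw p} {L : PadicAlgCl p → PadicAlgCl p} {d : ℕ}
  {x : Fin d → ℕ → PadicAlgCl p}

theorem desc {m k : ℕ} {F : IntermediateField ℚ_[p] (PadicAlgCl p)}
    (hF : t.K m ≤ F) (hd : (minpoly F (t.ξ (m + k))).natDegree = t.q ^ k) {J : Type} [Fintype J]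
    {a z : J → PadicAlgCl p} (ha : ∀ j, a j ∈ F) (hz : ∀ j, z j ∈ t.K (m + k))
    (h0 : ∑ j, a j * z j = 0) (φ : PadicAlgCl p →+ PadicAlgCl p)
    (hφ : ∀ u ∈ t.K m, ∀ w, φ (w * u) = φ w * u) : ∑ j, φ (a j) * z j = 0 := by
  choose β hβ using fun j => dec (hz j)
  have e : ∀ c : J → PadicAlgCl p, ∑ j, c j * z j =
      ∑ b ∈ range (t.q ^ k), (∑ j, c j * β j b) * t.ξ (m + k) ^ b := fun c => by
    simp only [sum_mul, mul_assoc]
    rw [sum_comm]
    exact sum_congr rfl fun j _ => by rw [(hβ j).2, mul_sum]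
  rw [e]
  refine sum_eq_zero fun b hb => ?_
  have h1 := Fintype.linearIndependent_iff.1 (linearIndependent_pow (K := F) (t.ξ (m + k)))
    (fun i => ⟨∑ j, a j * β j i, sum_mem fun j _ => mul_mem (ha j) (hF ((hβ j).1 i))⟩) (by
      rw [e, ← hd, sum_range] at h0
      exact h0) ⟨b, hd ▸ mem_range.1 hb⟩
  have h2 := congrArg φ (congrArg Subtype.val h1)
  rw [map_sum, sum_congr rfl fun j _ => hφ _ ((hβ j).1 b) _, ZeroMemClass.coe_zero, map_zero] at h2
  rw [h2, zero_mul]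

theorem quadF (hL : IsLog L) (hx : ∀ i, t.NS (x i)) (hl : t.Lin L x) :
    ∃ N : ℕ, ∀ m k, N ≤ m → N ≤ k →
      ∀ F : IntermediateField ℚ_[p] (PadicAlgCl p), t.K m ≤ F →
      (minpoly F (t.ξ (m + k))).natDegree = t.q ^ k → ∀ (q0 : PadicAlgCl p)
      (q : Fin d → PadicAlgCl p) (qq : Fin d → Fin d → PadicAlgCl p), q0 ∈ F →
      (∀ i, q i ∈ F) → (∀ i j, qq i j ∈ F ∧ qq i j = qq j i) →
      q0 + ∑ i, q i * t.Zl L (x i) m k +
        ∑ i, ∑ j, qq i j * (t.Zl L (x i) m k * t.Zl L (x j) m k) = 0 →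
      q0 = 0 ∧ (∀ i, q i = 0) ∧ ∀ i j, qq i j = 0 := by
  obtain ⟨N, hN⟩ := quad hL hx hl
  refine ⟨N, fun m k hm hk F hF hd q0 q qq h0 h1 h2 h => ?_⟩
  have key : ∀ ψ : Module.Dual (t.K m) (PadicAlgCl p),
      ψ q0 = 0 ∧ (∀ i, ψ (q i) = 0) ∧ ∀ i j, ψ (qq i j) = 0 := fun ψ => by
    have h3 := desc hF hd (J := Option (Fin d ⊕ Fin d × Fin d))
      (a := fun o => o.elim q0 (Sum.elim q fun ij => qq ij.1 ij.2))
      (z := fun o => o.elim 1 (Sum.elim (fun i => t.Zl L (x i) m k)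
        fun ij => t.Zl L (x ij.1) m k * t.Zl L (x ij.2) m k))
      (by rintro (_ | i | ij); exacts [h0, h1 i, (h2 _ _).1])
      (by
        rintro (_ | i | ij)
        exacts [one_mem _, (hx i).zl_mem hL _ _, mul_mem ((hx _).zl_mem hL _ _) ((hx _).zl_mem hL _ _)])
      (by simpa [Fintype.sum_prod_type, add_assoc] using h)
      ((algebraMap (t.K m) (PadicAlgCl p)).toAddMonoidHom.comp ψ.toAddMonoidHom) fun u hu w => by
        have := congrArg Subtype.val (ψ.map_smul ⟨u, hu⟩ w)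
        rw [mul_comm w, mul_comm _ u]
        exact this
    obtain ⟨a1, a2, a3⟩ := hN m k hm hk (ψ q0) (fun i => ψ (q i)) (fun i j => ψ (qq i j)) (ψ q0).2
      (fun i => (ψ (q i)).2) (fun i j => ⟨(ψ (qq i j)).2, by rw [(h2 i j).2]⟩)
      (by simpa [Fintype.sum_prod_type, add_assoc] using h3)
    exact ⟨Subtype.ext a1, fun i => Subtype.ext (a2 i), fun i j => Subtype.ext (a3 i j)⟩
  exact ⟨(Module.forall_dual_apply_eq_zero_iff (t.K m) _).1 fun ψ => (key ψ).1,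
    fun i => (Module.forall_dual_apply_eq_zero_iff (t.K m) _).1 fun ψ => (key ψ).2.1 i,
    fun i j => (Module.forall_dual_apply_eq_zero_iff (t.K m) _).1 fun ψ => (key ψ).2.2 i j⟩

theorem ind_case (hL : IsLog L) (hx : ∀ i, t.NS (x i)) (hl : t.Lin L x) :
    ∃ N : ℕ, ∀ m k, N ≤ m → N ≤ k →
      ∀ F : IntermediateField ℚ_[p] (PadicAlgCl p), t.K m ≤ F →
      (minpoly F (t.ξ (m + k))).natDegree = t.q ^ k → ∀ (a : Fin 2 → Fin 2 → PadicAlgCl p)
      (cc : Fin 2 → Fin 2 → Fin d → PadicAlgCl p), (∀ i j, a i j ∈ F) →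
      (∀ i j l, cc i j l ∈ F ∧ IsAlgebraic ℚ (cc i j l)) →
      FourExp (Matrix.of fun i j => a i j + ∑ l, cc i j l * L (x l (m + k))) ∨
        ∀ i j l, cc i j l = 0 := by
  obtain ⟨N, hN⟩ := quadF hL hx hl
  refine ⟨N, fun m k hm hk F hF hd a cc ha hc => ?_⟩
  have hq := pow_ne_zero k t.q_ne
  obtain ⟨B, hB⟩ : ∃ B : Fin 2 → Fin 2 → Fin d → PadicAlgCl p,
    ∀ i j l, B i j l = cc i j l * ((t.q : PadicAlgCl p) ^ k)⁻¹ := ⟨_, fun _ _ _ => rfl⟩
  obtain ⟨A, hA⟩ : ∃ A : Fin 2 → Fin 2 → PadicAlgCl p,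
    ∀ i j, A i j = a i j + ∑ l, B i j l * L (x l m) := ⟨_, fun _ _ => rfl⟩
  have hBF : ∀ i j l, B i j l ∈ F := fun i j l =>
    hB i j l ▸ mul_mem (hc i j l).1 (inv_mem (pow_mem (natCast_mem _ _) _))
  have hAF : ∀ i j, A i j ∈ F := fun i j =>
    hA i j ▸ add_mem (ha i j) (sum_mem fun l _ => mul_mem (hBF i j l) (hF ((hx l).log_mem hL m)))
  have e : (fun i j => a i j + ∑ l, cc i j l * L (x l (m + k))) =
      fun i j => A i j + ∑ l, B i j l * t.Zl L (x l) m k := funext₂ fun i j => by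
    rw [hA, add_assoc, ← sum_add_distrib]
    exact congrArg _ (sum_congr rfl fun l _ => by
      rw [← mul_add, ← t.zl_eq, hB, mul_assoc, inv_mul_cancel_left₀ hq])
  have e2 : ∀ w : Fin d → PadicAlgCl p, (A 0 0 + ∑ l, B 0 0 l * w l) * (A 1 1 + ∑ l, B 1 1 l * w l) -
      (A 0 1 + ∑ l, B 0 1 l * w l) * (A 1 0 + ∑ l, B 1 0 l * w l) = A 0 0 * A 1 1 - A 0 1 * A 1 0 +
      ∑ i, (A 0 0 * B 1 1 i + A 1 1 * B 0 0 i - A 0 1 * B 1 0 i - A 1 0 * B 0 1 i) * w i +
      ∑ i, ∑ j, (B 0 0 i * B 1 1 j + B 0 0 j * B 1 1 i - B 0 1 i * B 1 0 j - B 0 1 j * B 1 0 i) / 2 *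
        (w i * w j) := fun w => by
    have e3 : ∀ u v : Fin d → PadicAlgCl p, ∑ i, ∑ j, u i * v j * (w i * w j) =
        (∑ i, u i * w i) * ∑ i, v i * w i := fun u v => by
      rw [sum_mul_sum]
      exact sum_congr rfl fun _ _ => sum_congr rfl fun _ _ => by ring
    have e4 : ∀ u v : Fin d → PadicAlgCl p, ∑ i, ∑ j, u j * v i * (w i * w j) =
        (∑ i, u i * w i) * ∑ i, v i * w i := fun u v => by
      rw [← e3, sum_comm]
      exact sum_congr rfl fun _ _ => sum_congr rfl fun _ _ => by ring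
    simp only [div_mul_eq_mul_div, ← sum_div, add_mul, sub_mul, sum_add_distrib, sum_sub_distrib,
      e3, e4]
    simp only [mul_assoc, ← mul_sum]
    ring
  rw [e]
  by_cases h : (Matrix.of fun i j => A i j + ∑ l, B i j l * t.Zl L (x l) m k).det = 0
  swap
  · exact Or.inl fun _ _ => h
  rw [Matrix.det_fin_two] at h
  simp only [Matrix.of_apply, e2] at h
  obtain ⟨a1, a2, a3⟩ := hN m k hm hk F hF hd _ _ _
    (sub_mem (mul_mem (hAF _ _) (hAF _ _)) (mul_mem (hAF _ _) (hAF _ _)))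
    (fun i => sub_mem (sub_mem (add_mem (mul_mem (hAF _ _) (hBF _ _ _)) (mul_mem (hAF _ _)
      (hBF _ _ _))) (mul_mem (hAF _ _) (hBF _ _ _))) (mul_mem (hAF _ _) (hBF _ _ _)))
    (fun i j => ⟨div_mem (sub_mem (sub_mem (add_mem (mul_mem (hBF _ _ _) (hBF _ _ _))
      (mul_mem (hBF _ _ _) (hBF _ _ _))) (mul_mem (hBF _ _ _) (hBF _ _ _)))
      (mul_mem (hBF _ _ _) (hBF _ _ _))) (ofNat_mem _ 2), by ring⟩) h
  refine (T.dep_or_zero A B (fun i j l => hB i j l ▸ (hc i j l).2.mul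
    ((isAlgebraic_natCast _).pow _).inv) (fun w => ?_) fun l => t.Zl L (x l) m k).imp ?_
    fun h0 i j l => ?_
  · rw [← sub_eq_zero, e2]
    simp only [a1, a2, a3, zero_mul, sum_const_zero, add_zero]
  · rintro (⟨u, v, t1, t2, t3, t4⟩ | ⟨u, v, t1, t2, t3, t4⟩) h1 h2 -
    exacts [t4 (h1 u v t1 t2 t3), t4 (h2 u v t1 t2 t3)]
  · have := h0 i j l
    rw [hB] at this
    exact (mul_eq_zero.1 this).resolve_right (inv_ne_zero hq)

end Pool.Agent.Work.MP_dd0d16_nt.W.Tw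
end

-- merged part: Pool.Agent.Work.MP_dd0d16_nt.W.Kill
section
/-!
A linear relation between the components gives a rational relation between the new parts.

PLAN. `ρ` from `we`, `k` from `rank_new`, `s m` from `reps m (k + 1)`. Columns indexed by `I = (m : M) × s m`: `γ ⟨m, τ⟩ i = τ (x i (m + k + 1) ^ q / x i (m + k))`, with logarithm
`τ (Yl ..)` (`NS.yl_eq`, `T.log_aut`; `IsAlgebraic.algHom`-type lemma for `τ` restricted to the rationals); `Fx.dec` and the hypothesis give the relation. For `m ∈ M` let `z = ∑ a i * Yl ..`. If `z ≠ 0` then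
`z ∉ K (m + k)`, since its trace vanishes (`NS.yl_tr`, `tr_add`, `tr_smul`, `tr_of_mem`, `q_ne`); `rank_new` gives `τ i`, replace them by representatives in `s m`.
-/

set_option autoImplicit false

namespace Pool.Agent.Work.MP_dd0d16_nt.W.Tw

open Polynomial Finset Filter

variable {p : ℕ} [Fact p.Prime] {t : Tw p} {L : PadicAlgCl p → PadicAlgCl p} {d : ℕ}
  {x : Fin d → ℕ → PadicAlgCl p}

theorem kill (hL : IsLog L) (hx : ∀ i, t.NS (x i)) (ha : ∀ i n, IsAlgebraic ℚ (x i n)) :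
    ∃ k : ℕ, ∀ (M : Finset ℕ) (β : ℕ → Fin d → ℕ → PadicAlgCl p) (u : Fin d → PadicAlgCl p),
      u ≠ 0 → (∀ m i, t.Dec m (k + 1) (t.Yl L (x i) (m + k)) (β m i)) →
      (∀ m ∈ M, ∀ b, b < t.q ^ (k + 1) → ∑ i, u i * β m i b = 0) →
      ∃ a : Fin d → ℤ, a ≠ 0 ∧ ∀ m ∈ M, ∑ i, (a i : PadicAlgCl p) * t.Yl L (x i) (m + k) = 0 := by
  obtain ⟨ρ, hρ⟩ := we hL d
  obtain ⟨k, hk⟩ := t.rank_new ρ
  choose s hs hs' using fun m => t.reps m (k + 1)
  refine ⟨k, fun M β u hu hβ h => ?_⟩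
  have h0 : ∀ i j, x i (j + 1) ^ t.q / x i j ≠ 0 := fun i j =>
    div_ne_zero (pow_ne_zero _ (hx i _).2.1) (hx i _).2.1
  have h1 : ∀ (τ : Aut p) i j, L (τ (x i (j + 1) ^ t.q / x i j)) = τ (t.Yl L (x i) j) :=
    fun τ i j => by rw [T.log_aut hL _ (h0 i j), (hx i).yl_eq hL]
  obtain ⟨a, a0, a1⟩ := hρ ((m : M) × s m)
    (fun j i => j.2.1 (x i (j.1 + k + 1) ^ t.q / x i (j.1 + k))) u
    (fun j i => ⟨(_root_.map_ne_zero _).2 (h0 _ _), by
      rw [div_eq_mul_inv]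
      exact (((ha _ _).pow _).mul (ha _ _).inv).algHom
        ((j.2.1 : PadicAlgCl p →+* PadicAlgCl p).toRatAlgHom)⟩) hu fun j => by
      simp only [h1, (hs _ _ j.2.2).dec (hβ _ _), mul_sum, ← mul_assoc]
      rw [sum_comm]
      exact sum_eq_zero fun b hb => by rw [← sum_mul, h _ j.1.2 b (mem_range.1 hb), zero_mul]
  refine ⟨a, a0, fun m hm => by_contra fun hz => ?_⟩
  have h2 : ∑ i, (a i : PadicAlgCl p) * t.Yl L (x i) (m + k) ∈ t.K (m + (k + 1)) :=
    sum_mem fun i _ => mul_mem (intCast_mem _ _) ((hx i).yl_mem hL _)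
  obtain ⟨τ, τ1, τ2⟩ := hk m _ h2 fun h3 => hz (by
    obtain ⟨ψ, hψ⟩ := t.Tr_hom (m + k)
    have h4 := tr_of_mem h3
    rw [← hψ, map_sum, sum_eq_zero fun i _ => by
      rw [hψ, tr_smul (intCast_mem _ _), (hx i).yl_tr hL, mul_zero]] at h4
    exact (mul_eq_zero.1 h4.symm).resolve_left t.q_ne)
  choose τ' e1 e2 using fun i => hs' m (τ i) (τ1 i)
  refine a1 (fun i => ⟨⟨m, hm⟩, τ' i, e1 i⟩) ?_
  simp only [← e2 _ _ h2] at τ2
  simpa only [h1, map_sum, map_mul, map_intCast] using τ2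

end Pool.Agent.Work.MP_dd0d16_nt.W.Tw
end

-- merged part: Pool.Agent.Work.MP_dd0d16_nt.W.LinA
section
/-!
Linear algebra and pigeonhole lemmas.

PLAN. `span_bound`: `Pi.single i 1` is a combination of finitely many `v j`. `exists_perp`: `Submodule.exists_dual_map_eq_bot_of_lt_top`,
`u i = φ (Pi.single i 1)`. `exists_det`: `exists_linearIndependent`, a basis inside the range, reindex by `Fin d`,
`Matrix.linearIndependent_cols_iff_isUnit` or `is_basis_iff_det`. `cramer`: `det B • w = (w ᵥ* B) ᵥ* adjugate B`, the entries of the adjugate are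
determinants of matrices with entries of norm `≤ 1` (`Matrix.adjugate_apply`, `Matrix.det_apply'`, ultrametric inequality).
`prim`: divide by `p` as long as all entries are divisible (strong induction on `∑ natAbs`), or divide by the gcd. `pigeon`: the map
`m ↦ (a m : ZMod (p ^ s))` takes some value frequently (finite codomain, `eventually_all`); take `a0 = a m0` for one such `m0`.
`common`: the subspaces `A n = {a : Fin d → ℚ | ∀ m, m2 ≤ m → m ≤ m2 + n → ∑ a i * y m i = 0}` decrease and are nonzero; `IsArtinian`,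
`monotone_stabilizes_iff_artinian` (order dual).
-/

set_option autoImplicit false

namespace Pool.Agent.Work.MP_dd0d16_nt.W

open Finset Filter

variable {p : ℕ} [Fact p.Prime] {d : ℕ}

theorem span_bound {J : Type} (v : J → Fin d → PadicAlgCl p)
    (hv : Submodule.span (PadicAlgCl p) (Set.range v) = ⊤) : ∃ C : ℝ, 0 < C ∧
      ∀ (a : Fin d → PadicAlgCl p) (ε : ℝ), 0 ≤ ε → (∀ j, ‖∑ i, a i * v j i‖ ≤ ε) →
        ∀ i, ‖a i‖ ≤ C * ε := by
  have k : ∀ x ∈ Submodule.span (PadicAlgCl p) (Set.range v), ∃ C : ℝ, 0 ≤ C ∧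
      ∀ (a : Fin d → PadicAlgCl p) (ε : ℝ), 0 ≤ ε → (∀ j, ‖∑ i, a i * v j i‖ ≤ ε) →
        ‖∑ i, a i * x i‖ ≤ C * ε := by
    intro x hx
    induction hx using Submodule.span_induction with
    | mem x hx =>
      obtain ⟨j, rfl⟩ := hx
      exact ⟨1, zero_le_one, fun a ε _ h => by rw [one_mul]; exact h j⟩
    | zero => exact ⟨0, le_rfl, fun a ε _ _ => by simp⟩
    | add x y _ _ h1 h2 =>
      obtain ⟨C1, p1, h1⟩ := h1
      obtain ⟨C2, p2, h2⟩ := h2
      refine ⟨C1 + C2, add_nonneg p1 p2, fun a ε h0 h => ?_⟩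
      simp only [Pi.add_apply, mul_add, sum_add_distrib, add_mul]
      exact (norm_add_le _ _).trans (add_le_add (h1 a ε h0 h) (h2 a ε h0 h))
    | smul c x _ h1 =>
      obtain ⟨C1, p1, h1⟩ := h1
      refine ⟨‖c‖ * C1, mul_nonneg (norm_nonneg _) p1, fun a ε h0 h => ?_⟩
      simp only [Pi.smul_apply, smul_eq_mul, mul_left_comm _ c, ← mul_sum, norm_mul, mul_assoc]
      exact mul_le_mul_of_nonneg_left (h1 a ε h0 h) (norm_nonneg _)
  choose C hC h using fun i : Fin d => k (Pi.single i 1) (by rw [hv]; trivial)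
  have hs : 0 ≤ ∑ i, C i := sum_nonneg fun i _ => hC i
  refine ⟨1 + ∑ i, C i, by linarith, fun a ε h0 hj i => ?_⟩
  have h1 := h i a ε h0 hj
  have h2 : C i ≤ ∑ i, C i := single_le_sum (fun i _ => hC i) (mem_univ i)
  simp only [Pi.single_apply, mul_ite, mul_one, mul_zero, sum_ite_eq', mem_univ, if_true] at h1
  exact h1.trans (mul_le_mul_of_nonneg_right (by linarith) h0)

theorem exists_perp {J : Type} (v : J → Fin d → PadicAlgCl p)
    (hv : Submodule.span (PadicAlgCl p) (Set.range v) ≠ ⊤) :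
    ∃ u : Fin d → PadicAlgCl p, u ≠ 0 ∧ ∀ j, ∑ i, u i * v j i = 0 := by
  obtain ⟨f, h0, h1⟩ := Submodule.exists_le_ker_of_lt_top _ hv.lt_top
  have k : ∀ x, f x = ∑ i, (f fun j => if i = j then 1 else 0) * x i := fun x => by
    rw [LinearMap.pi_apply_eq_sum_univ f x]
    exact sum_congr rfl fun i _ => mul_comm _ _
  refine ⟨fun i => f fun j => if i = j then 1 else 0, fun h => h0 (LinearMap.ext fun x => ?_),
    fun j => (k _).symm.trans (h1 (Submodule.subset_span ⟨j, rfl⟩))⟩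
  rw [k]
  exact sum_eq_zero fun i _ => mul_eq_zero_of_left (congrFun h i) _

theorem exists_det {J : Type} (v : J → Fin d → PadicAlgCl p)
    (hv : Submodule.span (PadicAlgCl p) (Set.range v) = ⊤) :
    ∃ f : Fin d → J, (Matrix.of fun i l => v (f l) i).det ≠ 0 := by
  obtain ⟨κ, a, -, h1, h2⟩ := exists_linearIndependent' (PadicAlgCl p) v
  have e := (Module.Basis.mk h2 (by rw [h1, hv])).indexEquiv (Pi.basisFun (PadicAlgCl p) (Fin d))
  refine ⟨a ∘ e.symm, IsUnit.ne_zero ((Matrix.isUnit_iff_isUnit_det _).1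
    (Matrix.linearIndependent_cols_iff_isUnit.1 ?_))⟩
  exact h2.comp e.symm e.symm.injective

theorem LinA_det (B : Matrix (Fin d) (Fin d) (PadicAlgCl p)) (hB : ∀ i l, ‖B i l‖ ≤ 1) :
    ‖B.det‖ ≤ 1 := by
  rw [Matrix.det_apply']
  refine IsUltrametricDist.norm_sum_le_of_forall_le_of_nonneg zero_le_one fun σ _ => ?_
  rw [norm_mul, norm_prod]
  exact mul_le_one₀ (IsUltrametricDist.norm_intCast_le_one _ _) (prod_nonneg fun _ _ => norm_nonneg _)
    (prod_le_one (fun _ _ => norm_nonneg _) fun _ _ => hB _ _)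

theorem cramer (B : Fin d → Fin d → PadicAlgCl p) (hB : ∀ i l, ‖B i l‖ ≤ 1)
    (w : Fin d → PadicAlgCl p) {ε : ℝ} (h : ∀ l, ‖∑ i, w i * B i l‖ ≤ ε) (i : Fin d) :
    ‖(Matrix.of B).det‖ * ‖w i‖ ≤ ε := by
  have h0 : 0 ≤ ε := (norm_nonneg _).trans (h i)
  have h1 : (Matrix.of B).det * w i =
      ∑ l, (∑ i, w i * B i l) * (Matrix.of B).adjugate l i := by
    have h2 := congrFun (Matrix.vecMul_vecMul w (Matrix.of B) (Matrix.of B).adjugate) i
    rw [Matrix.mul_adjugate, Matrix.vecMul_smul, Matrix.vecMul_one] at h2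
    exact h2.symm
  rw [← norm_mul, h1]
  refine IsUltrametricDist.norm_sum_le_of_forall_le_of_nonneg h0 fun l _ => ?_
  rw [norm_mul, Matrix.adjugate_apply]
  refine (mul_le_of_le_one_right (norm_nonneg _) (LinA_det _ fun a b => ?_)).trans (h l)
  rw [Matrix.updateRow_apply]
  split_ifs
  · rw [Pi.single_apply]
    split_ifs <;> simp
  · exact hB a b

theorem prim {a : Fin d → ℤ} (ha : a ≠ 0) : ∃ (a' : Fin d → ℤ) (n : ℤ), n ≠ 0 ∧
    (∀ i, a i = n * a' i) ∧ ∃ i, ¬ (p : ℤ) ∣ a' i := by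
  obtain ⟨i0, h0⟩ := Function.ne_iff.1 ha
  obtain ⟨g, h1, h2⟩ := Finset.extract_gcd a (s := univ) ⟨i0, mem_univ _⟩
  refine ⟨g, univ.gcd a, fun h => h0 (Finset.gcd_eq_zero_iff.1 h i0 (mem_univ _)),
    fun i => h1 i (mem_univ _), by_contra fun h => ?_⟩
  have h3 : (p : ℤ) ∣ univ.gcd g := Finset.dvd_gcd fun i _ => by_contra fun q => h ⟨i, q⟩
  rw [h2] at h3
  exact (Nat.prime_iff_prime_int.1 (Fact.out : p.Prime)).not_dvd_one h3

theorem LinA_norm (n : ℤ) : ‖(n : PadicAlgCl p)‖ = ‖(n : ℚ_[p])‖ := by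
  rw [← PadicAlgCl.norm_extends p (n : ℚ_[p])]
  exact congrArg norm (map_intCast (algebraMap ℚ_[p] (PadicAlgCl p)) n).symm

theorem pigeon (a : ℕ → Fin d → ℤ) (ha : ∀ᶠ m in atTop, ∃ i, ¬ (p : ℤ) ∣ a m i) (s : ℕ) :
    ∃ a0 : Fin d → ℤ, (∃ i, ‖(a0 i : PadicAlgCl p)‖ = 1) ∧
      ∃ᶠ m in atTop, ∀ i, ‖(a0 i : PadicAlgCl p) - a m i‖ ≤ (p : ℝ)⁻¹ ^ s := by
  have : NeZero (p ^ s) := ⟨pow_ne_zero _ (Fact.out : p.Prime).ne_zero⟩
  obtain ⟨c, hc⟩ : ∃ c : Fin d → ZMod (p ^ s), ∃ᶠ m in atTop, (fun i => (a m i : ZMod (p ^ s))) = c := by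
    by_contra h
    obtain ⟨m, hm⟩ := (eventually_all.2 fun c => not_frequently.1 (not_exists.1 h c)).exists
    exact hm _ rfl
  obtain ⟨m0, h0, i0, h1⟩ := (hc.and_eventually ha).exists
  refine ⟨a m0, ⟨i0, ?_⟩, hc.mono fun m hm i => ?_⟩
  · rw [LinA_norm]
    exact le_antisymm (Padic.norm_int_le_one _)
      (not_lt.1 fun q => h1 (Padic.norm_intCast_lt_one_iff.1 q))
  · rw [← Int.cast_sub, LinA_norm, inv_pow, ← zpow_natCast, ← zpow_neg, Padic.norm_int_le_pow_iff_dvd]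
    have h2 := (ZMod.intCast_eq_intCast_iff_dvd_sub _ _ _).1 (congrFun (hm.trans h0.symm) i)
    rwa [Nat.cast_pow] at h2

theorem common (y : ℕ → Fin d → PadicAlgCl p) (m2 : ℕ)
    (h : ∀ n, ∃ a : Fin d → ℤ, a ≠ 0 ∧ ∀ m ∈ Icc m2 (m2 + n), ∑ i, (a i : PadicAlgCl p) * y m i = 0) :
    ∃ a : Fin d → ℚ, a ≠ 0 ∧ ∀ m, m2 ≤ m → ∑ i, (a i : PadicAlgCl p) * y m i = 0 := by
  let A : ℕ → Submodule ℚ (Fin d → ℚ) := fun n =>
    { carrier := {a | ∀ m ∈ Icc m2 (m2 + n), ∑ i, (a i : PadicAlgCl p) * y m i = 0}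
      add_mem' := fun {a b} h1 h2 m hm => by
        simp only [Pi.add_apply, Rat.cast_add, add_mul, sum_add_distrib, h1 m hm, h2 m hm, add_zero]
      zero_mem' := fun m _ => by simp
      smul_mem' := fun c a h1 m hm => by
        simp only [Pi.smul_apply, smul_eq_mul, Rat.cast_mul, mul_assoc, ← mul_sum, h1 m hm,
          mul_zero] }
  obtain ⟨n, hn⟩ := IsArtinian.monotone_stabilizes (R := ℚ) (M := Fin d → ℚ)
    ⟨fun n => OrderDual.toDual (A n), fun n n' hn a ha m hm =>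
      ha m (Icc_subset_Icc_right (Nat.add_le_add_left hn _) hm)⟩
  obtain ⟨a, h0, h1⟩ := h n
  have h2 : (fun i => (a i : ℚ)) ∈ A n := fun m hm => by simpa only [Rat.cast_intCast] using h1 m hm
  refine ⟨fun i => a i, fun q => h0 (funext fun i => Int.cast_eq_zero.1 (congrFun q i)), fun m hm => ?_⟩
  have h3 : A n = A (n + m) := hn (n + m) (Nat.le_add_right _ _)
  rw [h3] at h2
  exact h2 m (mem_Icc.2 ⟨hm, by omega⟩)

end Pool.Agent.Work.MP_dd0d16_nt.W
end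

-- merged part: Pool.Agent.Work.MP_dd0d16_nt.W.Q1
section
/-!
Quantitative linear independence of the new parts.

PLAN. `minor`: suppose all minors vanish at all levels `m ≥ m2`; enlarge `m2` so that `m1 ≤ m2` and `2 * a ≤ q ^ m2`. `exists_det`, `exists_perp` for the
columns `b : Fin (q ^ (k + 1))`, then `hk` with `M = {m}` and `prim` give `a m`. For each `s`, `pigeon` with `2 * s` gives `a0` with one entry of norm one and
`‖∑ a0 i * Yl‖ ≤ p⁻¹ ^ (2 * s) ≤ ‖ϖ‖ ^ (2 * s)` frequently (`Good`, `p_le`); `Dec.le`, `Dec.sum`, `Apx.sum`, `Apx.zsmul`, `Apx.rig` give `‖∑ a0 i * β m i b‖ ≤ ‖ϖ‖ ^ s` for all `m ≥ m2`.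
By `span_bound` the columns `(m, b)`, `m ≥ m2`, do not span; `exists_perp`, `hk` with `M = Icc m2 (m2 + n)`, `common`, `Ind` (shift the index by `k`).
`lin0`: `kill`, choose `β` (`dec`, `NS.yl_mem`), `minor` with `m2 = m1 + 2 * (d * a)`; take `s` with `‖ϖ‖ ^ s < ‖det‖`; `Apx.det`, `Apx.rig` show that eventually
`‖ϖ‖ ^ (2 * s) < ‖det m‖`; `cramer` with `ε = ‖ϖ‖⁻¹ * ‖∑ w l * Yl‖` (`Dec.sum`, `Dec.le'`). `lin`: `exists_good`, `lin0` for `x ^ A`, `NS.yl_pow`, `‖A‖ ≤ 1`.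
-/

set_option autoImplicit false

namespace Pool.Agent.Work.MP_dd0d16_nt.W.Tw

open Polynomial Finset Filter

variable {p : ℕ} [Fact p.Prime] {t : Tw p} {L : PadicAlgCl p → PadicAlgCl p} {d : ℕ}
  {x : Fin d → ℕ → PadicAlgCl p}

theorem minor {m1 a : ℕ} (hg : ∀ i, t.Good L (x i) m1 a) (hI : t.Ind L x)
    {k : ℕ} {β : ℕ → Fin d → ℕ → PadicAlgCl p}
    (hβ : ∀ m i, t.Dec m (k + 1) (t.Yl L (x i) (m + k)) (β m i))
    (hk : ∀ (M : Finset ℕ) (u : Fin d → PadicAlgCl p), u ≠ 0 →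
      (∀ m ∈ M, ∀ b, b < t.q ^ (k + 1) → ∑ i, u i * β m i b = 0) →
      ∃ a : Fin d → ℤ, a ≠ 0 ∧ ∀ m ∈ M, ∑ i, (a i : PadicAlgCl p) * t.Yl L (x i) (m + k) = 0)
    (m2 : ℕ) : ∃ m0, m2 ≤ m0 ∧ ∃ b : Fin d → ℕ, (∀ l, b l < t.q ^ (k + 1)) ∧
      (Matrix.of fun i l => β m0 i (b l)).det ≠ 0 := by
  by_contra hc
  simp only [not_exists, not_and, not_not] at hc
  have hϖ : 0 < ‖t.ϖ‖ := norm_pos_iff.2 t.pne
  obtain ⟨m3, e1, e2, e3⟩ : ∃ m3, m2 ≤ m3 ∧ m1 ≤ m3 ∧ 2 * a ≤ m3 :=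
    ⟨m2 + m1 + 2 * a, by omega, by omega, by omega⟩
  have h1 : ∀ m, ∃ a : Fin d → ℤ, m3 ≤ m → (∃ i, ¬ (p : ℤ) ∣ a i) ∧
      ∑ i, (a i : PadicAlgCl p) * t.Yl L (x i) (m + k) = 0 := by
    intro m
    by_cases hm : m3 ≤ m
    swap
    · exact ⟨0, fun h => absurd h hm⟩
    obtain ⟨u, hu, hu'⟩ := exists_perp (fun (b : Fin (t.q ^ (k + 1))) i => β m i b) fun h => by
      obtain ⟨f, hf⟩ := exists_det _ h
      exact hf (hc m (by omega) (fun l => f l) fun l => (f l).2)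
    obtain ⟨a', ha', h2⟩ := hk {m} u hu fun m' hm' b hb => by
      rw [mem_singleton.1 hm']
      exact hu' ⟨b, hb⟩
    obtain ⟨a'', n, hn, h3, h4⟩ := prim (p := p) ha'
    refine ⟨a'', fun _ => ⟨h4, ?_⟩⟩
    have h5 := h2 m (mem_singleton_self m)
    simp only [h3, Int.cast_mul, mul_assoc, ← mul_sum] at h5
    exact (mul_eq_zero.1 h5).resolve_left (Int.cast_ne_zero.2 hn)
  choose A hA using h1
  obtain ⟨u, hu, hu'⟩ := exists_perp
    (fun (j : {m // m3 ≤ m} × Fin (t.q ^ (k + 1))) i => β j.1 i j.2) fun h => by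
    obtain ⟨C, hC, hb⟩ := span_bound _ h
    obtain ⟨s, hs⟩ := exists_pow_lt_of_lt_one (inv_pos.2 hC) t.plt
    obtain ⟨a0, ⟨i0, hi0⟩, hf⟩ := pigeon A
      ((eventually_ge_atTop m3).mono fun m hm => (hA m hm).1) (2 * s)
    have h6 := hb (fun i => a0 i) (‖t.ϖ‖ ^ s) (by positivity) (fun j => ?_) i0
    · rw [hi0] at h6
      exact h6.not_gt ((lt_inv_mul_iff₀ hC).1 (by rwa [mul_one]))
    refine Apx.rig (Apx.sum univ fun i =>
      ((hg i).2 k (fun m => β m i) (fun m => hβ m i) j.2 j.2.2).zsmul (a0 i)) (e2.trans j.1.2)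
      ((e3.trans j.1.2).trans (Nat.lt_pow_self t.two_le).le) ?_
    refine (hf.and_eventually (eventually_ge_atTop m3)).mono fun m ⟨h7, hm⟩ => ?_
    refine (Dec.sum univ (a := fun i => (a0 i : PadicAlgCl p)) (fun i => intCast_mem _ _)
      (hβ m)).le ?_ j.2.2
    rw [← sub_zero (∑ i, _), ← (hA m hm).2, ← sum_sub_distrib]
    refine IsUltrametricDist.norm_sum_le_of_forall_le_of_nonneg (by positivity) fun i _ => ?_
    rw [← sub_mul, norm_mul]
    exact (mul_le_of_le_one_right (norm_nonneg _) ((hg i).1 _ (by omega))).trans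
      ((h7 i).trans (pow_le_pow_left₀ (by positivity) t.p_le _))
  obtain ⟨r, hr, h8⟩ := common (fun m i => t.Yl L (x i) (m + k)) m3 fun n =>
    hk (Icc m3 (m3 + n)) u hu fun m hm b hb => hu' (⟨m, (mem_Icc.1 hm).1⟩, ⟨b, hb⟩)
  refine hr (hI r ((eventually_ge_atTop (m3 + k)).mono fun n hn => ?_))
  obtain ⟨m, rfl⟩ : ∃ m, n = m + k := ⟨n - k, by omega⟩
  exact h8 m (by omega)

theorem lin0 (hL : IsLog L) (hx : ∀ i, t.NS (x i)) (ha : ∀ i n, IsAlgebraic ℚ (x i n))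
    {m1 a : ℕ} (hg : ∀ i, t.Good L (x i) m1 a) (hI : t.Ind L x) : t.Lin L x := by
  have hϖ : 0 < ‖t.ϖ‖ := norm_pos_iff.2 t.pne
  obtain ⟨k, hk⟩ := kill hL hx ha
  choose β hβ using fun m i => dec (m := m) (k := k + 1) ((hx i).yl_mem hL (m + k))
  obtain ⟨m0, hm0, b, hb, hdet⟩ := minor hg hI hβ (fun M u hu => hk M β u hu hβ) (m1 + 2 * (d * a))
  obtain ⟨s, hs⟩ := exists_pow_lt_of_lt_one (norm_pos_iff.2 hdet) t.plt
  have hA := fun i l => (hg i).2 k _ (fun m => hβ m i) _ (hb l)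
  have h1 : ∀ᶠ m in atTop, ‖t.ϖ‖ ^ (2 * s) < ‖(Matrix.of fun i l => β m i (b l)).det‖ := by
    by_contra h
    simp only [not_eventually, not_lt] at h
    exact ((Apx.det hA).rig (by omega)
      ((show 2 * (d * a) ≤ m0 by omega).trans (Nat.lt_pow_self t.two_le).le) h).not_gt hs
  obtain ⟨n0, hn0⟩ := eventually_atTop.1 h1
  refine ⟨k, n0 + m1, ‖t.ϖ‖ * ‖t.ϖ‖ ^ (2 * s), by positivity, fun m hm w hw i => ?_⟩
  have h2 := cramer (fun i l => β m i (b l)) (fun i l => (hA i l).1 m (by omega)) w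
    (ε := ‖t.ϖ‖⁻¹ * ‖∑ l, w l * t.Yl L (x l) (m + k)‖) (fun l => by
      rw [le_inv_mul_iff₀ hϖ]
      exact (Dec.sum univ hw (hβ m)).le' (hb l)) i
  rw [mul_assoc, ← le_inv_mul_iff₀ hϖ]
  exact (mul_le_mul_of_nonneg_right (hn0 m (by omega)).le (norm_nonneg _)).trans h2

theorem lin (hL : IsLog L) (hx : ∀ i, t.NS (x i)) (ha : ∀ i n, IsAlgebraic ℚ (x i n))
    (hI : t.Ind L x) : t.Lin L x := by
  obtain ⟨A, m1, a, hA, hg⟩ := t.exists_good hL
  have e : ∀ (w : Fin d → PadicAlgCl p) n, ∑ l, w l * t.Yl L (fun n => x l n ^ A) n =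
      A * ∑ l, w l * t.Yl L (x l) n := fun w n => by
    rw [mul_sum]
    exact sum_congr rfl fun l _ => by rw [(hx l).yl_pow hL, mul_left_comm]
  obtain ⟨k, n0, c0, hc0, h⟩ := lin0 (x := fun i n => x i n ^ A) hL (fun i => (hx i).pow A)
    (fun i n => (ha i n).pow A) (fun i => hg _ (hx i)) fun r hr => hI r (hr.mono fun n hn => by
      rw [e] at hn
      exact (mul_eq_zero.1 hn).resolve_left (Nat.cast_ne_zero.2 hA))
  refine ⟨k, n0, c0, hc0, fun m hm w hw i => (h m hm w hw i).trans ?_⟩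
  rw [e, norm_mul]
  exact mul_le_of_le_one_left (norm_nonneg _) (IsUltrametricDist.norm_natCast_le_one _ _)

end Pool.Agent.Work.MP_dd0d16_nt.W.Tw
end

-- merged part: Pool.Agent.Work.MP_dd0d16_nt.W.Final
section
/-!
Elimination of degenerate directions.
-/

set_option autoImplicit false

namespace Pool.Agent.Work.MP_dd0d16_nt.W

open Finset Filter Polynomial

variable {p : ℕ} [Fact p.Prime] {L : PadicAlgCl p → PadicAlgCl p}

theorem ext_span {d q : ℕ} (x : Fin (d + 1) → ℕ → PadicAlgCl p) (l0 : Fin (d + 1))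
    {u : Fin d → PadicAlgCl p}
    (hu : u ∈ Submodule.span (algebraicClosure ℚ (PadicAlgCl p))
      (Deg q L fun l => x (l0.succAbove l))) :
    (Fin.insertNth l0 0 u : Fin (d + 1) → PadicAlgCl p) ∈
      Submodule.span (algebraicClosure ℚ (PadicAlgCl p)) (Deg q L x) := by
  have key : ∀ {v w : Fin (d + 1) → PadicAlgCl p},
      w ∈ Submodule.span (algebraicClosure ℚ (PadicAlgCl p)) (Deg q L x) → v l0 = w l0 →
      (∀ k, v (l0.succAbove k) = w (l0.succAbove k)) →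
      v ∈ Submodule.span (algebraicClosure ℚ (PadicAlgCl p)) (Deg q L x) := fun {v w} h h1 h2 => by
    rwa [show v = w from funext fun k => Fin.succAboveCases l0 h1 h2 k]
  induction hu using Submodule.span_induction with
  | mem u hu =>
    refine Submodule.subset_span ⟨fun k => ?_, hu.2.mono fun n hn => ?_⟩
    · refine Fin.succAboveCases l0 ⟨0, by simp⟩ (fun k => ?_) k
      simpa using hu.1 k
    · rw [Fin.sum_univ_succAbove _ l0]
      simpa using hn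
  | zero => exact key (Submodule.zero_mem _) (by simp) (by simp)
  | add u w _ _ h1 h2 => exact key (Submodule.add_mem _ h1 h2) (by simp) (by simp)
  | smul a u _ h1 => exact key (Submodule.smul_mem _ a h1) (by simp) (by simp)

theorem final_tw (t : Tw p) (hL : IsLog L) (d : ℕ) :
    ∀ x : Fin d → ℕ → PadicAlgCl p, (∀ l, t.NS (x l)) → (∀ l n, IsAlgebraic ℚ (x l n)) →
      ∃ N : ℕ, ∀ m k, N ≤ m → N ≤ k →
      ∀ F : IntermediateField ℚ_[p] (PadicAlgCl p), t.K m ≤ F →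
      (minpoly F (t.ξ (m + k))).natDegree = t.q ^ k → ∀ (a : Fin 2 → Fin 2 → PadicAlgCl p)
      (cc : Fin 2 → Fin 2 → Fin d → PadicAlgCl p), (∀ i j, a i j ∈ F) →
      (∀ i j l, cc i j l ∈ F ∧ IsAlgebraic ℚ (cc i j l)) →
      FourExp (Matrix.of fun i j => a i j + ∑ l, cc i j l * L (x l (m + k))) ∨
        ∀ i j, cc i j ∈ Submodule.span (algebraicClosure ℚ (PadicAlgCl p)) (Deg t.q L x) := by
  have key : ∀ (d : ℕ) (x : Fin d → ℕ → PadicAlgCl p), (∀ l, t.NS (x l)) →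
      (∀ l n, IsAlgebraic ℚ (x l n)) → t.Ind L x → ∃ N : ℕ, ∀ m k, N ≤ m → N ≤ k →
      ∀ F : IntermediateField ℚ_[p] (PadicAlgCl p), t.K m ≤ F →
      (minpoly F (t.ξ (m + k))).natDegree = t.q ^ k → ∀ (a : Fin 2 → Fin 2 → PadicAlgCl p)
      (cc : Fin 2 → Fin 2 → Fin d → PadicAlgCl p), (∀ i j, a i j ∈ F) →
      (∀ i j l, cc i j l ∈ F ∧ IsAlgebraic ℚ (cc i j l)) →
      FourExp (Matrix.of fun i j => a i j + ∑ l, cc i j l * L (x l (m + k))) ∨
        ∀ i j, cc i j ∈ Submodule.span (algebraicClosure ℚ (PadicAlgCl p)) (Deg t.q L x) := by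
    intro d x hx ha hI
    obtain ⟨N, hN⟩ := Tw.ind_case hL hx (Tw.lin hL hx ha hI)
    refine ⟨N, fun m k hm hk F hF hd a cc h1 h2 => (hN m k hm hk F hF hd a cc h1 h2).imp id ?_⟩
    intro h0 i j
    rw [show cc i j = 0 from funext (h0 i j)]
    exact Submodule.zero_mem _
  induction d with
  | zero => exact fun x hx ha => key 0 x hx ha fun a _ => Subsingleton.elim _ _
  | succ d ih =>
    intro x hx ha
    by_cases hI : t.Ind L x
    · exact key _ x hx ha hI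
    simp only [Tw.Ind, not_forall] at hI
    obtain ⟨v, hv, hv0⟩ := hI
    obtain ⟨l0, hl0⟩ := Function.ne_iff.1 hv0
    have hl1 : (v l0 : PadicAlgCl p) ≠ 0 := by exact_mod_cast hl0
    obtain ⟨n1, hn1⟩ := eventually_atTop.1 hv
    obtain ⟨N, hN⟩ := ih (fun l => x (l0.succAbove l)) (fun l => hx _) fun l => ha _
    refine ⟨max N n1, fun m k hm hk F hF hd a cc h1 h2 => ?_⟩
    have hw : ∀ k, (t.q : PadicAlgCl p) ^ k * ∑ l, (v l : PadicAlgCl p) * L (x l (m + k)) =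
        ∑ l, (v l : PadicAlgCl p) * L (x l m) := by
      intro k
      induction k with
      | zero => simp
      | succ k ihk =>
        have h3 := hn1 (m + k) (by omega)
        simp only [Tw.Yl, mul_sub, sum_sub_distrib, sub_eq_zero] at h3
        rw [← ihk, ← h3, pow_succ, mul_assoc, mul_sum]
        exact congrArg _ (sum_congr rfl fun l _ => by rw [← add_assoc]; ring)
    have hq : ∀ q : ℚ, (q : PadicAlgCl p) ∈ F := fun q => by simp
    have hqa : ∀ q : ℚ, IsAlgebraic ℚ (q : PadicAlgCl p) := fun q => isAlgebraic_algebraMap q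
    have hwF : ∑ l, (v l : PadicAlgCl p) * L (x l (m + k)) ∈ F := by
      rw [(eq_inv_mul_iff_mul_eq₀ (pow_ne_zero k t.q_ne)).2 (hw k)]
      exact mul_mem (inv_mem (pow_mem (natCast_mem F _) k))
        (sum_mem fun l _ => mul_mem (hq _) (hF ((hx l).log_mem hL m)))
    have ht : ∀ i j, cc i j l0 / v l0 ∈ F ∧ IsAlgebraic ℚ (cc i j l0 / v l0) := fun i j =>
      ⟨div_mem (h2 i j l0).1 (hq _), by
        rw [div_eq_mul_inv]; exact (h2 i j l0).2.mul (hqa _).inv⟩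
    refine (hN m k (by omega) (by omega) F hF hd
      (fun i j => a i j + cc i j l0 / v l0 * ∑ l, (v l : PadicAlgCl p) * L (x l (m + k)))
      (fun i j l => cc i j (l0.succAbove l) - cc i j l0 / v l0 * v (l0.succAbove l))
      (fun i j => add_mem (h1 i j) (mul_mem (ht i j).1 hwF))
      fun i j l => ⟨sub_mem (h2 i j _).1 (mul_mem (ht i j).1 (hq _)),
        (h2 i j _).2.sub ((ht i j).2.mul (hqa _))⟩).imp (fun h3 => ?_) fun h3 i j => ?_
    · refine (congrArg (fun M => FourExp (Matrix.of M)) (funext₂ fun i j => ?_)).mp h3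
      simp only [Fin.sum_univ_succAbove _ l0, sub_mul, sum_sub_distrib, mul_add, mul_sum, mul_assoc]
      field_simp
      ring
    · have h4 : (fun l => (v l : PadicAlgCl p)) ∈ Deg t.q L x := ⟨fun l => ⟨v l, rfl⟩, hv⟩
      have h5 := Submodule.add_mem _ (Submodule.smul_mem _
        (⟨_, mem_algebraicClosure_iff.2 (ht i j).2⟩ : algebraicClosure ℚ (PadicAlgCl p))
        (Submodule.subset_span h4)) (ext_span x l0 (h3 i j))
      refine (congrArg (fun w : Fin (d + 1) → PadicAlgCl p => w ∈ Submodule.span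
        (algebraicClosure ℚ (PadicAlgCl p)) (Deg t.q L x)) (_root_.funext fun l => ?_)).mp h5
      refine Fin.succAboveCases l0 ?_ (fun l => ?_) l
      · simp [IntermediateField.smul_def, hl1]
      · simp [IntermediateField.smul_def]

theorem final (hL : IsLog L) {U : IntermediateField ℚ_[p] (PadicAlgCl p)} {f : (PadicAlgCl p)[X]}
    {ξ : ℕ → PadicAlgCl p} (hξ : Tower U f ξ) (d : ℕ) (x : Fin d → ℕ → PadicAlgCl p)
    (hx : ∀ l, NormSys U ξ (x l)) : ∃ N : ℕ, ∀ m k, N ≤ m → N ≤ k →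
      ∀ F : IntermediateField ℚ_[p] (PadicAlgCl p), Lev U ξ m ≤ F →
      (minpoly F (ξ (m + k))).natDegree = f.natDegree ^ k → ∀ (a : Fin 2 → Fin 2 → PadicAlgCl p)
      (cc : Fin 2 → Fin 2 → Fin d → PadicAlgCl p), (∀ i j, a i j ∈ F) →
      (∀ i j l, cc i j l ∈ F ∧ IsAlgebraic ℚ (cc i j l)) →
      FourExp (Matrix.of fun i j => a i j + ∑ l, cc i j l * L (x l (m + k))) ∨
        ∀ i j, cc i j ∈
          Submodule.span (algebraicClosure ℚ (PadicAlgCl p)) (Deg f.natDegree L x) := by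
  obtain ⟨t, rfl, rfl, rfl⟩ := hξ.exists_tw
  rw [t.degq]
  exact final_tw t hL d x (fun l => (hx l).ns) fun l n => (hx l n).2.2.1

end Pool.Agent.Work.MP_dd0d16_nt.W
end
end
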